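import Mathlib

/-!
# MP_ae5b4e_an, project NF (NB_5 for a strip of finite height): the end of the argument

If the potential of the window, which is close to `exp (- I x)`, is invariant under an affine map
`x ↦ A x + A'` (in the sense `A² q (z₁) = q (z₀)`, `A³ q' (z₁) = q' (z₀)`), then `z₁ - z₀` is close to a
multiple of `2 π`.
-/

noncomputable section

namespace Pool.Agent.MP_ae5b4e_an_NF

open Complex Set Filter Topology Metric

/-- the algebra -/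
private theorem end_alg {A E₀ E₁ a₀ a₁ d₀ d₁ : ℂ} {τ : ℝ} (hτ : τ ≤ 1 / 100)
    (hE₀ : E₀ ≠ 0) (hE₁ : E₁ ≠ 0) (ha₀ : ‖a₀‖ ≤ τ) (ha₁ : ‖a₁‖ ≤ τ) (hd₀ : ‖d₀‖ ≤ τ)
    (hd₁ : ‖d₁‖ ≤ τ) (h1 : A ^ 2 * (E₁ * (1 + a₁)) = E₀ * (1 + a₀))
    (h2 : A ^ 3 * (E₁ * (1 + d₁)) = E₀ * (1 + d₀)) : ‖E₀ / E₁ - 1‖ ≤ 20 * τ := by
  have hτ0 : 0 ≤ τ := (norm_nonneg _).trans ha₀
  have hlow : ∀ x : ℂ, ‖x‖ ≤ τ → 1 - τ ≤ ‖1 + x‖ ∧ ‖1 + x‖ ≤ 1 + τ := by
    intro x hx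
    have h3 := norm_add_le (1:ℂ) x
    have h4 := norm_sub_le (1 + x) x
    rw [add_sub_cancel_right] at h4
    rw [norm_one] at h3 h4
    exact ⟨by linarith, by linarith⟩
  have hne : ∀ x : ℂ, ‖x‖ ≤ τ → 1 + x ≠ 0 := by
    intro x hx h3
    have h4 := (hlow x hx).1
    rw [h3, norm_zero] at h4
    linarith
  have n0 := hne a₀ ha₀
  have n1 := hne d₁ hd₁
  -- the multiplier
  have h3 : A * ((1 + a₀) * (1 + d₁)) = (1 + d₀) * (1 + a₁) := by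
    have h4 : E₀ * (A * ((1 + a₀) * (1 + d₁)) - (1 + d₀) * (1 + a₁)) = 0 := by
      linear_combination (-A * (1 + d₁)) * h1 + (1 + a₁) * h2
    exact sub_eq_zero.1 ((mul_eq_zero.1 h4).resolve_left hE₀)
  have h4 : (A - 1) * ((1 + a₀) * (1 + d₁)) = d₀ + a₁ + d₀ * a₁ - (a₀ + d₁ + a₀ * d₁) := by
    linear_combination h3
  have h5 : ‖A - 1‖ * ((1 - τ) * (1 - τ)) ≤ 4 * τ + 2 * τ ^ 2 := by
    have e1 : ‖A - 1‖ * ((1 - τ) * (1 - τ)) ≤ ‖A - 1‖ * (‖1 + a₀‖ * ‖1 + d₁‖) := by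
      refine mul_le_mul_of_nonneg_left ?_ (norm_nonneg _)
      exact mul_le_mul (hlow a₀ ha₀).1 (hlow d₁ hd₁).1 (by linarith) (norm_nonneg _)
    rw [← norm_mul, ← norm_mul, h4] at e1
    refine e1.trans ?_
    have e2 := norm_sub_le (d₀ + a₁ + d₀ * a₁) (a₀ + d₁ + a₀ * d₁)
    have e3 := norm_add₃_le (a := d₀) (b := a₁) (c := d₀ * a₁)
    have e4 := norm_add₃_le (a := a₀) (b := d₁) (c := a₀ * d₁)
    have e5 : ‖d₀ * a₁‖ ≤ τ ^ 2 := by
      rw [norm_mul, sq]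
      exact mul_le_mul hd₀ ha₁ (norm_nonneg _) hτ0
    have e6 : ‖a₀ * d₁‖ ≤ τ ^ 2 := by
      rw [norm_mul, sq]
      exact mul_le_mul ha₀ hd₁ (norm_nonneg _) hτ0
    linarith
  have h6 : ‖A - 1‖ ≤ 5 * τ := by
    have e1 : (0.98:ℝ) ≤ (1 - τ) * (1 - τ) := by nlinarith
    have e2 : ‖A - 1‖ * 0.98 ≤ ‖A - 1‖ * ((1 - τ) * (1 - τ)) :=
      mul_le_mul_of_nonneg_left e1 (norm_nonneg _)
    nlinarith
  -- the quotient
  have h7 : (E₀ / E₁ - 1) * (1 + a₀) = (A - 1) * (A + 1) * (1 + a₁) + (a₁ - a₀) := by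
    have e1 : E₀ / E₁ * (1 + a₀) = A ^ 2 * (1 + a₁) := by
      field_simp
      linear_combination -h1
    linear_combination e1
  have h8 : ‖A + 1‖ ≤ 2 + 5 * τ := by
    have e1 : A + 1 = (A - 1) + 2 := by ring
    rw [e1]
    refine (norm_add_le _ _).trans ?_
    rw [Complex.norm_two]
    linarith
  have h9 : ‖E₀ / E₁ - 1‖ * (1 - τ) ≤ 5 * τ * (2 + 5 * τ) * (1 + τ) + 2 * τ := by
    have e1 : ‖E₀ / E₁ - 1‖ * (1 - τ) ≤ ‖E₀ / E₁ - 1‖ * ‖1 + a₀‖ :=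
      mul_le_mul_of_nonneg_left (hlow a₀ ha₀).1 (norm_nonneg _)
    rw [← norm_mul, h7] at e1
    refine e1.trans ((norm_add_le _ _).trans ?_)
    rw [norm_mul, norm_mul]
    have e2 : ‖A - 1‖ * ‖A + 1‖ ≤ 5 * τ * (2 + 5 * τ) :=
      mul_le_mul h6 h8 (norm_nonneg _) (by linarith)
    have e3 : ‖A - 1‖ * ‖A + 1‖ * ‖1 + a₁‖ ≤ 5 * τ * (2 + 5 * τ) * (1 + τ) :=
      mul_le_mul e2 (hlow a₁ ha₁).2 (norm_nonneg _) (by positivity)
    have e4 := norm_sub_le a₁ a₀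
    linarith
  have h10 : ‖E₀ / E₁ - 1‖ * 0.99 ≤ ‖E₀ / E₁ - 1‖ * (1 - τ) :=
    mul_le_mul_of_nonneg_left (by linarith) (norm_nonneg _)
  have h11 : 5 * τ * (2 + 5 * τ) * (1 + τ) ≤ 12 * τ := by
    have e1 : 5 * (2 + 5 * τ) * (1 + τ) ≤ 12 := by nlinarith
    nlinarith
  nlinarith

/-- **The end of the argument.** -/
theorem end_win {q : ℂ → ℂ} {δ y₀ α₀ K : ℝ} (hα : 0 < α₀) (hα1 : α₀ ≤ 1 / 1000) (hδ : 0 ≤ δ)
    (hδ1 : δ * Real.exp (|y₀| + 1) ≤ α₀ / 10) (hq : AnalyticOnNhd ℂ q (ball 0 K))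
    (hqb : ∀ x ∈ ball (0:ℂ) K, ‖q x - exp (-(I * x))‖ ≤ δ) {z₀ z₁ A : ℂ}
    (h0 : closedBall z₀ 1 ⊆ ball 0 K) (h1 : closedBall z₁ 1 ⊆ ball 0 K)
    (hi0 : -(|y₀| + 1) ≤ z₀.im) (hi1 : -(|y₀| + 1) ≤ z₁.im)
    (e1 : A ^ 2 * q z₁ = q z₀) (e2 : A ^ 3 * deriv q z₁ = deriv q z₀)
    (hw : ‖z₁ - z₀ - 2 * Real.pi + 2 * Real.pi * α₀‖ ≤ α₀) : False := by
  have hpi3 := Real.pi_gt_three
  have hpi4 := Real.pi_lt_d2
  -- one point
  have key : ∀ z : ℂ, closedBall z 1 ⊆ ball 0 K → -(|y₀| + 1) ≤ z.im →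
      ∃ a d : ℂ, ‖a‖ ≤ α₀ / 10 ∧ ‖d‖ ≤ α₀ / 10 ∧ q z = exp (-(I * z)) * (1 + a) ∧
        deriv q z = -I * (exp (-(I * z)) * (1 + d)) := by
    intro z hz hi
    have hzK : z ∈ ball (0:ℂ) K := hz (mem_closedBall_self zero_le_one)
    have hE : exp (-(I * z)) ≠ 0 := Complex.exp_ne_zero _
    have hEn : ‖exp (-(I * z))‖ = Real.exp z.im := by
      rw [Complex.norm_exp]
      congr 1
      simp
    have hinv : ∀ x : ℂ, ‖x‖ ≤ δ → ‖x / exp (-(I * z))‖ ≤ α₀ / 10 := by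
      intro x hx
      rw [norm_div, hEn, div_eq_mul_inv, ← Real.exp_neg]
      refine le_trans ?_ hδ1
      exact mul_le_mul hx (Real.exp_le_exp.2 (by linarith)) (Real.exp_pos _).le hδ
    have hexpd : ∀ x : ℂ, HasDerivAt (fun x : ℂ => exp (-(I * x))) (-I * exp (-(I * x))) x := by
      intro x
      have h3 : HasDerivAt (fun x : ℂ => -(I * x)) (-(I * 1)) x :=
        ((hasDerivAt_id x).const_mul I).neg
      have h4 := h3.cexp
      convert! h4 using 1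
      ring
    have hder : ‖deriv q z - -I * exp (-(I * z))‖ ≤ δ := by
      have h3 : HasDerivAt (fun x => q x - exp (-(I * x))) (deriv q z - -I * exp (-(I * z))) z :=
        (hq z hzK).differentiableAt.hasDerivAt.sub (hexpd z)
      have h4 : ‖deriv (fun x => q x - exp (-(I * x))) z‖ ≤ δ / 1 := by
        refine Complex.norm_deriv_le_of_forall_mem_sphere_norm_le one_pos ?_ ?_
        · have h5 : DifferentiableOn ℂ (fun x => q x - exp (-(I * x))) (closedBall z 1) := by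
            intro x hx
            exact ((hq x (hz hx)).differentiableAt.sub
              (hexpd x).differentiableAt).differentiableWithinAt
          exact h5.diffContOnCl_ball Subset.rfl
        · intro x hx
          exact hqb x (hz (sphere_subset_closedBall hx))
      rw [h3.deriv, div_one] at h4
      exact h4
    refine ⟨(q z - exp (-(I * z))) / exp (-(I * z)),
      (deriv q z - -I * exp (-(I * z))) * I / exp (-(I * z)), hinv _ (hqb z hzK), hinv _ ?_, ?_, ?_⟩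
    · rw [norm_mul, Complex.norm_I, mul_one]
      exact hder
    · field_simp
      ring
    · field_simp
      linear_combination (deriv q z + I * exp (-(I * z))) * I_sq
  obtain ⟨a₀, d₀, ha0, hd0, q0, r0⟩ := key z₀ h0 hi0
  obtain ⟨a₁, d₁, ha1, hd1, q1, r1⟩ := key z₁ h1 hi1
  have hE0 : exp (-(I * z₀)) ≠ 0 := Complex.exp_ne_zero _
  have hE1 : exp (-(I * z₁)) ≠ 0 := Complex.exp_ne_zero _
  have hq1 : A ^ 2 * (exp (-(I * z₁)) * (1 + a₁)) = exp (-(I * z₀)) * (1 + a₀) := by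
    rw [← q0, ← q1]
    exact e1
  have hq2 : A ^ 3 * (exp (-(I * z₁)) * (1 + d₁)) = exp (-(I * z₀)) * (1 + d₀) := by
    rw [r0, r1] at e2
    have h3 : -I * (A ^ 3 * (exp (-(I * z₁)) * (1 + d₁)) - exp (-(I * z₀)) * (1 + d₀)) = 0 := by
      linear_combination e2
    exact sub_eq_zero.1 ((mul_eq_zero.1 h3).resolve_left (neg_ne_zero.2 I_ne_zero))
  have hfin := end_alg (τ := α₀ / 10) (by linarith) hE0 hE1 ha0 ha1 hd0 hd1 hq1 hq2
  -- the displacement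
  obtain ⟨w, hwd⟩ : ∃ w : ℂ, w = z₁ - z₀ - 2 * Real.pi := ⟨_, rfl⟩
  have hEw : exp (-(I * z₀)) / exp (-(I * z₁)) = exp (I * w) := by
    rw [← Complex.exp_sub]
    have h3 : -(I * z₀) - -(I * z₁) = I * w + 2 * Real.pi * I := by
      rw [hwd]
      ring
    rw [h3, Complex.exp_add, Complex.exp_two_pi_mul_I, mul_one]
  rw [hEw] at hfin
  rw [← hwd] at hw
  have hp : ‖(2 * (Real.pi : ℂ) * (α₀ : ℂ))‖ = 2 * Real.pi * α₀ := by
    rw [show (2 * (Real.pi : ℂ) * (α₀ : ℂ)) = ((2 * Real.pi * α₀ : ℝ) : ℂ) by push_cast; ring,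
      norm_real, Real.norm_of_nonneg (by positivity)]
  have hw1 : ‖w‖ ≤ 8 * α₀ := by
    have h3 := norm_sub_le (w + 2 * Real.pi * α₀) (2 * Real.pi * α₀)
    rw [add_sub_cancel_right, hp] at h3
    nlinarith
  have hw2 : 5 * α₀ ≤ ‖w‖ := by
    have h3 := norm_sub_le (w + 2 * Real.pi * α₀) w
    rw [add_sub_cancel_left, hp] at h3
    nlinarith
  have hIw : ‖I * w‖ = ‖w‖ := by rw [norm_mul, Complex.norm_I, one_mul]
  have h4 := Complex.norm_exp_sub_one_sub_id_le (x := I * w) (by rw [hIw]; linarith)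
  rw [hIw] at h4
  have h5 : ‖I * w‖ ≤ ‖exp (I * w) - 1‖ + ‖exp (I * w) - 1 - I * w‖ := by
    have h6 := norm_sub_le (exp (I * w) - 1) (exp (I * w) - 1 - I * w)
    rwa [sub_sub_cancel] at h6
  rw [hIw] at h5
  have h6 : ‖w‖ ^ 2 ≤ 8 * α₀ * ‖w‖ := by
    rw [sq]
    exact mul_le_mul_of_nonneg_right hw1 (norm_nonneg _)
  nlinarith

end Pool.Agent.MP_ae5b4e_an_NF
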