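import Pool.Agent.Lib.MP_ae5b4e_an_NF.Defs
import Pool.Agent.Lib.MP_ae5b4e_an_GP.Base

/-!
# MP_ae5b4e_an, project NF (NB_5 for a strip of finite height): slices at small real parameters
-/

noncomputable section

namespace Pool.Agent.MP_ae5b4e_an_NF

open Complex Set Filter Topology Metric
open Pool.Agent.MP_ae5b4e_an_NBT
open Pool.Agent.MP_ae5b4e_an_NB2 (Sys)
open Pool.Agent.MP_ae5b4e_an_NB5 (Bs)
open Pool.Agent.MP_ae5b4e_an_GP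
open scoped ComplexConjugate

variable {k : ℂ → ℂ} {F G : ℂ × ℂ → ℂ} {c h : ℝ} {Y : Sys}

private lemma rsl_merF (hC : Con k F c) : Mer F (St (-c) c ×ˢ ball 0 (c / 4)) := by
  have hc := hC.pos
  exact (Mer.of_analytic hC.an).mono (prod_mono Subset.rfl (ball_subset_ball (by linarith)))

/-- the slice of the maximal extension -/
private lemma rsl_glue (hC : Con k F c) {ρ₀ y₁ b : ℝ} (hρ : (ρ₀ : ℂ) ∈ ball (0:ℂ) (c / 4))
    (hy₁ : 0 < y₁) (hbc : b ≤ c / 4) (hext : ∀ y < y₁, ExtM F c (c / 4) y ρ₀) :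
    ∃ X : ℂ → ℂ, (∀ t ∈ St (-c) y₁, MeromorphicAt X t) ∧ ∀ t ∈ St (-b) b, X t = F (t, ρ₀) := by
  have hc := hC.pos
  obtain ⟨G, hG, hGF⟩ := exists_ext (R := c / 4) hc (rsl_merF hC)
  have hanF : ∀ t ∈ St (-c) c, AnalyticAt ℂ F (t, (ρ₀:ℂ)) := fun t ht =>
    hC.an _ ⟨ht, ball_subset_ball (by linarith) hρ⟩
  refine ⟨sl G ρ₀, fun t ht => SlAt.meromorphicAt ?_, fun t ht => ?_⟩
  · refine slAt_of_mer (V := St (-c) y₁) (convex_St _ _).isPreconnected ?_ (t₁ := 0) ?_ ?_ t ht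
    · intro s hs
      obtain ⟨y, h1, h2⟩ := exists_between hs.2
      exact hG _ ⟨hρ, hs.1, y, h1, hext y h2⟩
    · refine ⟨?_, ?_⟩
      · simpa using hc
      · simpa using hy₁
    · have h0 : (0:ℂ) ∈ St (-c) c := ⟨by simpa using hc, by simpa using hc⟩
      exact (slAt_of_analyticAt (hanF 0 h0)).congr (hGF _ ⟨h0, hρ⟩).symm
  · have htc : t ∈ St (-c) c := ⟨by linarith [ht.1], by linarith [ht.2]⟩
    exact nfM_eq (hanF t htc) (hGF _ ⟨htc, hρ⟩)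

/-- the extension along a window -/
private lemma rsl_ext (hN : NBd k F c h G) {b C : ℝ} {L : ℂ × ℂ → ℂ} (hL : EntS Y h b C L)
    (hF : ∀ p ∈ Bs b, Y.y1 (L p) ≠ 0 ∧ F p = Y.y2 (L p) / Y.y1 (L p))
    {ρ₀ a η y₁ y₂ : ℝ} (h0 : 0 < ρ₀) (hmem : (ρ₀ : ℂ) ∈ ball (0:ℂ) (c / 4)) (hη : ρ₀ ≤ η)
    (hy₂ : c < y₂) (h2c : ExtM F c (c / 4) y₂ ρ₀)
    {U : Set (ℂ × ℂ)} {Λ : ℂ × ℂ → ℂ} (hU : IsOpen U) (hΛ : AnalyticOnNhd ℂ Λ U)
    (hΛS : ∀ p ∈ U, Λ p ∈ St (-h) h)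
    (hwin : ∀ t : ℂ, |t.re - a| ≤ η → 0 < t.im → t.im < y₁ → (t, (ρ₀:ℂ)) ∈ U)
    (hbase : ∀ p ∈ U, 0 < p.1.im → p.1.im < b / 2 → p ∈ Bs b ∧ Λ p = L p) :
    ∀ y < y₁, ExtM F c (c / 4) y ρ₀ := by
  have hE := hN.toConE
  have hc := hE.pos
  by_contra hcon
  push Not at hcon
  obtain ⟨y, hyy, hny⟩ := hcon
  set S : Set ℝ := {y | ExtM F c (c / 4) y ρ₀} with hS
  have hub : ∀ y' ∈ S, y' ≤ y := by
    intro y' hy'
    by_contra h
    exact hny (ExtM.mono hy' (not_le.1 h).le)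
  have hbdd : BddAbove S := ⟨y, hub⟩
  have hne : S.Nonempty := ⟨y₂, h2c⟩
  set H := sSup S with hH
  have hH2 : y₂ ≤ H := le_csSup hbdd h2c
  have hHy : H ≤ y := csSup_le hne hub
  have hcH : c < H := by linarith
  have hH0 : 0 < H := by linarith
  have hHy₁ : H < y₁ := hHy.trans_lt hyy
  have hext : ∀ y < H, ExtM F c (c / 4) y ρ₀ := by
    intro y' hy'
    obtain ⟨y'', h1, h2⟩ := exists_lt_of_lt_csSup hne hy'
    exact ExtM.mono h1 h2.le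
  have hno : ¬ ∃ y > H, ExtM F c (c / 4) y ρ₀ := by
    rintro ⟨y', h1, h2⟩
    exact absurd (le_csSup hbdd h2) (not_le.2 h1)
  have hT : Top F c H ρ₀ := ⟨hcH, h0, hmem, hext, hno⟩
  refine gp_window hN hT (a := a) hη ?_
  intro x hx
  have hreτ : ∀ s : ℝ, ((x:ℂ) + s * I).re = x := by intro s; simp
  have himτ : ∀ s : ℝ, ((x:ℂ) + s * I).im = s := by intro s; simp
  have hseg : ∀ s : ℝ, 0 < s → s < y₁ → ((x:ℂ) + s * I, (ρ₀:ℂ)) ∈ U := by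
    intro s hs1 hs2
    exact hwin _ (by rw [hreτ]; exact hx) (by rw [himτ]; exact hs1) (by rw [himτ]; exact hs2)
  have hτ := hseg H hH0 hHy₁
  obtain ⟨ε, hε, hball⟩ := Metric.isOpen_iff.1 hU _ hτ
  rw [← ball_prod_same] at hball
  set g : ℂ × ℂ → ℂ := fun p => Y.y2 (Λ p) / Y.y1 (Λ p) with hg
  have hSo := isOpen_St (-h) h
  have hy1 := Sys.an_y1 hL.on hSo
  have hy2 := Sys.an_y2 hL.on hSo
  have hgm : Mer g U := by
    intro p hp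
    have h1 : AnalyticAt ℂ (fun q => Y.y1 (Λ q)) p :=
      AnalyticAt.fun_comp (g := Y.y1) (hy1 _ (hΛS p hp)) (hΛ p hp)
    have h2 : AnalyticAt ℂ (fun q => Y.y2 (Λ q)) p :=
      AnalyticAt.fun_comp (g := Y.y2) (hy2 _ (hΛS p hp)) (hΛ p hp)
    exact (merAt_of_analyticAt h2).div (merAt_of_analyticAt h1)
  have hm0 : 0 < min ε H := lt_min hε hH0
  have hm1 := min_le_left ε H
  have hm2 := min_le_right ε H
  refine topF_of_point hE hT (ε := ε) (η₁ := min ε H / 2) (g := g) hε (by positivity)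
    (by linarith) (by linarith) (hgm.mono hball) ?_
  -- the segment
  have hS1 : IsPreconnected ((fun s : ℝ => ((x:ℂ) + s * I, (ρ₀:ℂ))) '' Ioo 0 H) :=
    isPreconnected_Ioo.image _ (by fun_prop)
  have hb := hL.b_pos
  have hs00 : 0 < min (b / 2) c := lt_min (by linarith) hc
  have hs01 := min_le_left (b / 2) c
  have hs02 := min_le_right (b / 2) c
  set s₀ : ℝ := min (b / 2) c / 2 with hs₀
  have hs03 : 0 < s₀ := by positivity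
  have hs04 : s₀ < b / 2 := by linarith
  have hs05 : s₀ < c := by linarith
  have hfin := Mer.eqM hS1 (f := g) (g := G) (p := ((x:ℂ) + s₀ * I, (ρ₀:ℂ))) ?_ ?_
    ⟨s₀, ⟨hs03, by linarith⟩, rfl⟩ ?_ ((x:ℂ) + (H - min ε H / 2 : ℝ) * I, (ρ₀:ℂ))
    ⟨H - min ε H / 2, ⟨by linarith, by linarith⟩, rfl⟩
  · have h1 : (x:ℂ) + (H - min ε H / 2 : ℝ) * I = (x:ℂ) + H * I - (min ε H / 2 : ℝ) * I := by
      push_cast
      ring
    rw [h1] at hfin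
    exact hfin
  · rintro _ ⟨s, ⟨h1, h2⟩, rfl⟩
    exact hgm _ (hseg s h1 (h2.trans hHy₁))
  · rintro _ ⟨s, ⟨h1, h2⟩, rfl⟩
    refine hE.merG _ (top_df hT ?_)
    rw [himτ, abs_of_pos h1]
    exact h2
  · have hin : ((x:ℂ) + s₀ * I, (ρ₀:ℂ)) ∈ St (-c) c ×ˢ ball (0:ℂ) (c / 4) := by
      refine ⟨⟨?_, ?_⟩, hmem⟩
      · show -c < ((x:ℂ) + s₀ * I).im
        rw [himτ]
        linarith
      · show ((x:ℂ) + s₀ * I).im < c
        rw [himτ]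
        linarith
    refine EqM.trans (EqM.of_eventuallyEq ?_) (hE.eqG _ hin).symm
    have hUn : ∀ᶠ q in 𝓝 ((x:ℂ) + s₀ * I, (ρ₀:ℂ)), q ∈ U :=
      hU.mem_nhds (hseg s₀ hs03 (by linarith))
    have him1 : ContinuousAt (fun q : ℂ × ℂ => q.1.im) ((x:ℂ) + s₀ * I, (ρ₀:ℂ)) := by fun_prop
    have hlo : ∀ᶠ q in 𝓝 ((x:ℂ) + s₀ * I, (ρ₀:ℂ)), 0 < q.1.im :=
      continuousAt_const.eventually_lt him1 (by
        show 0 < ((x:ℂ) + s₀ * I).im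
        rw [himτ]
        exact hs03)
    have hhi : ∀ᶠ q in 𝓝 ((x:ℂ) + s₀ * I, (ρ₀:ℂ)), q.1.im < b / 2 :=
      him1.eventually_lt continuousAt_const (by
        show ((x:ℂ) + s₀ * I).im < b / 2
        rw [himτ]
        exact hs04)
    filter_upwards [hUn, hlo, hhi] with q h1 h2 h3
    obtain ⟨h4, h5⟩ := hbase q h1 h2 h3
    show Y.y2 (Λ q) / Y.y1 (Λ q) = F q
    rw [h5, (hF q h4).2]

/-- **Slices at small real parameters**, for a natural boundary: a label on a window of half length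
`η ≥ ρ₀` with values in the strip gives the slice at the parameter `ρ₀`. -/
theorem real_sliceS (hN : NBd k F c h G) {b C : ℝ} {L : ℂ × ℂ → ℂ} (hL : EntS Y h b C L)
    (hbc : b ≤ c / 4) (hF : ∀ p ∈ Bs b, Y.y1 (L p) ≠ 0 ∧ F p = Y.y2 (L p) / Y.y1 (L p)) :
    ∃ R : ℝ, 0 < R ∧ ∀ ρ₀ a η y₁ : ℝ, 0 < ρ₀ → ρ₀ < R → ρ₀ ≤ η → 0 < y₁ →
      ∀ (U : Set (ℂ × ℂ)) (Λ : ℂ × ℂ → ℂ), IsOpen U → AnalyticOnNhd ℂ Λ U →
        (∀ p ∈ U, Λ p ∈ St (-h) h) →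
        (∀ t : ℂ, |t.re - a| ≤ η → 0 < t.im → t.im < y₁ → (t, (ρ₀:ℂ)) ∈ U) →
        (∀ p ∈ U, 0 < p.1.im → p.1.im < b / 2 → p ∈ Bs b ∧ Λ p = L p) →
        ∃ X : ℂ → ℂ, (∀ t ∈ St (-c) y₁, MeromorphicAt X t) ∧
          ∀ t ∈ St (-b) b, X t = F (t, ρ₀) := by
  have hE := hN.toConE
  have hc := hE.pos
  have hch := hE.hc
  obtain ⟨e, he, hext⟩ := Metric.eventually_nhds_iff_ball.1
    (hE.ext ((c + h) / 2) (by linarith)).eventually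
  refine ⟨min e (c / 4), lt_min he (by linarith), ?_⟩
  intro ρ₀ a η y₁ h0 h1 hη hy U Λ hU hΛ hΛS hwin hbase
  have hnorm : ∀ R' : ℝ, ρ₀ < R' → (ρ₀:ℂ) ∈ ball (0:ℂ) R' := by
    intro R' h1
    rw [mem_ball_zero_iff, norm_real, Real.norm_of_nonneg h0.le]
    exact h1
  have hmem := hnorm _ (h1.trans_le (min_le_right _ _))
  exact rsl_glue hE.toCon hmem hy hbc (rsl_ext hN hL hF h0 hmem hη (by linarith)
    (hext _ (hnorm _ (h1.trans_le (min_le_left _ _)))) hU hΛ hΛS hwin hbase)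

end Pool.Agent.MP_ae5b4e_an_NF
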