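import Pool.Agent.Lib.MP_ae5b4e_an_NF.WinCS

/-!
# MP_ae5b4e_an, project NF (NB_5 for a strip of finite height): existence of windows
-/

noncomputable section

namespace Pool.Agent.MP_ae5b4e_an_NF

open Complex Set Filter Topology Metric
open Pool.Agent.MP_ae5b4e_an_NBT (St isOpen_St)
open Pool.Agent.MP_ae5b4e_an_NB2 (Sys)
open scoped ComplexConjugate

/-- **windows exist** -/
theorem exists_wdS {k δ : ℝ} (hk : 1 ≤ k) (hδ : 0 < δ) :
    ∃ B₀ : ℕ, ∀ B : ℕ, B₀ ≤ B → ∀ {Y : Sys} {h b C : ℝ} {L : ℂ × ℂ → ℂ}, EntS Y h b C L →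
      (B:ℝ) * b ≤ h / 2 →
      (∀ A : ℝ, ∃ z : ℂ, |z.im| < h ∧ A < ‖Y.Q z‖ * (h - |z.im|) ^ B) →
      ∀ C₁ e : ℝ, 1 ≤ C₁ → 0 < e →
      ∃ (H A : ℝ) (l : ℂ) (c N : ℝ), WdS Y h b B H A l c N k δ ∧ C₁ * B * H ^ B ≤ A ∧ c ≤ e := by
  obtain ⟨B₀, hB₀⟩ := approxS hk hδ
  obtain ⟨n, hn⟩ := exists_nat_ge (4 * k ^ 2)
  refine ⟨max (max B₀ 1000) n, ?_⟩
  intro B hB Y h b C L hE hb hun C₁ e hC₁ he
  have hB1 : B₀ ≤ B := (le_max_left _ _).trans ((le_max_left _ _).trans hB)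
  have hB2 : 1000 ≤ B := (le_max_right _ _).trans ((le_max_left _ _).trans hB)
  have hB3 : 4 * k ^ 2 ≤ B := hn.trans (by exact_mod_cast (le_max_right _ _).trans hB)
  have hB1000 : (1000:ℝ) ≤ B := by exact_mod_cast hB2
  have hBpos : (0:ℝ) < B := by linarith
  have hh : 0 < h := hE.b_pos.trans hE.b_h
  have hd := qS_diff (isOpen_St (-h) h) hE.on
  obtain ⟨A₀, ⟨hA1, hA4⟩, hA2, hA3⟩ : ∃ A₀ : ℝ, (C₁ * B * h ^ B ≤ A₀ ∧ h ^ B / e ^ 2 ≤ A₀) ∧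
      h ^ B / δ ^ 2 ≤ A₀ ∧ h ^ (B - 2) * B ^ 2 / δ ^ 2 ≤ A₀ :=
    ⟨max (max (C₁ * B * h ^ B) (h ^ B / e ^ 2))
      (max (h ^ B / δ ^ 2) (h ^ (B - 2) * B ^ 2 / δ ^ 2)),
      ⟨(le_max_left _ _).trans (le_max_left _ _), (le_max_right _ _).trans (le_max_left _ _)⟩,
      (le_max_left _ _).trans (le_max_right _ _), (le_max_right _ _).trans (le_max_right _ _)⟩
  obtain ⟨H, A, l, hH1, hH2, hA, h1, h2, h3, h4, h5⟩ :=
    exists_topS hh hd.continuousOn hE.qper hE.qre (by omega : 1 ≤ B) hun A₀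
  have hsub : St (-H) H ⊆ St (-h) h := by
    rintro z ⟨h6, h7⟩
    exact ⟨by linarith, by linarith⟩
  obtain ⟨θ₀, hθ⟩ := hB₀ B hB1 Y.Q H A l (hd.mono hsub) h4 hA h1 h2 h3
  have hH0 : 0 < H := by linarith
  set D := H - l.im with hD
  have hD0 : 0 < D := by rw [hD]; linarith
  have hDh : D ≤ h := by rw [hD]; linarith
  set N := (B:ℝ) / D with hN
  have hN0 : 0 < N := by positivity
  set c := Real.sqrt (D ^ B / A) with hc
  have hq : 0 < D ^ B / A := by positivity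
  have hc2 : c ^ 2 = D ^ B / A := Real.sq_sqrt hq.le
  have hc0 : 0 < c := Real.sqrt_pos.2 hq
  have hcx : ∀ x : ℝ, 0 < x → h ^ B / x ^ 2 ≤ A₀ → c ≤ x := by
    intro x hx hA5
    rw [← Real.sqrt_sq hx.le, hc]
    apply Real.sqrt_le_sqrt
    rw [div_le_iff₀ hA]
    have h6 := hA5.trans h5
    rw [div_le_iff₀ (by positivity)] at h6
    have hp : D ^ B ≤ h ^ B := by gcongr
    linarith
  have hcle : c ≤ δ := hcx δ hδ hA2
  have hcN : c * N ≤ δ := by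
    have e1 : 0 ≤ c * N := by positivity
    rw [← Real.sqrt_sq hδ.le, ← Real.sqrt_sq e1]
    apply Real.sqrt_le_sqrt
    rw [mul_pow, hc2, hN, div_pow]
    have e2 : D ^ B / A * ((B:ℝ) ^ 2 / D ^ 2) = D ^ (B - 2) * B ^ 2 / A := by
      have : D ^ B = D ^ (B - 2) * D ^ 2 := by
        rw [← pow_add]
        congr 1
        omega
      rw [this]
      field_simp
    rw [e2, div_le_iff₀ hA]
    have h6 := hA3.trans h5
    rw [div_le_iff₀ (by positivity)] at h6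
    have hp : D ^ (B - 2) * (B:ℝ) ^ 2 ≤ h ^ (B - 2) * B ^ 2 := by gcongr
    linarith
  have him : (l + θ₀ / ((N : ℝ) : ℂ)).im = l.im := by
    rw [← ofReal_div, add_im, ofReal_im, add_zero]
  refine ⟨H, A, l + θ₀ / ((N : ℝ) : ℂ), c, N, ?_, ?_⟩
  · refine ⟨⟨by omega, hB2, by linarith, hH2.le, hA, h4⟩, by rwa [him], by rwa [him], ?_, hc0,
      hcle, hcN, ?_, hk, hB3, ?_⟩
    · rw [him]
    · have e5 : A * (D ^ B / A) = D ^ B := by field_simp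
      rw [him, hc2]
      exact e5
    · intro z hz
      have := hθ z hz
      rwa [← ofReal_pow, hc2]
  · refine ⟨le_trans ?_ (hA1.trans h5), hcx e he hA4⟩
    gcongr

end Pool.Agent.MP_ae5b4e_an_NF
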