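import Pool.Agent.Lib.MP_ae5b4e_an_NF.WinBS
import Pool.Agent.Lib.MP_ae5b4e_an_NB5.Wlx

/-!
# MP_ae5b4e_an, project NF (NB_5 for a strip of finite height): the label in a window
-/

noncomputable section

namespace Pool.Agent.MP_ae5b4e_an_NF

open Complex Set Filter Topology Metric
open Pool.Agent.MP_ae5b4e_an_NBT (St isOpen_St)
open Pool.Agent.MP_ae5b4e_an_NB2 (Sys)
open Pool.Agent.MP_ae5b4e_an_NB5
open scoped ComplexConjugate

/-- the rescaled system on the preimage -/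
theorem scN_onS {Y : Sys} {l : ℂ} {N : ℝ} (hN : 0 < N) {T S : Set ℂ} (hY : Y.On T)
    (hS : ∀ z ∈ S, l + z / N ∈ T) : (scN Y l N).On S := by
  have hr : (Real.sqrt N : ℂ) ≠ 0 := ofReal_ne_zero.2 (Real.sqrt_pos.2 hN).ne'
  have hr2 : (Real.sqrt N : ℂ) * (Real.sqrt N : ℂ) = N := by
    rw [← ofReal_mul, Real.mul_self_sqrt hN.le]
  have hN' : (N : ℂ) ≠ 0 := ofReal_ne_zero.2 hN.ne'
  have hl : ∀ z : ℂ, HasDerivAt (fun z : ℂ => l + z / N) (1 / (N : ℂ)) z := by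
    intro z
    exact ((hasDerivAt_id z).div_const (N : ℂ)).const_add l
  refine ⟨?_, ?_, ?_, ?_, ?_⟩
  · intro z hz
    have h1 := ((hY.d1 (l + z / N) (hS z hz)).comp z (hl z)).const_mul (Real.sqrt N : ℂ)
    refine h1.congr_deriv ?_
    change (Real.sqrt N : ℂ) * (Y.y1' (l + z / N) * (1 / (N : ℂ))) =
      Y.y1' (l + z / N) / (Real.sqrt N : ℂ)
    rw [← hr2]
    field_simp
  · intro z hz
    have h1 := ((hY.d1' (l + z / N) (hS z hz)).comp z (hl z)).div_const (Real.sqrt N : ℂ)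
    refine h1.congr_deriv ?_
    change -(Y.Q (l + z / N) * Y.y1 (l + z / N)) * (1 / (N : ℂ)) / (Real.sqrt N : ℂ) =
      -(Y.Q (l + z / N) / (N : ℂ) ^ 2 * ((Real.sqrt N : ℂ) * Y.y1 (l + z / N)))
    rw [← hr2]
    field_simp
  · intro z hz
    have h1 := ((hY.d2 (l + z / N) (hS z hz)).comp z (hl z)).const_mul (Real.sqrt N : ℂ)
    refine h1.congr_deriv ?_
    change (Real.sqrt N : ℂ) * (Y.y2' (l + z / N) * (1 / (N : ℂ))) =
      Y.y2' (l + z / N) / (Real.sqrt N : ℂ)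
    rw [← hr2]
    field_simp
  · intro z hz
    have h1 := ((hY.d2' (l + z / N) (hS z hz)).comp z (hl z)).div_const (Real.sqrt N : ℂ)
    refine h1.congr_deriv ?_
    change -(Y.Q (l + z / N) * Y.y2 (l + z / N)) * (1 / (N : ℂ)) / (Real.sqrt N : ℂ) =
      -(Y.Q (l + z / N) / (N : ℂ) ^ 2 * ((Real.sqrt N : ℂ) * Y.y2 (l + z / N)))
    rw [← hr2]
    field_simp
  · intro z hz
    have h1 := hY.wr (l + z / N) (hS z hz)
    change (Real.sqrt N : ℂ) * Y.y1 (l + z / N) * (Y.y2' (l + z / N) / (Real.sqrt N : ℂ)) -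
      Y.y1' (l + z / N) / (Real.sqrt N : ℂ) * ((Real.sqrt N : ℂ) * Y.y2 (l + z / N)) = 1
    rw [← h1]
    field_simp

private theorem wlx_exp {B : ℕ} {k y : ℝ} (hk : 1 ≤ k) (hB : 4 * (2 * k) ^ 2 ≤ B) (hy : |y| ≤ k) :
    Real.exp (-y) / 2 ≤ (1 - y / B) ^ B := by
  have hB0 : (0:ℝ) < B := by nlinarith
  obtain ⟨x, hx⟩ : ∃ x : ℝ, x = y / B := ⟨_, rfl⟩
  have hy2 : y ^ 2 ≤ k ^ 2 := sq_le_sq' (by linarith [neg_abs_le y]) (by linarith [le_abs_self y])
  have hBx : B * x = y := by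
    rw [hx]
    field_simp
  have hx1 : x ≤ 1 / 2 := by
    rw [hx, div_le_iff₀ hB0]
    nlinarith [le_abs_self y]
  have h1x : 0 < 1 - x := by linarith
  have hlog : -x - 2 * x ^ 2 ≤ Real.log (1 - x) := by
    refine le_trans ?_ (Real.one_sub_inv_le_log_of_pos h1x)
    have h1 : 1 - (1 - x)⁻¹ = -x / (1 - x) := by
      field_simp
      ring
    rw [h1, le_div_iff₀ h1x]
    nlinarith [mul_nonneg (sq_nonneg x) (by linarith : 0 ≤ 1 - 2 * x)]
  have h2 : Real.exp (-x - 2 * x ^ 2) ≤ 1 - x := by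
    rw [← Real.exp_log h1x]
    exact Real.exp_le_exp.2 hlog
  have h3 : Real.exp (-x - 2 * x ^ 2) ^ B ≤ (1 - x) ^ B :=
    pow_le_pow_left₀ (Real.exp_pos _).le h2 B
  rw [← Real.exp_nat_mul] at h3
  have h4 : (B:ℝ) * (-x - 2 * x ^ 2) = -y + -(2 * (y * x)) := by
    rw [← hBx]
    ring
  rw [h4, Real.exp_add] at h3
  have h5 : y * x ≤ 1 / 16 := by
    rw [hx, ← mul_div_assoc, div_le_iff₀ hB0]
    nlinarith
  have h6 : (1:ℝ) / 2 ≤ Real.exp (-(2 * (y * x))) := by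
    have := Real.add_one_le_exp (-(2 * (y * x)))
    linarith
  rw [← hx]
  refine le_trans ?_ h3
  rw [div_eq_mul_one_div]
  exact mul_le_mul_of_nonneg_left h6 (Real.exp_pos _).le

/-- **The label in a window**, for a strip of finite height -/
theorem wl_of_wdS {Y : Sys} {h b C : ℝ} {L : ℂ × ℂ → ℂ} (hE : EntS Y h b C L) {B : ℕ} {H A : ℝ}
    {l : ℂ} {c N k δ κ : ℝ} (hW : WdS Y h b B H A l c N (2 * k) δ) {M : ℂ × ℂ → ℂ}
    (hM : ZL Y b L κ 400 B H A M) (hk : 800 ≤ k) :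
    WL (scN Y l N) (fun x => (c:ℂ) ^ 2 * Y.Q (l + x / N)) (c * N) k δ (κ / 2) 800
      (fun p => N * (M (l + p.1 / N, c * p.2) - l)) := by
  obtain ⟨D, hD⟩ : ∃ D : ℝ, D = H - l.im := ⟨_, rfl⟩
  have hD0 : 0 < D := by
    rw [hD]
    linarith [hW.im']
  have hDH : D < H / 2 := by
    rw [hD]
    linarith [hW.im]
  have hkB := hW.k_le
  have hB0 : (0:ℝ) < B := by nlinarith
  have hkB' : k ≤ B / 2 := by nlinarith
  have hNe : N = B / D := by rw [hD, hW.N_eq]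
  have hN : 0 < N := by
    rw [hNe]
    positivity
  have hN' : (N : ℂ) ≠ 0 := ofReal_ne_zero.2 hN.ne'
  have hc := hW.c_pos
  have hinv : 1 / N = D / B := by
    rw [hNe]
    field_simp
  have him : ∀ u : ℂ, (l + u / N).im = l.im + u.im / N := by
    intro u
    rw [add_im, div_ofReal_im]
  have hyN : ∀ y : ℝ, y / N = y * D / B := by
    intro y
    rw [hNe]
    field_simp
  have hdep : ∀ u : ℂ, H - (l + u / N).im = D * (1 - u.im / B) := by
    intro u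
    rw [him, hyN, hD]
    field_simp
    ring
  have habs : ∀ u : ℂ, ‖u‖ < k → |u.im| < k := fun u hu => (abs_im_le_norm u).trans_lt hu
  have hpt : ∀ u : ℂ, ‖u‖ < k → 0 < (l + u / N).im ∧ (l + u / N).im < H ∧
      0 < 1 - u.im / B ∧ 1 - u.im / B ≤ 2 := by
    intro u hu
    have h1 := habs u hu
    have h2 := abs_lt.1 h1
    have h3 : u.im / B < 1 := by
      rw [div_lt_one hB0]
      linarith
    have h4 : -1 ≤ u.im / B := by
      rw [le_div_iff₀ hB0]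
      linarith
    have h5 := hdep u
    have h6 : 0 < D * (1 - u.im / B) := mul_pos hD0 (by linarith)
    have h7 : D * (1 - u.im / B) ≤ 2 * D := by nlinarith
    refine ⟨?_, by linarith, by linarith, by linarith⟩
    linarith
  have hzn : ∀ p : ℂ × ℂ, p ∈ Wz k (κ / 2) → (l + p.1 / N, (c:ℂ) * p.2) ∈ Zn κ B H A := by
    rintro ⟨u, γ⟩ ⟨h1, h2, h3⟩
    simp only at h1 h2 h3
    obtain ⟨h4, h5, h6, -⟩ := hpt u h1
    refine ⟨h4, h5, ?_⟩
    change ‖(c:ℂ) * γ‖ ^ 2 * A < κ * (H - (l + u / N).im) ^ B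
    have hκ : 0 < κ := by
      have : 0 ≤ ‖γ‖ ^ 2 * Real.exp u.im := by positivity
      linarith
    have h7 := wlx_exp (by linarith : (1:ℝ) ≤ k) hkB (habs u h1).le
    have hDB : 0 < D ^ B := pow_pos hD0 B
    have h8 : ‖(c:ℂ) * γ‖ ^ 2 * A = ‖γ‖ ^ 2 * D ^ B := by
      rw [norm_mul, norm_real, Real.norm_of_nonneg hc.le, mul_pow]
      have h9 := hW.Ac
      rw [← hD] at h9
      rw [← h9]
      ring
    rw [h8, hdep, mul_pow]
    have h9 : ‖γ‖ ^ 2 < κ / 2 * Real.exp (-u.im) := by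
      rw [Real.exp_neg, ← div_eq_mul_inv, lt_div_iff₀ (Real.exp_pos _)]
      exact h3
    have h10 : κ / 2 * Real.exp (-u.im) ≤ κ * (1 - u.im / B) ^ B := by
      have := mul_le_mul_of_nonneg_left h7 hκ.le
      linarith
    have h11 := mul_lt_mul_of_pos_right (lt_of_lt_of_le h9 h10) hDB
    calc ‖γ‖ ^ 2 * D ^ B < κ * (1 - u.im / B) ^ B * D ^ B := h11
      _ = κ * (D ^ B * (1 - u.im / B) ^ B) := by ring
  have hpt2 : ∀ u ∈ ball (0:ℂ) (2 * k), l + u / N ∈ St (-h) h := by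
    intro u hu
    rw [mem_ball_zero_iff] at hu
    have h1 : |u.im| < 2 * k := (abs_im_le_norm u).trans_lt hu
    have h2 := abs_lt.1 h1
    have h3 : u.im / B < 1 := by
      rw [div_lt_one hB0]
      nlinarith
    have h4 : -1 ≤ u.im / B := by
      rw [le_div_iff₀ hB0]
      nlinarith
    have h5 := hdep u
    have h6 : 0 < D * (1 - u.im / B) := mul_pos hD0 (by linarith)
    have h7 : D * (1 - u.im / B) ≤ 2 * D := by nlinarith
    have h8 := hW.maj.H_le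
    refine ⟨?_, ?_⟩ <;> linarith
  have hQd := qS_diff (isOpen_St (-h) h) hE.on
  refine ⟨⟨by linarith, mul_pos hc hN, hW.cN, scN_onS hN hE.on hpt2, ?_, ?_, ?_⟩, hk, ?_, ?_, ?_, ?_,
    ?_⟩
  · intro x _
    change Y.Q (l + x / N) / (N:ℂ) ^ 2 * ((c * N : ℝ) : ℂ) ^ 2 = (c:ℂ) ^ 2 * Y.Q (l + x / N)
    rw [ofReal_mul]
    field_simp
  · intro x hx
    have h2 : AnalyticAt ℂ Y.Q (l + x / N) :=
      (hQd.analyticOnNhd (isOpen_St (-h) h)) _ (hpt2 x hx)
    have h3 : AnalyticAt ℂ (fun x : ℂ => l + x / N) x := by fun_prop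
    exact analyticAt_const.mul (AnalyticAt.fun_comp (g := Y.Q) (f := fun x : ℂ => l + x / N) h2 h3)
  · intro x hx
    refine hW.app x ?_
    rw [mem_ball_zero_iff] at hx
    exact hx.le
  · intro p hp
    have h1 : AnalyticAt ℂ M (l + p.1 / N, (c:ℂ) * p.2) := hM.an _ (hzn p hp)
    have h2 : AnalyticAt ℂ (fun p : ℂ × ℂ => (l + p.1 / N, (c:ℂ) * p.2)) p := by
      refine AnalyticAt.prod ?_ ?_
      · exact analyticAt_const.add (analyticAt_fst.div analyticAt_const hN')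
      · exact analyticAt_const.mul analyticAt_snd
    have h3 : AnalyticAt ℂ (fun p : ℂ × ℂ => M (l + p.1 / N, (c:ℂ) * p.2)) p :=
      AnalyticAt.comp (g := M) (f := fun p : ℂ × ℂ => (l + p.1 / N, (c:ℂ) * p.2)) h1 h2
    exact analyticAt_const.mul (h3.sub analyticAt_const)
  · intro u hu
    obtain ⟨h4, h5, -⟩ := hpt u hu
    change (N:ℂ) * (M (l + u / N, (c:ℂ) * 0) - l) = u
    rw [mul_zero, hM.zero _ h4 h5, add_sub_cancel_left]
    field_simp
  · intro p hp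
    change (N:ℂ) * (M (l + p.1 / N, (c:ℂ) * -p.2) - l) = (N:ℂ) * (M (l + p.1 / N, (c:ℂ) * p.2) - l)
    rw [mul_neg]
    rw [hM.even _ (hzn p hp)]
  · intro u γ h1 h2 h3
    rw [scN_node hN]
    have e1 : ∀ m : ℂ, l + (N:ℂ) * (m - l) / N = m := by
      intro m
      rw [mul_div_cancel_left₀ _ hN']
      ring
    have e2 : l + (u + ((c * N : ℝ) : ℂ) * γ) / N = (l + u / N) + (c:ℂ) * γ := by
      rw [ofReal_mul]
      field_simp
      ring
    have e3 : l + (u - ((c * N : ℝ) : ℂ) * γ) / N = (l + u / N) - (c:ℂ) * γ := by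
      rw [ofReal_mul]
      field_simp
      ring
    change Y.node (l + (N:ℂ) * (M (l + u / N, (c:ℂ) * γ) - l) / N)
      (l + (N:ℂ) * (M (l + (u + ((c * N : ℝ) : ℂ) * γ) / N, (c:ℂ) * γ) - l) / N)
      (l + (N:ℂ) * (M (l + (u - ((c * N : ℝ) : ℂ) * γ) / N, (c:ℂ) * γ) - l) / N)
    rw [e1, e1, e1, e2, e3]
    have h2' := hzn _ h2
    have h3' := hzn _ h3
    simp only [e2] at h2'
    simp only [e3] at h3'
    exact hM.node _ _ (hzn _ h1) h2' h3'
  · intro p hp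
    obtain ⟨h4, h5, h6, h7⟩ := hpt p.1 hp.1
    have h8 := hM.bd _ (hzn p hp)
    change ‖M (l + p.1 / N, (c:ℂ) * p.2) - (l + p.1 / N)‖ ≤ 400 * (H - (l + p.1 / N).im) / B at h8
    rw [hdep] at h8
    have h9 : (N:ℂ) * (M (l + p.1 / N, (c:ℂ) * p.2) - l) - p.1 =
        N * (M (l + p.1 / N, (c:ℂ) * p.2) - (l + p.1 / N)) := by
      field_simp
      ring
    change ‖(N:ℂ) * (M (l + p.1 / N, (c:ℂ) * p.2) - l) - p.1‖ ≤ 800
    rw [h9, norm_mul, norm_real, Real.norm_of_nonneg hN.le]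
    calc N * ‖M (l + p.1 / N, (c:ℂ) * p.2) - (l + p.1 / N)‖
        ≤ N * (400 * (D * (1 - p.1.im / B)) / B) := mul_le_mul_of_nonneg_left h8 hN.le
      _ = 400 * (1 - p.1.im / B) := by
          rw [hNe]
          field_simp
      _ ≤ 800 := by linarith

end Pool.Agent.MP_ae5b4e_an_NF
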