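import Pool.Agent.Lib.MP_ae5b4e_an_NF.MzBS

/-!
# MP_ae5b4e_an, project NF: the label in the zone (finite height)
-/

noncomputable section

namespace Pool.Agent.MP_ae5b4e_an_NF

open Complex Set Filter Topology Metric
open Pool.Agent.MP_ae5b4e_an_NBT (St)
open Pool.Agent.MP_ae5b4e_an_NB2 (Sys)
open Pool.Agent.MP_ae5b4e_an_NB5 (Bs Zn Mz ZL)
open scoped ComplexConjugate

/-- a label with the bound of the zone has its values in the strip -/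
theorem mem_St_of_bd {T H : ℝ} {B : ℕ} (hB : 1000 ≤ B) (hHT : H ≤ T) {t l : ℂ} (h1 : 0 < t.im)
    (h2 : t.im < H) (h3 : ‖l - t‖ ≤ 400 * (H - t.im) / B) : l ∈ St (-T) T := by
  have hB' : (1000:ℝ) ≤ B := by exact_mod_cast hB
  have hB0 : (0:ℝ) < B := by linarith
  have h4 : 400 * (H - t.im) / B ≤ 2 / 5 * (H - t.im) := by
    rw [div_le_iff₀ hB0]
    have : 0 < H - t.im := by linarith
    nlinarith
  have h5 := abs_le.1 ((abs_im_le_norm (l - t)).trans (h3.trans h4))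
  rw [sub_im] at h5
  exact ⟨by linarith [h5.1], by linarith [h5.2]⟩

private theorem Mz_open {κ H A : ℝ} {B : ℕ} : IsOpen (Zn κ B H A) := by
  have h1 : Continuous fun p : ℂ × ℂ => p.1.im := continuous_im.comp continuous_fst
  have h2 : Continuous fun p : ℂ × ℂ => ‖p.2‖ ^ 2 * A :=
    ((continuous_norm.comp continuous_snd).pow 2).mul continuous_const
  have h3 : Continuous fun p : ℂ × ℂ => κ * (H - p.1.im) ^ B :=
    continuous_const.mul ((continuous_const.sub h1).pow B)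
  exact (isOpen_lt continuous_const h1).inter
    ((isOpen_lt h1 continuous_const).inter (isOpen_lt h2 h3))

/-! ### the node relation -/

/-- the node function -/
private def MzN (Y : Sys) (M : ℂ × ℂ → ℂ) (p : ℂ × ℂ) : ℂ :=
  Y.c (M (p.1 + p.2, p.2)) (M p) * Y.s (M (p.1 - p.2, p.2)) (M p) +
    Y.c (M (p.1 - p.2, p.2)) (M p) * Y.s (M (p.1 + p.2, p.2)) (M p)

private def MzS (κ H A : ℝ) (B : ℕ) : Set (ℂ × ℂ) :=
  {p | p ∈ Zn κ B H A ∧ (p.1 + p.2, p.2) ∈ Zn κ B H A ∧ (p.1 - p.2, p.2) ∈ Zn κ B H A}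

private theorem MzS_open {κ H A : ℝ} {B : ℕ} : IsOpen (MzS κ H A B) := by
  have h1 : Continuous fun p : ℂ × ℂ => (p.1 + p.2, p.2) := by fun_prop
  have h2 : Continuous fun p : ℂ × ℂ => (p.1 - p.2, p.2) := by fun_prop
  exact Mz_open.inter ((Mz_open.preimage h1).inter (Mz_open.preimage h2))

private theorem Mz_seg {κ H c x : ℝ} {B : ℕ} {t w : ℂ} (hκ : 0 < κ) (h1 : 0 < t.im)
    (h2 : t.im < H) (h3 : c < κ * (H - t.im) ^ B) (h1' : 0 < (t + w).im)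
    (h2' : (t + w).im < H) (h3' : c < κ * (H - (t + w).im) ^ B) (hx0 : 0 ≤ x) (hx1 : x ≤ 1) :
    0 < (t + x * w).im ∧ (t + x * w).im < H ∧ c < κ * (H - (t + x * w).im) ^ B := by
  have e : (t + x * w).im = (1 - x) * t.im + x * (t + w).im := by
    simp only [add_im, im_ofReal_mul]
    ring
  rw [e]
  set a := t.im
  set b := (t + w).im
  refine ⟨?_, ?_, ?_⟩
  · rcases hx0.eq_or_lt with h | h
    · rw [← h]
      linarith
    · have := mul_pos h h1'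
      have := mul_nonneg (sub_nonneg.2 hx1) h1.le
      linarith
  · rcases hx0.eq_or_lt with h | h
    · rw [← h]
      linarith
    · have := mul_pos h (sub_pos.2 h2')
      have := mul_nonneg (sub_nonneg.2 hx1) (sub_pos.2 h2).le
      nlinarith
  · rcases le_total a b with h | h
    · refine h3'.trans_le ?_
      have h4 : H - b ≤ H - ((1 - x) * a + x * b) := by
        have := mul_nonneg (sub_nonneg.2 hx1) (sub_nonneg.2 h)
        nlinarith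
      have h5 : 0 ≤ H - b := by linarith
      gcongr
    · refine h3.trans_le ?_
      have h4 : H - a ≤ H - ((1 - x) * a + x * b) := by
        have := mul_nonneg hx0 (sub_nonneg.2 h)
        nlinarith
      have h5 : 0 ≤ H - a := by linarith
      gcongr

private theorem Mz_sq {A x : ℝ} {η : ℂ} (hA : 0 ≤ A) (hx0 : 0 ≤ x) (hx1 : x ≤ 1) :
    ‖(x:ℂ) * η‖ ^ 2 * A ≤ ‖η‖ ^ 2 * A := by
  rw [norm_mul, Complex.norm_of_nonneg hx0, mul_pow]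
  have h1 : x ^ 2 ≤ 1 := pow_le_one₀ hx0 hx1
  have h2 : x ^ 2 * ‖η‖ ^ 2 ≤ 1 * ‖η‖ ^ 2 := mul_le_mul_of_nonneg_right h1 (by positivity)
  rw [one_mul] at h2
  exact mul_le_mul_of_nonneg_right h2 hA

private theorem MzS_seg {κ H A x : ℝ} {B : ℕ} (hκ : 0 < κ) (hA : 0 ≤ A) {t η : ℂ}
    (h : (t, η) ∈ MzS κ H A B) (hx0 : 0 ≤ x) (hx1 : x ≤ 1) : (t, (x:ℂ) * η) ∈ MzS κ H A B := by
  obtain ⟨⟨a1, a2, a3⟩, ⟨b1, b2, b3⟩, ⟨c1, c2, c3⟩⟩ := h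
  have hsq := Mz_sq (η := η) hA hx0 hx1
  obtain ⟨d1, d2, d3⟩ := Mz_seg hκ a1 a2 a3 b1 b2 b3 hx0 hx1
  have e : t - η = t + -η := sub_eq_add_neg t η
  simp only [e] at c1 c2 c3
  obtain ⟨e1, e2, e3⟩ := Mz_seg hκ a1 a2 a3 c1 c2 c3 hx0 hx1
  have e' : t + (x:ℂ) * -η = t - (x:ℂ) * η := by ring
  rw [e'] at e1 e2 e3
  exact ⟨⟨a1, a2, hsq.trans_lt a3⟩, ⟨d1, d2, hsq.trans_lt d3⟩, ⟨e1, e2, hsq.trans_lt e3⟩⟩

private theorem MzS_zero {κ H A : ℝ} {B : ℕ} (hκ : 0 < κ) {t : ℂ} (h : t ∈ St 0 H) :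
    (t, (0:ℂ)) ∈ MzS κ H A B := by
  have h1 : (t, (0:ℂ)) ∈ Zn κ B H A := by
    refine ⟨h.1, h.2, ?_⟩
    change ‖(0:ℂ)‖ ^ 2 * A < κ * (H - t.im) ^ B
    have h2 : 0 < H - t.im := sub_pos.2 h.2
    rw [norm_zero]
    have h3 : 0 < κ * (H - t.im) ^ B := by positivity
    linarith
  refine ⟨h1, ?_, ?_⟩
  · change (t + 0, (0:ℂ)) ∈ _
    rwa [add_zero]
  · change (t - 0, (0:ℂ)) ∈ _
    rwa [sub_zero]

private theorem MzS_pre {κ H A : ℝ} {B : ℕ} (hκ : 0 < κ) (hA : 0 ≤ A) (hH : 0 < H) :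
    IsPreconnected (MzS κ H A B) := by
  have hbase : ((H / 2 : ℝ) * I : ℂ) ∈ St 0 H := by
    refine ⟨?_, ?_⟩ <;> simp <;> linarith
  refine isPreconnected_of_forall (((H / 2 : ℝ) * I : ℂ), (0:ℂ)) ?_
  rintro ⟨t, η⟩ hp
  refine ⟨(fun z : ℂ => (z, (0:ℂ))) '' St 0 H ∪ (fun x : ℝ => (t, (x:ℂ) * η)) '' Icc 0 1,
    ?_, ?_, ?_, ?_⟩
  · rintro q (⟨z, hz, rfl⟩ | ⟨x, hx, rfl⟩)
    · exact MzS_zero hκ hz
    · exact MzS_seg hκ hA hp hx.1 hx.2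
  · exact Or.inl ⟨_, hbase, rfl⟩
  · refine Or.inr ⟨1, ⟨zero_le_one, le_rfl⟩, ?_⟩
    simp
  · refine IsPreconnected.union (t, (0:ℂ)) ⟨t, ⟨hp.1.1, hp.1.2.1⟩, rfl⟩
      ⟨0, ⟨le_rfl, zero_le_one⟩, by simp⟩ ?_ ?_
    · have h1 : Convex ℝ (St 0 H) := Pool.Agent.MP_ae5b4e_an_NBT.convex_St 0 H
      exact h1.isPreconnected.image _ (by fun_prop)
    · exact isPreconnected_Icc.image _ (by fun_prop)

private theorem MzN_an {κ H A T : ℝ} {B : ℕ} {Y : Sys} {M : ℂ × ℂ → ℂ} (hY : Y.On (St (-T) T))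
    (hM : AnalyticOnNhd ℂ M (Zn κ B H A))
    (hmem : ∀ p ∈ Zn κ B H A, M p ∈ St (-T) T) : AnalyticOnNhd ℂ (MzN Y M) (MzS κ H A B) := by
  rintro p ⟨h1, h2, h3⟩
  have m1 := hmem _ h1
  have m2 := hmem _ h2
  have m3 := hmem _ h3
  have e1 : AnalyticAt ℂ M p := hM p h1
  have e2 : AnalyticAt ℂ (fun p : ℂ × ℂ => M (p.1 + p.2, p.2)) p := by
    have h4 : AnalyticAt ℂ (fun p : ℂ × ℂ => (p.1 + p.2, p.2)) p :=
      (analyticAt_fst.add analyticAt_snd).prod analyticAt_snd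
    exact AnalyticAt.fun_comp (hM _ h2) h4
  have e3 : AnalyticAt ℂ (fun p : ℂ × ℂ => M (p.1 - p.2, p.2)) p := by
    have h4 : AnalyticAt ℂ (fun p : ℂ × ℂ => (p.1 - p.2, p.2)) p :=
      (analyticAt_fst.sub analyticAt_snd).prod analyticAt_snd
    exact AnalyticAt.fun_comp (hM _ h3) h4
  have hS := Pool.Agent.MP_ae5b4e_an_NBT.isOpen_St (-T) T
  exact ((Sys.an_c hY hS e2 e1 m2 m1).mul
    (Sys.an_s hY hS e3 e1 m3 m1)).add
    ((Sys.an_c hY hS e3 e1 m3 m1).mul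
    (Sys.an_s hY hS e2 e1 m2 m1))

theorem Zn_monoS {κ κ' : ℝ} {B : ℕ} {H A : ℝ} (h : κ ≤ κ') : Zn κ B H A ⊆ Zn κ' B H A := by
  rintro p ⟨h1, h2, h3⟩
  refine ⟨h1, h2, h3.trans_le ?_⟩
  have : 0 < H - p.1.im := by linarith
  gcongr

/-- **the label in the zone**: an absolute `κ` -/
theorem exists_zoneS : ∃ κ : ℝ, 0 < κ ∧ κ ≤ 1 ∧ ∀ (b C : ℝ), 0 < b → b ≤ 1 → 1 ≤ C →
    ∃ C₁ : ℝ, 1 ≤ C₁ ∧ ∀ (Y : Sys) (T : ℝ) (L : ℂ × ℂ → ℂ), EntS Y T b C L →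
      ∀ (B : ℕ) (H A : ℝ), MajS Y T b B H A → C₁ * B * H ^ B ≤ A →
        ∃ M : ℂ × ℂ → ℂ, ZL Y b L κ 400 B H A M := by
  obtain ⟨κ, hκe⟩ : ∃ κ : ℝ, κ = 1 / 2400 := ⟨_, rfl⟩
  have hκ : 0 < κ := by rw [hκe]; norm_num
  have hκ1 : κ ≤ 1 := by rw [hκe]; norm_num
  refine ⟨κ / 4, by positivity, by linarith, fun b C hb hb1 hC => ?_⟩
  obtain ⟨C₁, h1, h2⟩ := zone_anS hb hb1 hC hκe
  obtain ⟨C₂, h1', h2'⟩ := zone_bdS hb hb1 hC hκe
  refine ⟨max C₁ C₂, h1.trans (le_max_left _ _), fun Y T L hE B H A hMaj hA => ⟨Mz L, ?_⟩⟩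
  have hbH : 8 * b ≤ H := by
    have h8 : (8:ℝ) ≤ B := by exact_mod_cast hMaj.B_ge
    exact le_trans (by gcongr) hMaj.b_ge
  have hH0 : 0 < H := by linarith
  have hA0 := hMaj.A_pos
  have hA1 : C₁ * B * H ^ B ≤ A := by
    refine le_trans ?_ hA
    have := le_max_left C₁ C₂
    gcongr
  have hA2 : C₂ * B * H ^ B ≤ A := by
    refine le_trans ?_ hA
    have := le_max_right C₁ C₂
    gcongr
  obtain ⟨han, hbase, hzero, heven⟩ := h2 Y T L hE B H A hMaj hA1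
  have hbd := h2' Y T L hE B H A hMaj hA2
  have hmem : ∀ p ∈ Zn (κ / 4) B H A, Mz L p ∈ St (-T) T := fun p hp =>
    mem_St_of_bd hMaj.B_big hMaj.H_le hp.1 hp.2.1 (hbd p hp)
  refine ⟨han, hbase, fun t _ _ => hzero t, heven, ?_, hbd⟩
  intro t η h1 h2 h3
  have hb4 : ((b / 4 : ℝ) * I : ℂ) ∈ St 0 H := by
    refine ⟨?_, ?_⟩ <;> simp <;> linarith
  have hz₀ : (((b / 4 : ℝ) * I : ℂ), (0:ℂ)) ∈ MzS (κ / 4) H A B :=
    MzS_zero (by positivity) hb4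
  have hev : MzN Y (Mz L) =ᶠ[𝓝 (((b / 4 : ℝ) * I : ℂ), (0:ℂ))] 0 := by
    have c1 : ∀ᶠ p : ℂ × ℂ in 𝓝 (((b / 4 : ℝ) * I : ℂ), (0:ℂ)), p.1.im < b / 2 := by
      refine (isOpen_lt (by fun_prop) continuous_const).mem_nhds ?_
      simp
      linarith
    have c2 : ∀ᶠ p : ℂ × ℂ in 𝓝 (((b / 4 : ℝ) * I : ℂ), (0:ℂ)), (p.1 + p.2).im < b / 2 := by
      refine (isOpen_lt (by fun_prop) continuous_const).mem_nhds ?_
      simp
      linarith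
    have c3 : ∀ᶠ p : ℂ × ℂ in 𝓝 (((b / 4 : ℝ) * I : ℂ), (0:ℂ)), (p.1 - p.2).im < b / 2 := by
      refine (isOpen_lt (by fun_prop) continuous_const).mem_nhds ?_
      simp
      linarith
    filter_upwards [MzS_open.mem_nhds hz₀, c1, c2, c3] with p hp d1 d2 d3
    obtain ⟨q1, r1⟩ := hbase p hp.1 d1
    obtain ⟨q2, r2⟩ := hbase _ hp.2.1 d2
    obtain ⟨q3, r3⟩ := hbase _ hp.2.2 d3
    change MzN Y (Mz L) p = 0
    unfold MzN
    rw [r1, r2, r3]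
    exact hE.node p.1 p.2 q1 q2 q3
  have h4 := (MzN_an hE.on han hmem).eqOn_zero_of_preconnected_of_eventuallyEq_zero
    (MzS_pre (by positivity) hA0.le hH0) hz₀ hev (x := (t, η)) ⟨h1, h2, h3⟩
  exact h4

end Pool.Agent.MP_ae5b4e_an_NF
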