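import Pool.Agent.Lib.MP_ae5b4e_an_NB5.Defs

/-!
# MP_ae5b4e_an, project NF (NB_5 for a strip of finite height): definitions

The machine of NB_5(A) for a strip of finite height `h`: `Y` is a fundamental system on the strip
`|Im| < h`, `L` the label near the real line, `B` a fixed large exponent, `H < h`, `A` the maximum of
`‖Q‖ (H - |Im|) ^ B`.
-/

noncomputable section

namespace Pool.Agent.MP_ae5b4e_an_NF

open Complex Set Filter Topology Metric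
open Pool.Agent.MP_ae5b4e_an_NBT (St)
open Pool.Agent.MP_ae5b4e_an_NB2 (Sys)
open Pool.Agent.MP_ae5b4e_an_NB5 (Bs Zn)
open scoped ComplexConjugate

/-- the label near the real line, for a potential on the strip of height `h` -/
structure EntS (Y : Sys) (h b C : ℝ) (L : ℂ × ℂ → ℂ) : Prop where
  b_pos : 0 < b
  b_le : b ≤ 1
  b_h : b < h
  C_one : 1 ≤ C
  on : Y.On (St (-h) h)
  qper : ∀ z ∈ St (-h) h, Y.Q (z + 1) = Y.Q z
  qre : ∀ z ∈ St (-h) h, Y.Q (conj z) = conj (Y.Q z)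
  an : AnalyticOnNhd ℂ L (Bs b)
  zero : ∀ t ∈ St (-b) b, L (t, 0) = t
  even : ∀ p ∈ Bs b, L (p.1, -p.2) = L p
  per : ∀ p ∈ Bs b, L (p.1 + 1, p.2) = L p + 1
  node : ∀ t η : ℂ, (t, η) ∈ Bs b → (t + η, η) ∈ Bs b → (t - η, η) ∈ Bs b →
    Y.node (L (t, η)) (L (t + η, η)) (L (t - η, η))
  bd : ∀ p ∈ Bs b, ‖L p - p.1‖ ≤ C * ‖p.2‖ ^ 2

/-- the majorant of the potential on the strip of height `H ≤ h` -/
structure MajS (Y : Sys) (h b : ℝ) (B : ℕ) (H A : ℝ) : Prop where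
  B_ge : 8 ≤ B
  B_big : 1000 ≤ B
  b_ge : (B:ℝ) * b ≤ H
  H_le : H ≤ h
  A_pos : 0 < A
  bd : ∀ l : ℂ, |l.im| < H → ‖Y.Q l‖ * (H - |l.im|) ^ B ≤ A

/-- a window: near `l` the potential is `c ^ (-2) exp (- i z)`, `z = N (t - l)` -/
structure WdS (Y : Sys) (h b : ℝ) (B : ℕ) (H A : ℝ) (l : ℂ) (c N k δ : ℝ) : Prop where
  maj : MajS Y h b B H A
  im : H / 2 < l.im
  im' : l.im < H
  N_eq : N = B / (H - l.im)
  c_pos : 0 < c
  c_le : c ≤ δ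
  cN : c * N ≤ δ
  Ac : A * c ^ 2 = (H - l.im) ^ B
  k_pos : 1 ≤ k
  k_le : 4 * k ^ 2 ≤ B
  app : ∀ z : ℂ, ‖z‖ ≤ k → ‖(c:ℂ) ^ 2 * Y.Q (l + z / N) - exp (-(I * z))‖ ≤ δ

theorem EntS.mono {Y : Sys} {h b b' C : ℝ} {L : ℂ × ℂ → ℂ} (hE : EntS Y h b C L) (h0 : 0 < b')
    (hb : b' ≤ b) : EntS Y h b' C L := by
  have hm : Bs b' ⊆ Bs b := by
    rintro p ⟨⟨h1, h2⟩, h3⟩
    exact ⟨⟨by linarith, by linarith⟩, ball_subset_ball hb h3⟩
  have hs : ∀ t ∈ St (-b') b', t ∈ St (-b) b := by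
    rintro t ⟨h1, h2⟩
    exact ⟨by linarith, by linarith⟩
  exact ⟨h0, hb.trans hE.b_le, hb.trans_lt hE.b_h, hE.C_one, hE.on, hE.qper, hE.qre,
    hE.an.mono hm, fun t ht => hE.zero t (hs t ht), fun p hp => hE.even p (hm hp),
    fun p hp => hE.per p (hm hp), fun t η h1 h2 h3 => hE.node t η (hm h1) (hm h2) (hm h3),
    fun p hp => hE.bd p (hm hp)⟩

end Pool.Agent.MP_ae5b4e_an_NF
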