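import Pool.Agent.Lib.MP_ae5b4e_an_NB4H.PerY
import Pool.Agent.Lib.MP_ae5b4e_an_NB1B.Lab0
import Pool.Agent.Lib.MP_ae5b4e_an_NF.RokS

/-!
# MP_ae5b4e_an, project NF: the label near the real line for a strip of finite height
-/

noncomputable section

namespace Pool.Agent.MP_ae5b4e_an_NF

open Complex Set Filter Topology Metric
open Pool.Agent.MP_ae5b4e_an_NBT
open Pool.Agent.MP_ae5b4e_an_NB2 (Sys)
open Pool.Agent.MP_ae5b4e_an_NB4H (SysOf per_of)
open Pool.Agent.MP_ae5b4e_an_NB5 (Bs)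
open scoped ComplexConjugate

variable {k : ℂ → ℂ} {F G : ℂ × ℂ → ℂ} {c h : ℝ} {Y : Sys}

/-- the potential is determined by the square of a solution, up to a constant -/
private theorem SetS_pot {U : Set ℂ} (hU : IsOpen U) {u u' P v v' Q : ℂ → ℂ} {ε : ℂ}
    (hu : ∀ z ∈ U, HasDerivAt u (u' z) z) (hu' : ∀ z ∈ U, HasDerivAt u' (-(P z * u z)) z)
    (hv : ∀ z ∈ U, HasDerivAt v (v' z) z) (hv' : ∀ z ∈ U, HasDerivAt v' (-(Q z * v z)) z)
    (hε : ε ≠ 0) (h : ∀ z ∈ U, u z * u z = ε * (v z * v z)) (h0 : ∀ z ∈ U, v z ≠ 0) :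
    ∀ z ∈ U, P z = Q z := by
  have h1 : ∀ z ∈ U, u z * u' z = ε * (v z * v' z) := by
    intro z hz
    have e1 : HasDerivAt (fun z => u z * u z) (u' z * u z + u z * u' z) z :=
      (hu z hz).fun_mul (hu z hz)
    have e2 : HasDerivAt (fun z => ε * (v z * v z)) (ε * (v' z * v z + v z * v' z)) z :=
      ((hv z hz).fun_mul (hv z hz)).const_mul ε
    have e3 : (fun z => u z * u z) =ᶠ[𝓝 z] fun z => ε * (v z * v z) := by
      filter_upwards [hU.mem_nhds hz] with w hw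
      exact h w hw
    have e4 := (e1.congr_of_eventuallyEq e3.symm).unique e2
    linear_combination e4 / 2
  intro z hz
  have e1 : HasDerivAt (fun z => u z * u' z) (u' z * u' z + u z * (-(P z * u z))) z :=
    (hu z hz).fun_mul (hu' z hz)
  have e2 : HasDerivAt (fun z => ε * (v z * v' z))
      (ε * (v' z * v' z + v z * (-(Q z * v z)))) z :=
    ((hv z hz).fun_mul (hv' z hz)).const_mul ε
  have e3 : (fun z => u z * u' z) =ᶠ[𝓝 z] fun z => ε * (v z * v' z) := by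
    filter_upwards [hU.mem_nhds hz] with w hw
    exact h1 w hw
  have e4 := (e1.congr_of_eventuallyEq e3.symm).unique e2
  have a1 := h z hz
  have a2 := h1 z hz
  have a0 := h0 z hz
  have e5 : ε * (v z * v z) * (u' z * u' z - ε * (v' z * v' z)) = 0 := by
    linear_combination (u z * u' z + ε * (v z * v' z)) * a2 - (u' z * u' z) * a1
  have e6 : u' z * u' z = ε * (v' z * v' z) := by
    have : ε * (v z * v z) ≠ 0 := mul_ne_zero hε (mul_ne_zero a0 a0)
    exact sub_eq_zero.1 ((mul_eq_zero.1 e5).resolve_left this)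
  have e7 : ε * (v z * v z) * (P z - Q z) = 0 := by
    linear_combination (-1 : ℂ) * e4 + e6 - P z * a1
  have : ε * (v z * v z) ≠ 0 := mul_ne_zero hε (mul_ne_zero a0 a0)
  exact sub_eq_zero.1 ((mul_eq_zero.1 e7).resolve_left this)

/-- analytic functions on the strip which agree on a smaller strip -/
private theorem SetS_ident {g₁ g₂ : ℂ → ℂ} {h : ℝ} (h₁ : AnalyticOnNhd ℂ g₁ (St (-h) h))
    (h₂ : AnalyticOnNhd ℂ g₂ (St (-h) h)) {c : ℝ} (hc : 0 < c) (hch : c < h)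
    (hg : ∀ z ∈ St (-c) c, g₁ z = g₂ z) : ∀ z ∈ St (-h) h, g₁ z = g₂ z := by
  have h0 : (0:ℂ) ∈ St (-c) c := by
    rw [mem_St]
    simpa using hc
  have h0' : (0:ℂ) ∈ St (-h) h := by
    rw [mem_St]
    simpa using hc.trans hch
  refine h₁.eqOn_of_preconnected_of_eventuallyEq h₂ (convex_St (-h) h).isPreconnected h0' ?_
  filter_upwards [(isOpen_St (-c) c).mem_nhds h0] with w hw
  exact hg w hw

/-- `Y` is a fundamental system of `F (·, 0)` on the strip of height `c` -/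
theorem con_fS (hN : ConE k F c h G) (hY : SysOf Y G h) (t : ℂ) (ht : |t.im| < c) :
    Y.y1 t ≠ 0 ∧ F (t, 0) = Y.y2 t / Y.y1 t := by
  have hc : 0 < c := hN.pos
  have hch := hN.hc
  have hsub : ∀ s ∈ St (-c) c, s ∈ St (-h) h := fun s hs => ⟨by linarith [hs.1], by linarith [hs.2]⟩
  have htS : t ∈ St (-c) c := abs_lt.1 ht
  have hsl : ∀ s ∈ St (-c) c, sl G 0 s = F (s, 0) := by
    intro s hs
    exact nfM_eq (hN.an _ (show ((s, 0) : ℂ × ℂ) ∈ St (-c) c ×ˢ ball (0:ℂ) c from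
      ⟨hs, mem_ball_self hc⟩)) (hN.eqG _ ⟨hs, mem_ball_self (by positivity)⟩)
  have d1 := hY.1.d1 t (hsub t htS)
  have d2 := hY.1.d2 t (hsub t htS)
  have hwr := hY.1.wr t (hsub t htS)
  have a1 : AnalyticAt ℂ Y.y1 t := Sys.an_y1 hY.1 (isOpen_St _ _) t (hsub t htS)
  have h2 : ∀ᶠ s in 𝓝[≠] t, Y.y1 s ≠ 0 := by
    rcases a1.eventually_eq_zero_or_eventually_ne_zero with h | h
    · exfalso
      have e1 : Y.y1 t = 0 := h.self_of_nhds
      have e2 : HasDerivAt Y.y1 0 t :=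
        (hasDerivAt_const t (0:ℂ)).congr_of_eventuallyEq h
      have e3 : Y.y1' t = 0 := d1.unique e2
      rw [e1, e3, zero_mul, zero_mul, sub_zero] at hwr
      exact zero_ne_one hwr
    · exact h
  have h3 : (fun s => F (s, 0) * Y.y1 s) =ᶠ[𝓝[≠] t] Y.y2 := by
    have h1 : St (-c) c ∈ 𝓝[≠] t := nhdsWithin_le_nhds ((isOpen_St _ _).mem_nhds htS)
    filter_upwards [h1, h2] with s e1 e2
    rw [← hsl s e1, (hY.2 s (hsub s e1)).1 e2, div_mul_cancel₀ _ e2]
  have a2 : ContinuousAt (fun s => F (s, 0)) t := by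
    have hmem : ((t, 0) : ℂ × ℂ) ∈ St (-c) c ×ˢ ball (0:ℂ) c := ⟨htS, mem_ball_self hc⟩
    have := (hN.an _ hmem).continuousAt
    exact ContinuousAt.comp (g := F) (f := fun s : ℂ => (s, (0:ℂ))) this (by fun_prop)
  have h4 : F (t, 0) * Y.y1 t = Y.y2 t := by
    have e1 : Tendsto (fun s => F (s, 0) * Y.y1 s) (𝓝[≠] t) (𝓝 (F (t, 0) * Y.y1 t)) :=
      (a2.mul d1.continuousAt).tendsto.mono_left nhdsWithin_le_nhds
    have e2 : Tendsto Y.y2 (𝓝[≠] t) (𝓝 (Y.y2 t)) :=
      d2.continuousAt.tendsto.mono_left nhdsWithin_le_nhds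
    exact tendsto_nhds_unique (e1.congr' h3) e2
  have h5 : Y.y1 t ≠ 0 := by
    intro h
    rw [h, mul_zero] at h4
    rw [h, ← h4, zero_mul, mul_zero, sub_zero] at hwr
    exact zero_ne_one hwr
  exact ⟨h5, by rw [← h4, mul_div_cancel_right₀ _ h5]⟩

/-- the potential has period one -/
theorem q_perS (hN : ConE k F c h G) (hY : SysOf Y G h) (z : ℂ) (hz : z ∈ St (-h) h) :
    Y.Q (z + 1) = Y.Q z := by
  obtain ⟨ε, hε, H⟩ := (per_of hN hY).ex
  have hz1 : z + 1 ∈ St (-h) h := ⟨by simpa using hz.1, by simpa using hz.2⟩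
  have hε0 : ε ≠ 0 := by
    intro h0
    rw [h0] at hε
    norm_num at hε
  have key : ∀ {y y' : ℂ → ℂ}, (∀ w ∈ St (-h) h, HasDerivAt y' (-(Y.Q w * y w)) w) →
      (∀ w ∈ St (-h) h, y' (w + 1) = ε * y' w) → y (z + 1) = ε * y z →
      (Y.Q (z + 1) - Y.Q z) * y z = 0 := by
    intro y y' hd hp hy
    have e1 : HasDerivAt (fun w => y' (w + 1)) (-(Y.Q (z + 1) * y (z + 1))) z :=
      (hd _ hz1).comp_add_const z 1
    have e2 : HasDerivAt (fun w => ε * y' w) (ε * (-(Y.Q z * y z))) z := (hd z hz).const_mul ε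
    have e3 : (fun w => y' (w + 1)) =ᶠ[𝓝 z] fun w => ε * y' w := by
      filter_upwards [(isOpen_St (-h) h).mem_nhds hz] with w hw
      exact hp w hw
    have e4 := (e1.congr_of_eventuallyEq e3.symm).unique e2
    rw [hy] at e4
    have e5 : ε * ((Y.Q (z + 1) - Y.Q z) * y z) = 0 := by linear_combination -e4
    exact (mul_eq_zero.1 e5).resolve_left hε0
  have k1 := key hY.1.d1' (fun w hw => (H w hw).2.2.1) (H z hz).1
  have k2 := key hY.1.d2' (fun w hw => (H w hw).2.2.2) (H z hz).2.1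
  have hw := hY.1.wr z hz
  have : Y.Q (z + 1) - Y.Q z = 0 := by
    linear_combination (Y.y2' z) * k1 - (Y.y1' z) * k2 - (Y.Q (z + 1) - Y.Q z) * hw
  exact sub_eq_zero.1 this

/-- the derivative of the quotient -/
private theorem SetS_quot {Y : Sys} {t : ℂ} {S : Set ℂ} (hY : Y.On S) (htS : t ∈ S)
    (ht : Y.y1 t ≠ 0) :
    HasDerivAt (fun t => Y.y2 t / Y.y1 t) ((Y.y1 t * Y.y1 t)⁻¹) t := by
  have h1 := (hY.d2 t htS).div (hY.d1 t htS) ht
  have hwr := hY.wr t htS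
  convert! h1 using 1
  rw [eq_div_iff (pow_ne_zero 2 ht)]
  field_simp
  linear_combination (-1 : ℂ) * hwr

/-- the potential is real on the real line -/
theorem q_reS (hN : ConE k F c h G) (hY : SysOf Y G h) (z : ℂ) (hz : z ∈ St (-h) h) :
    Y.Q (conj z) = conj (Y.Q z) := by
  have hc : 0 < c := hN.pos
  have hch := hN.hc
  have hsub : ∀ s ∈ St (-c) c, s ∈ St (-h) h := fun s hs => ⟨by linarith [hs.1], by linarith [hs.2]⟩
  have hSc : ∀ {r : ℝ}, ∀ t ∈ St (-r) r, conj t ∈ St (-r) r := by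
    intro r t ht
    rw [mem_St] at ht ⊢
    rw [conj_im]
    constructor <;> linarith [ht.1, ht.2]
  have hcf : ∀ t ∈ St (-c) c, Y.y1 t ≠ 0 ∧ F (t, 0) = Y.y2 t / Y.y1 t := fun t ht =>
    con_fS hN hY t (abs_lt.2 ht)
  have hrefl : ∀ t ∈ St (-c) c, Y.y2 t * conj (Y.y2 (conj t)) =
      Y.y1 t * conj (Y.y1 (conj t)) := by
    intro t ht
    have h2 := hN.refl (conj t, 0) ⟨hSc t ht, mem_ball_self hc⟩
    simp only [conj_conj, map_zero] at h2
    rw [(hcf t ht).2, (hcf _ (hSc t ht)).2, map_div₀] at h2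
    have h3 := (hcf t ht).1
    have h4 : conj (Y.y1 (conj t)) ≠ 0 := by
      rw [Ne, map_eq_zero]
      exact (hcf _ (hSc t ht)).1
    rw [div_mul_div_comm, div_eq_one_iff_eq (mul_ne_zero h3 h4)] at h2
    exact h2
  have hcd : ∀ {y y' : ℂ → ℂ} (t : ℂ), HasDerivAt y (y' (conj t)) (conj t) →
      HasDerivAt (fun t => conj (y (conj t))) (conj (y' (conj t))) t := by
    intro y y' t h
    have h1 := h.conj_conj
    rw [conj_conj] at h1
    exact h1
  have h0 : ∀ t ∈ St (-c) c, Y.y2 t ≠ 0 := by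
    intro t ht h
    have h1 := hrefl t ht
    rw [h, zero_mul] at h1
    have h4 : conj (Y.y1 (conj t)) ≠ 0 := by
      rw [Ne, map_eq_zero]
      exact (hcf _ (hSc t ht)).1
    exact mul_ne_zero (hcf t ht).1 h4 h1.symm
  have h0' : ∀ t ∈ St (-c) c, conj (Y.y2 (conj t)) ≠ 0 := by
    intro t ht
    rw [Ne, map_eq_zero]
    exact h0 _ (hSc t ht)
  have h1 : ∀ t ∈ St (-c) c, Y.y2 t / Y.y1 t = conj (Y.y1 (conj t)) / conj (Y.y2 (conj t)) := by
    intro t ht
    rw [div_eq_div_iff (hcf t ht).1 (h0' t ht), hrefl t ht]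
    ring
  have h2 : ∀ t ∈ St (-c) c, conj (Y.y2 (conj t)) * conj (Y.y2 (conj t)) =
      (-1) * (Y.y1 t * Y.y1 t) := by
    intro t ht
    have d1 := hcd (y := Y.y1) (y' := Y.y1') t (hY.1.d1 _ (hsub _ (hSc t ht)))
    have d2 := hcd (y := Y.y2) (y' := Y.y2') t (hY.1.d2 _ (hsub _ (hSc t ht)))
    have e1 := d1.fun_div d2 (h0' t ht)
    have e2 := SetS_quot hY.1 (hsub t ht) (hcf t ht).1
    have e3 : (fun t => Y.y2 t / Y.y1 t) =ᶠ[𝓝 t]
        fun t => conj (Y.y1 (conj t)) / conj (Y.y2 (conj t)) := by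
      filter_upwards [(isOpen_St (-c) c).mem_nhds ht] with w hw
      exact h1 w hw
    have e4 := (e2.congr_of_eventuallyEq e3.symm).unique e1
    have hwr := congrArg conj (hY.1.wr (conj t) (hsub _ (hSc t ht)))
    simp only [map_sub, map_mul, map_one] at hwr
    have a1 := (hcf t ht).1
    have a2 := h0' t ht
    rw [eq_div_iff (pow_ne_zero 2 a2), inv_mul_eq_div, div_eq_iff (mul_ne_zero a1 a1)] at e4
    linear_combination e4 - (Y.y1 t * Y.y1 t) * hwr
  have hQ : AnalyticOnNhd ℂ (fun z => conj (Y.Q (conj z))) (St (-h) h) := by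
    refine DifferentiableOn.analyticOnNhd (fun z hz => ?_) (isOpen_St _ _)
    have h3 := ((Q_anS hY.1) (conj z) (hSc z hz)).differentiableAt.conj_conj
    rw [conj_conj] at h3
    exact h3.differentiableWithinAt
  have key := SetS_ident (g₁ := fun z => conj (Y.Q (conj z))) (g₂ := Y.Q) hQ (Q_anS hY.1)
    hc hch ?_ z hz
  · rw [← key, conj_conj]
  · refine SetS_pot (isOpen_St (-c) c) (u := fun t => conj (Y.y2 (conj t)))
      (u' := fun t => conj (Y.y2' (conj t)))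
      (P := fun t => conj (Y.Q (conj t))) (v := Y.y1) (v' := Y.y1') (Q := Y.Q)
      (fun t ht => hcd t (hY.1.d2 _ (hsub _ (hSc t ht)))) (fun t ht => ?_)
      (fun t ht => hY.1.d1 t (hsub t ht)) (fun t ht => hY.1.d1' t (hsub t ht))
      (neg_ne_zero.2 one_ne_zero) h2 fun t ht => (hcf t ht).1
    have h3 := hcd (y := Y.y2') (y' := fun w => -(Y.Q w * Y.y2 w)) t
      (hY.1.d2' _ (hsub _ (hSc t ht)))
    simpa only [map_neg, map_mul] using h3

/-- the Wronskian step: the algebra of the node relation -/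
private lemma SetS_alg {Y : Sys} {l u v : ℂ} (hw : Y.y1 l * Y.y2' l - Y.y1' l * Y.y2 l = 1)
    (hl : Y.y1 l ≠ 0) (hu : Y.y1 u ≠ 0) (hv : Y.y1 v ≠ 0) (hsu : Y.s u l ≠ 0) (hsv : Y.s v l ≠ 0)
    (h : (Y.y2 u / Y.y1 u - Y.y2 l / Y.y1 l)⁻¹ + (Y.y2 v / Y.y1 v - Y.y2 l / Y.y1 l)⁻¹ =
      2 * Y.y1' l * Y.y1 l) : Y.c u l * Y.s v l + Y.c v l * Y.s u l = 0 := by
  have e1 : (Y.y2 u / Y.y1 u - Y.y2 l / Y.y1 l)⁻¹ = Y.y1 u * Y.y1 l / Y.s u l := by
    have : Y.y2 u / Y.y1 u - Y.y2 l / Y.y1 l = Y.s u l / (Y.y1 u * Y.y1 l) := by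
      unfold Sys.s
      field_simp
    rw [this, inv_div]
  have e2 : (Y.y2 v / Y.y1 v - Y.y2 l / Y.y1 l)⁻¹ = Y.y1 v * Y.y1 l / Y.s v l := by
    have : Y.y2 v / Y.y1 v - Y.y2 l / Y.y1 l = Y.s v l / (Y.y1 v * Y.y1 l) := by
      unfold Sys.s
      field_simp
    rw [this, inv_div]
  rw [e1, e2, div_add_div _ _ hsu hsv, div_eq_iff (mul_ne_zero hsu hsv)] at h
  have e3 : Y.y1 u = Y.y1 l * Y.c u l + Y.y1' l * Y.s u l := by
    unfold Sys.c Sys.s
    linear_combination (-Y.y1 u) * hw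
  have e4 : Y.y1 v = Y.y1 l * Y.c v l + Y.y1' l * Y.s v l := by
    unfold Sys.c Sys.s
    linear_combination (-Y.y1 v) * hw
  have e5 : Y.y1 l * Y.y1 l * (Y.c u l * Y.s v l + Y.c v l * Y.s u l) = 0 := by
    have e6 : (Y.y1 l * Y.c u l + Y.y1' l * Y.s u l) * Y.y1 l * Y.s v l +
        Y.s u l * ((Y.y1 l * Y.c v l + Y.y1' l * Y.s v l) * Y.y1 l) =
        2 * Y.y1' l * Y.y1 l * (Y.s u l * Y.s v l) := by
      rw [← e3, ← e4]
      exact h
    linear_combination e6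
  exact (mul_eq_zero.1 e5).resolve_left (mul_ne_zero hl hl)

/-- the potential of the field of involutions in terms of the fundamental system -/
private lemma SetS_k (hN : ConE k F c h G) (hY : SysOf Y G h) (l : ℂ) (hl : |l.im| < c) :
    k (F (l, 0)) = 2 * Y.y1' l * Y.y1 l := by
  have hch := hN.hc
  have hst : ∀ w : ℂ, |w.im| < c → w ∈ St (-h) h := fun w hw => abs_lt.1 (hw.trans hch)
  have hS : IsOpen {t : ℂ | |t.im| < c} := isOpen_lt (by fun_prop) continuous_const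
  have hev : ∀ w : ℂ, |w.im| < c → ∀ᶠ x in 𝓝 w, |x.im| < c := fun w hw => hS.mem_nhds hw
  have hd : ∀ w : ℂ, |w.im| < c → HasDerivAt (fun s => F (s, 0)) ((Y.y1 w ^ 2)⁻¹) w := by
    intro w hw
    have hw0 := (con_fS hN hY w hw).1
    have h6 := (hY.1.d2 w (hst w hw)).div (hY.1.d1 w (hst w hw)) hw0
    have h7 : (Y.y2' w * Y.y1 w - Y.y2 w * Y.y1' w) / Y.y1 w ^ 2 = (Y.y1 w ^ 2)⁻¹ := by
      have := hY.1.wr w (hst w hw)
      rw [div_eq_mul_inv]
      have h8 : Y.y2' w * Y.y1 w - Y.y2 w * Y.y1' w = 1 := by linear_combination this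
      rw [h8, one_mul]
    rw [h7] at h6
    refine h6.congr_of_eventuallyEq ?_
    filter_upwards [hev w hw] with x hx
    exact (con_fS hN hY x hx).2
  have hl0 := (con_fS hN hY l hl).1
  have h6 : deriv (fun s => F (s, 0)) l = (Y.y1 l ^ 2)⁻¹ := (hd l hl).deriv
  have h7 : deriv (deriv (fun s => F (s, 0))) l =
      -(2 * Y.y1 l * Y.y1' l) / (Y.y1 l ^ 2) ^ 2 := by
    have h8 : HasDerivAt (fun w => (Y.y1 w ^ 2)⁻¹)
        (-(2 * Y.y1 l * Y.y1' l) / (Y.y1 l ^ 2) ^ 2) l := by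
      have h9 := ((hY.1.d1 l (hst l hl)).pow 2).inv (pow_ne_zero 2 hl0)
      have h10 : -(((2:ℕ) : ℂ) * Y.y1 l ^ (2 - 1) * Y.y1' l) / (Y.y1 l ^ 2) ^ 2 =
          -(2 * Y.y1 l * Y.y1' l) / (Y.y1 l ^ 2) ^ 2 := by norm_num
      rw [← h10]
      exact h9
    have h11 : deriv (fun s => F (s, 0)) =ᶠ[𝓝 l] fun w => (Y.y1 w ^ 2)⁻¹ := by
      filter_upwards [hev l hl] with w hw
      exact (hd w hw).deriv
    exact (h8.congr_of_eventuallyEq h11).deriv
  have ho := (hN.toDat.ode (t := l) (abs_lt.1 hl)).2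
  rw [ho, h6, h7]
  field_simp

/-- an even analytic function which vanishes at `0` has a double zero -/
private lemma SetS_schwarz {φ : ℂ → ℂ} {r M : ℝ} (hr : 0 < r) (hM : 0 ≤ M)
    (hφ : DifferentiableOn ℂ φ (ball 0 r)) (h0 : φ 0 = 0) (hev : ∀ z ∈ ball (0:ℂ) r, φ (-z) = φ z)
    (hb : ∀ z ∈ ball (0:ℂ) r, ‖φ z‖ ≤ M) {z : ℂ} (hz : z ∈ ball (0:ℂ) r) :
    ‖φ z‖ ≤ ((M + 1) / r + 1) / r * ‖z‖ ^ 2 := by
  have hmem : ball (0:ℂ) r ∈ 𝓝 (0:ℂ) := ball_mem_nhds 0 hr
  have h1 : ∀ z ∈ ball (0:ℂ) r, ‖dslope φ 0 z‖ ≤ (M + 1) / r := by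
    intro z hz
    refine Complex.norm_dslope_le_div_of_mapsTo_ball hφ ?_ hz
    intro w hw
    rw [h0, mem_closedBall_zero_iff]
    exact (hb w hw).trans (by linarith)
  have hd1 : DifferentiableOn ℂ (dslope φ 0) (ball 0 r) :=
    (Complex.differentiableOn_dslope hmem).2 hφ
  have h2 : dslope φ 0 0 = 0 := by
    rw [dslope_same]
    have e1 : HasDerivAt φ (deriv φ 0) 0 := (hφ.differentiableAt hmem).hasDerivAt
    have e2 : HasDerivAt (fun z => φ (-z)) (-(deriv φ 0)) 0 := by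
      have e3 : HasDerivAt (fun z : ℂ => -z) (-1) 0 := hasDerivAt_neg 0
      have e4 : HasDerivAt φ (deriv φ 0) ((fun z : ℂ => -z) 0) := by simpa using e1
      have e5 := e4.comp (0:ℂ) e3
      rw [mul_neg_one] at e5
      exact e5
    have e6 : HasDerivAt φ (-(deriv φ 0)) 0 := by
      refine e2.congr_of_eventuallyEq ?_
      filter_upwards [hmem] with z hz
      exact (hev z hz).symm
    have e7 := e1.unique e6
    have e8 : deriv φ 0 + deriv φ 0 = 0 := by
      nth_rewrite 1 [e7]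
      ring
    have e9 : 2 * deriv φ 0 = 0 := by linear_combination e8
    exact (mul_eq_zero.1 e9).resolve_left two_ne_zero
  have h3 : ‖dslope (dslope φ 0) 0 z‖ ≤ ((M + 1) / r + 1) / r := by
    refine Complex.norm_dslope_le_div_of_mapsTo_ball hd1 ?_ hz
    intro w hw
    rw [h2, mem_closedBall_zero_iff]
    exact (h1 w hw).trans (by linarith)
  have e1 : φ z = z * dslope φ 0 z := by
    have := sub_smul_dslope φ 0 z
    rw [h0, sub_zero, sub_zero, smul_eq_mul] at this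
    exact this.symm
  have e2 : dslope φ 0 z = z * dslope (dslope φ 0) 0 z := by
    have := sub_smul_dslope (dslope φ 0) 0 z
    rw [h2, sub_zero, sub_zero, smul_eq_mul] at this
    exact this.symm
  rw [e1, e2, ← mul_assoc, norm_mul, norm_mul]
  have e3 : 0 ≤ ‖z‖ * ‖z‖ := by positivity
  calc ‖z‖ * ‖z‖ * ‖dslope (dslope φ 0) 0 z‖ ≤ ‖z‖ * ‖z‖ * (((M + 1) / r + 1) / r) :=
      mul_le_mul_of_nonneg_left h3 e3
    _ = ((M + 1) / r + 1) / r * ‖z‖ ^ 2 := by ring

/-- a bound for `L - t` by compactness and periodicity -/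
private lemma SetS_bd {L : ℂ × ℂ → ℂ} {ε : ℝ} (hε : 0 < ε)
    (han : AnalyticOnNhd ℂ L (St (-ε) ε ×ˢ ball 0 ε))
    (hper : ∀ p ∈ St (-ε) ε ×ˢ ball (0:ℂ) ε, L (p.1 + 1, p.2) = L p + 1) :
    ∃ M, 0 ≤ M ∧ ∀ t η : ℂ, |t.im| ≤ ε / 2 → ‖η‖ ≤ ε / 2 → ‖L (t, η) - t‖ ≤ M := by
  have hK : IsCompact ((Set.Icc (0:ℝ) 1 ×ℂ Set.Icc (-(ε / 2)) (ε / 2)) ×ˢ
      closedBall (0:ℂ) (ε / 2)) :=
    (isCompact_Icc.reProdIm isCompact_Icc).prod (isCompact_closedBall _ _)
  have hsub : (Set.Icc (0:ℝ) 1 ×ℂ Set.Icc (-(ε / 2)) (ε / 2)) ×ˢ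
      closedBall (0:ℂ) (ε / 2) ⊆ St (-ε) ε ×ˢ ball (0:ℂ) ε := by
    rintro ⟨t, η⟩ ⟨h1, h2⟩
    have h3 := h1.2
    refine ⟨⟨?_, ?_⟩, closedBall_subset_ball (by linarith) h2⟩
    · have : -(ε / 2) ≤ t.im := h3.1
      change -ε < t.im
      linarith
    · have : t.im ≤ ε / 2 := h3.2
      change t.im < ε
      linarith
  have hc : ContinuousOn (fun p : ℂ × ℂ => L p - p.1)
      ((Set.Icc (0:ℝ) 1 ×ℂ Set.Icc (-(ε / 2)) (ε / 2)) ×ˢ closedBall (0:ℂ) (ε / 2)) := by
    intro p hp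
    exact ((han p (hsub hp)).continuousAt.sub continuousAt_fst).continuousWithinAt
  obtain ⟨M, hM⟩ := hK.exists_bound_of_continuousOn hc
  refine ⟨max M 0, le_max_right _ _, fun t η ht hη => ?_⟩
  have hper' : Function.Periodic (fun x : ℝ => L ((x : ℂ) + t.im * I, η) - (x + t.im * I)) 1 := by
    intro x
    have h1 : (((x : ℂ) + t.im * I, η) : ℂ × ℂ) ∈ St (-ε) ε ×ˢ ball (0:ℂ) ε := by
      have h2 : ((x : ℂ) + t.im * I).im = t.im := by simp
      have h3 := abs_le.1 ht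
      refine ⟨⟨?_, ?_⟩, ?_⟩
      · change -ε < ((x : ℂ) + t.im * I).im
        rw [h2]
        linarith
      · change ((x : ℂ) + t.im * I).im < ε
        rw [h2]
        linarith
      · rw [mem_ball_zero_iff]
        linarith
    have h4 := hper _ h1
    change L (((x + 1 : ℝ) : ℂ) + t.im * I, η) - (((x + 1 : ℝ) : ℂ) + t.im * I) =
      L ((x : ℂ) + t.im * I, η) - (x + t.im * I)
    have h5 : ((x + 1 : ℝ) : ℂ) + t.im * I = (x : ℂ) + t.im * I + 1 := by
      push_cast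
      ring
    rw [h5, h4]
    ring
  obtain ⟨x, hx, hxe⟩ := hper'.exists_mem_Ico₀ one_pos t.re
  have h1 : L (t, η) - t = L ((x : ℂ) + t.im * I, η) - (x + t.im * I) := by
    have h2 : L ((t.re : ℂ) + t.im * I, η) - (t.re + t.im * I) =
      L ((x : ℂ) + t.im * I, η) - (x + t.im * I) := hxe
    rwa [re_add_im] at h2
  rw [h1]
  refine (hM (((x : ℂ) + t.im * I, η) : ℂ × ℂ) ⟨?_, ?_⟩).trans (le_max_left _ _)
  · rw [Complex.mem_reProdIm]
    refine ⟨?_, ?_⟩
    · have : ((x : ℂ) + t.im * I).re = x := by simp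
      change ((x : ℂ) + t.im * I).re ∈ _
      rw [this]
      exact ⟨hx.1, hx.2.le⟩
    · have : ((x : ℂ) + t.im * I).im = t.im := by simp
      change ((x : ℂ) + t.im * I).im ∈ _
      rw [this]
      exact abs_le.1 ht
  · rw [mem_closedBall_zero_iff]
    exact hη

/-- **The label near the real line** (text: NB5/SetX.lean). -/
theorem exists_entS (hN : ConE k F c h G) (hY : SysOf Y G h) :
    ∃ (b C : ℝ) (L : ℂ × ℂ → ℂ), EntS Y h b C L ∧ b ≤ c / 4 ∧
      ∀ p ∈ Bs b, Y.y1 (L p) ≠ 0 ∧ F p = Y.y2 (L p) / Y.y1 (L p) := by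
  obtain ⟨ε, L, h⟩ := Pool.Agent.MP_ae5b4e_an_NB1B.exists_labR hN.toCon
  have hε := h.ε_pos
  have hc := hN.pos
  have hεc := h.ε_le
  obtain ⟨M, hM0, hM⟩ := SetS_bd hε h.an h.per
  obtain ⟨b, hb⟩ : ∃ b, b = min (ε / 2) 1 := ⟨_, rfl⟩
  have hb0 : 0 < b := by rw [hb]; exact lt_min (by linarith) one_pos
  have hbε : b ≤ ε / 2 := by rw [hb]; exact min_le_left _ _
  have hb1 : b ≤ 1 := by rw [hb]; exact min_le_right _ _
  have hmem : ∀ p ∈ Bs b, p ∈ St (-ε) ε ×ˢ ball (0:ℂ) ε := by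
    rintro p ⟨⟨h1, h2⟩, h3⟩
    refine ⟨⟨?_, ?_⟩, ball_subset_ball (by linarith) h3⟩
    · linarith
    · linarith
  have hmemc : ∀ p ∈ Bs b, p ∈ St (-c) c ×ˢ ball (0:ℂ) c := by
    rintro p ⟨⟨h1, h2⟩, h3⟩
    refine ⟨⟨?_, ?_⟩, ball_subset_ball (by linarith) h3⟩
    · linarith
    · linarith
  have him : ∀ p ∈ Bs b, |(L p).im| < c := fun p hp => abs_lt.2 (h.maps p (hmem p hp))
  have hF : ∀ p ∈ Bs b, Y.y1 (L p) ≠ 0 ∧ F p = Y.y2 (L p) / Y.y1 (L p) := by
    intro p hp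
    obtain ⟨h1, h2⟩ := con_fS hN hY (L p) (him p hp)
    refine ⟨h1, ?_⟩
    rw [← h2, h.eq p (hmem p hp)]
  obtain ⟨C, hC⟩ : ∃ C, C = max 1 (((M + 1) / (ε / 2) + 1) / (ε / 2)) := ⟨_, rfl⟩
  have hC1 : 1 ≤ C := by rw [hC]; exact le_max_left _ _
  have hC2 : ((M + 1) / (ε / 2) + 1) / (ε / 2) ≤ C := by rw [hC]; exact le_max_right _ _
  refine ⟨b, C, L, ?_, by linarith, hF⟩
  exact
    { b_pos := hb0
      b_le := hb1
      C_one := hC1
      b_h := by linarith [hN.hc]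
      on := hY.1
      qper := q_perS hN hY
      qre := q_reS hN hY
      an := fun p hp => h.an p (hmem p hp)
      zero := fun t ht => h.zero t ⟨by linarith [ht.1], by linarith [ht.2]⟩
      even := fun p hp => h.even p (hmem p hp)
      per := fun p hp => h.per p (hmem p hp)
      node := by
        intro t η h0 h1 h2
        by_cases hη : η = 0
        · subst hη
          have e0 : L (t, 0) = t := h.zero t (hmem _ h0).1
          rw [add_zero, sub_zero, e0]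
          unfold Sys.node
          rw [Sys.s_self]
          ring
        · have hSt1 : t + η ∈ St (-c) c := (hmemc _ h1).1
          have hSt2 : t - η ∈ St (-c) c := (hmemc _ h2).1
          have hfe := hN.fe (t, η) (hmemc _ h0) hη hSt1 hSt2
          have hs1 : F (t + η, η) ≠ F (t, η) := hN.sep (t, η) (hmemc _ h0) hη hSt1
          have hs2 : F (t, η) ≠ F (t - η, η) := by
            have e1 := hN.sep (t - η, η) (hmemc _ h2) hη (by
              change t - η + η ∈ _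
              rw [sub_add_cancel]
              exact (hmemc _ h0).1)
            have e2 : ((t - η, η) : ℂ × ℂ).1 + ((t - η, η) : ℂ × ℂ).2 = t := sub_add_cancel t η
            rw [e2] at e1
            exact e1
          obtain ⟨l1, l2⟩ := hF _ h0
          obtain ⟨u1, u2⟩ := hF _ h1
          obtain ⟨v1, v2⟩ := hF _ h2
          have hk : k (F (t, η)) = 2 * Y.y1' (L (t, η)) * Y.y1 (L (t, η)) := by
            rw [← SetS_k hN hY (L (t, η)) (him _ h0), h.eq _ (hmem _ h0)]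
          have hfe' : (F (t + η, η) - F (t, η))⁻¹ + (F (t - η, η) - F (t, η))⁻¹ =
              k (F (t, η)) := hfe
          rw [hk] at hfe'
          rw [l2, u2] at hs1
          rw [l2, v2] at hs2
          rw [l2, u2, v2] at hfe'
          have hsu : Y.s (L (t + η, η)) (L (t, η)) ≠ 0 := by
            intro h3
            apply hs1
            rw [div_eq_div_iff u1 l1]
            unfold Sys.s at h3
            linear_combination h3
          have hsv : Y.s (L (t - η, η)) (L (t, η)) ≠ 0 := by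
            intro h3
            apply hs2
            rw [div_eq_div_iff l1 v1]
            unfold Sys.s at h3
            linear_combination -h3
          exact SetS_alg (hY.1.wr _ (abs_lt.1 ((him _ h0).trans hN.hc))) l1 u1 v1 hsu hsv hfe'
      bd := by
        rintro ⟨t, η⟩ hp
        have hε2 : 0 < ε / 2 := by linarith
        have htim : |t.im| ≤ ε / 2 := by
          have h1 : -b < t.im := hp.1.1
          have h2 : t.im < b := hp.1.2
          exact abs_le.2 ⟨by linarith, by linarith⟩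
        have htS : t ∈ St (-ε) ε := (hmem _ hp).1
        have hball : ball (0:ℂ) (ε / 2) ⊆ ball (0:ℂ) ε := ball_subset_ball (by linarith)
        have hd : DifferentiableOn ℂ (fun η : ℂ => L (t, η) - t) (ball 0 (ε / 2)) := by
          intro z hz
          have e1 : AnalyticAt ℂ (fun η : ℂ => ((t, η) : ℂ × ℂ)) z :=
            analyticAt_const.prod analyticAt_id
          have e2 : AnalyticAt ℂ (fun η : ℂ => L (t, η)) z :=
            AnalyticAt.fun_comp (g := L) (f := fun η : ℂ => ((t, η) : ℂ × ℂ))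
              (h.an (t, z) ⟨htS, hball hz⟩) e1
          exact (e2.sub analyticAt_const).differentiableAt.differentiableWithinAt
        have e0 : (fun η : ℂ => L (t, η) - t) 0 = 0 := by
          change L (t, 0) - t = 0
          rw [h.zero t htS, sub_self]
        have he : ∀ z ∈ ball (0:ℂ) (ε / 2),
            (fun η : ℂ => L (t, η) - t) (-z) = (fun η : ℂ => L (t, η) - t) z := by
          intro z hz
          change L (t, -z) - t = L (t, z) - t
          have e1 : L (t, -z) = L (t, z) := h.even (t, z) ⟨htS, hball hz⟩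
          rw [e1]
        have hbd : ∀ z ∈ ball (0:ℂ) (ε / 2), ‖(fun η : ℂ => L (t, η) - t) z‖ ≤ M := by
          intro z hz
          exact hM t z htim (mem_ball_zero_iff.1 hz).le
        have hη : η ∈ ball (0:ℂ) (ε / 2) := ball_subset_ball hbε hp.2
        have hfin := SetS_schwarz hε2 hM0 hd e0 he hbd hη
        change ‖L (t, η) - t‖ ≤ C * ‖η‖ ^ 2
        exact hfin.trans (mul_le_mul_of_nonneg_right hC2 (by positivity)) }

end Pool.Agent.MP_ae5b4e_an_NF
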