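import Pool.Agent.Lib.MP_ae5b4e_an_NF.ZoneS
import Pool.Agent.Lib.MP_ae5b4e_an_NF.SetS
import Pool.Agent.Lib.MP_ae5b4e_an_NBT.Hgt
import Pool.Agent.Lib.MP_ae5b4e_an_M0.Bd

/-!
# MP_ae5b4e_an, project NF: a polynomial bound for the potential gives a lower bound for the height
-/

noncomputable section

namespace Pool.Agent.MP_ae5b4e_an_NF

open Complex Set Filter Topology Metric
open Pool.Agent.MP_ae5b4e_an_NBT
open Pool.Agent.MP_ae5b4e_an_NB2 (Sys)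
open Pool.Agent.MP_ae5b4e_an_NB4H (SysOf per_of)
open Pool.Agent.MP_ae5b4e_an_NB5 (Bs Zn ZL)
open Pool.Agent.MP_ae5b4e_an_M0 (merF)
open scoped ComplexConjugate

variable {k : ℂ → ℂ} {F G : ℂ × ℂ → ℂ} {c h : ℝ} {Y : Sys}

/-- the function `F` continues as long as the label of the zone exists -/
theorem extM_of_zone (hN : ConE k F c h G) {b C : ℝ} {L : ℂ × ℂ → ℂ} (hE : EntS Y h b C L)
    (hbc : b ≤ c / 4)
    (hF : ∀ p ∈ Bs b, Y.y1 (L p) ≠ 0 ∧ F p = Y.y2 (L p) / Y.y1 (L p)) {B : ℕ} (hB : 1000 ≤ B)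
    {κ A : ℝ} (hκ : 0 < κ) (hA : 0 < A) {M : ℂ × ℂ → ℂ} (hM : ZL Y b L κ 400 B h A M) {ρ : ℂ}
    (hρ : ‖ρ‖ < b) {y : ℝ} (hby : b / 2 < y) (hy : y < h) (hz : ‖ρ‖ ^ 2 * A < κ * (h - y) ^ B) :
    ExtM F c (c / 4) y ρ := by
  have hc := hN.pos
  have hch := hN.hc
  have hb := hE.b_pos
  -- the disc of parameters
  obtain ⟨r, hr1, hr2, hr3⟩ : ∃ r : ℝ, ‖ρ‖ < r ∧ r ≤ b ∧ r ^ 2 * A ≤ κ * (h - y) ^ B := by
    have hX : 0 < κ * (h - y) ^ B / A := by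
      have : 0 < h - y := by linarith
      positivity
    have h1 : ‖ρ‖ < Real.sqrt (κ * (h - y) ^ B / A) := by
      apply Real.lt_sqrt_of_sq_lt
      rw [lt_div_iff₀ hA]
      exact hz
    refine ⟨min b (Real.sqrt (κ * (h - y) ^ B / A)), lt_min hρ h1, min_le_left _ _, ?_⟩
    have h2 : min b (Real.sqrt (κ * (h - y) ^ B / A)) ^ 2 ≤ κ * (h - y) ^ B / A := by
      have h3 : 0 ≤ min b (Real.sqrt (κ * (h - y) ^ B / A)) :=
        le_min hb.le (Real.sqrt_nonneg _)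
      calc min b (Real.sqrt (κ * (h - y) ^ B / A)) ^ 2
          ≤ Real.sqrt (κ * (h - y) ^ B / A) ^ 2 := by
            gcongr
            exact min_le_right _ _
        _ = κ * (h - y) ^ B / A := Real.sq_sqrt hX.le
    rw [← le_div_iff₀ hA]
    exact h2
  have hr0 : 0 < r := (norm_nonneg _).trans_lt hr1
  have hrc : ball (0:ℂ) r ⊆ ball (0:ℂ) (c / 4) := ball_subset_ball (hr2.trans hbc)
  have hzone : ∀ p ∈ St 0 y ×ˢ ball (0:ℂ) r, p ∈ Zn κ B h A := by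
    rintro p ⟨⟨h1, h2⟩, h3⟩
    rw [mem_ball_zero_iff] at h3
    refine ⟨h1, h2.trans hy, ?_⟩
    calc ‖p.2‖ ^ 2 * A < r ^ 2 * A := by
          have := norm_nonneg p.2
          gcongr
      _ ≤ κ * (h - y) ^ B := hr3
      _ ≤ κ * (h - p.1.im) ^ B := by
          have : 0 ≤ h - y := by linarith
          gcongr
  -- the function of the label
  obtain ⟨Qf, hQf⟩ : ∃ Qf : ℂ × ℂ → ℂ, Qf = fun p => Y.y2 (M p) / Y.y1 (M p) := ⟨_, rfl⟩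
  have hMan : ∀ p ∈ St 0 y ×ˢ ball (0:ℂ) r, AnalyticAt ℂ M p := fun p hp => hM.an p (hzone p hp)
  have hMst : ∀ p ∈ St 0 y ×ˢ ball (0:ℂ) r, M p ∈ St (-h) h := by
    intro p hp
    have h1 := hzone p hp
    exact mem_St_of_bd hB le_rfl h1.1 h1.2.1 (hM.bd p h1)
  have han1 : ∀ p ∈ St 0 y ×ˢ ball (0:ℂ) r, AnalyticAt ℂ (fun q => Y.y1 (M q)) p := by
    intro p hp
    have h1 : AnalyticAt ℂ Y.y1 (M p) := Sys.an_y1 hE.on (isOpen_St _ _) _ (hMst p hp)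
    exact AnalyticAt.fun_comp h1 (hMan p hp)
  have han2 : ∀ p ∈ St 0 y ×ˢ ball (0:ℂ) r, AnalyticAt ℂ (fun q => Y.y2 (M q)) p := by
    intro p hp
    have h1 : AnalyticAt ℂ Y.y2 (M p) := Sys.an_y2 hE.on (isOpen_St _ _) _ (hMst p hp)
    exact AnalyticAt.fun_comp h1 (hMan p hp)
  have hbase : ∀ p : ℂ × ℂ, 0 < p.1.im → p.1.im < b / 2 → ‖p.2‖ < r →
      Y.y1 (M p) ≠ 0 ∧ Qf p = F p := by
    intro p h1 h2 h3
    have hp : p ∈ St 0 y ×ˢ ball (0:ℂ) r := ⟨⟨h1, h2.trans hby⟩, mem_ball_zero_iff.2 h3⟩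
    obtain ⟨h4, h5⟩ := hM.base p (hzone p hp) h2
    obtain ⟨h6, h7⟩ := hF p h4
    rw [hQf]
    simp only [h5]
    exact ⟨h6, h7.symm⟩
  have hconn : IsPreconnected (St 0 y ×ˢ ball (0:ℂ) r) :=
    ((convex_St 0 y).prod (convex_ball 0 r)).isPreconnected
  have hp0 : ((((b / 4 : ℝ) : ℂ) * I, 0) : ℂ × ℂ) ∈ St 0 y ×ˢ ball (0:ℂ) r := by
    refine ⟨⟨?_, ?_⟩, mem_ball_self hr0⟩
    · simp
      positivity
    · simp
      linarith
  have hden : ∀ p ∈ St 0 y ×ˢ ball (0:ℂ) r, Den (fun q => Y.y1 (M q)) p := by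
    intro p hp
    refine ⟨han1 p hp, fun h1 => ?_⟩
    have h2 := AnalyticOnNhd.eqOn_zero_of_preconnected_of_eventuallyEq_zero
      (f := fun q => Y.y1 (M q)) han1 hconn hp h1
    have h3 : Y.y1 (M (((b / 4 : ℝ) : ℂ) * I, 0)) = 0 := h2 hp0
    refine (hbase (((b / 4 : ℝ) : ℂ) * I, 0) hp0.1.1 ?_ ?_).1 h3
    · simp
      linarith
    · simpa using hr0
  have hmerQ : Mer Qf (St 0 y ×ˢ ball (0:ℂ) r) := by
    intro p hp
    exact ⟨_, _, han2 p hp, hden p hp, Eventually.of_forall fun q _ => by rw [hQf]⟩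
  -- the glued function
  classical
  obtain ⟨G', hG'⟩ : ∃ G' : ℂ × ℂ → ℂ, G' = fun p => if p.1.im < b / 4 then F p else Qf p :=
    ⟨_, rfl⟩
  have him : Continuous fun p : ℂ × ℂ => p.1.im := continuous_im.comp continuous_fst
  have hlow : ∀ p : ℂ × ℂ, p.1.im < b / 2 → p.2 ∈ ball (0:ℂ) r → G' =ᶠ[𝓝 p] F := by
    intro p h1 h2
    have e1 : ∀ᶠ q : ℂ × ℂ in 𝓝 p, q.1.im < b / 2 :=
      (isOpen_lt him continuous_const).mem_nhds h1
    have e2 : ∀ᶠ q : ℂ × ℂ in 𝓝 p, q.2 ∈ ball (0:ℂ) r :=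
      (isOpen_ball.preimage continuous_snd).mem_nhds h2
    filter_upwards [e1, e2] with q h3 h4
    rw [hG']
    simp only
    split_ifs with h5
    · rfl
    · exact (hbase q (by linarith [not_lt.1 h5]) h3 (mem_ball_zero_iff.1 h4)).2
  have hupp : ∀ p : ℂ × ℂ, b / 4 < p.1.im → G' =ᶠ[𝓝 p] Qf := by
    intro p h1
    have e1 : ∀ᶠ q : ℂ × ℂ in 𝓝 p, b / 4 < q.1.im :=
      (isOpen_lt continuous_const him).mem_nhds h1
    filter_upwards [e1] with q h3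
    rw [hG']
    simp only
    rw [if_neg (not_lt.2 h3.le)]
  have hmerF := merF hN
  have hmerG : Mer G' (St (-c) y ×ˢ ball (0:ℂ) r) := by
    rintro p ⟨⟨h1, h2⟩, h3⟩
    rcases lt_or_ge p.1.im (b / 2) with h4 | h4
    · exact (hmerF p ⟨⟨h1, by linarith⟩, hrc h3⟩).congr
        (EqM.of_eventuallyEq (hlow p h4 h3).symm)
    · exact (hmerQ p ⟨⟨by linarith, h2⟩, h3⟩).congr
        (EqM.of_eventuallyEq (hupp p (by linarith)).symm)
  have hmin : 0 < min c y := lt_min hc (by linarith)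
  have heq : ∀ p ∈ St (-c) (min c y) ×ˢ ball (0:ℂ) r, EqM G' F p := by
    have hconn' : IsPreconnected (St (-c) (min c y) ×ˢ ball (0:ℂ) r) :=
      ((convex_St _ _).prod (convex_ball 0 r)).isPreconnected
    refine Mer.eqM (p := (0, 0)) hconn' ?_ ?_ ?_ ?_
    · refine hmerG.mono ?_
      rintro p ⟨⟨h1, h2⟩, h3⟩
      exact ⟨⟨h1, h2.trans_le (min_le_right _ _)⟩, h3⟩
    · refine hmerF.mono ?_
      rintro p ⟨⟨h1, h2⟩, h3⟩
      exact ⟨⟨h1, h2.trans_le (min_le_left _ _)⟩, hrc h3⟩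
    · refine ⟨⟨?_, ?_⟩, mem_ball_self hr0⟩
      · simpa using hc
      · simpa using hmin
    · refine EqM.of_eventuallyEq (hlow (0, 0) ?_ (mem_ball_self hr0))
      simpa using hb
  exact extM_of_mer isOpen_ball hrc hmerG heq (mem_ball_zero_iff.2 hr1)

/-- **the lower bound for the height** of a family whose potential has polynomial growth -/
theorem hgt_geS (hN : ConE k F c h G) (hY : SysOf Y G h) {B₀ : ℕ} {A₀ : ℝ}
    (hQ : ∀ l : ℂ, |l.im| < h → ‖Y.Q l‖ * (h - |l.im|) ^ B₀ ≤ A₀) :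
    ∃ δ C₂ R₁ : ℝ, 0 < δ ∧ δ ≤ 1 ∧ 0 < C₂ ∧ 0 < R₁ ∧ R₁ ≤ c / 4 ∧
      ∀ ρ : ℂ, ‖ρ‖ < R₁ → h - C₂ * ‖ρ‖ ^ δ ≤ hgt F c (c / 4) (h + 1) ρ := by
  have hc := hN.pos
  have hch := hN.hc
  have hh : 0 < h := hc.trans hch
  have hmF := merF hN
  obtain ⟨b₀, C, L, hE₀, hb₀c, hF₀⟩ := exists_entS hN hY
  -- the exponent
  obtain ⟨B, hBe⟩ : ∃ B : ℕ, B = max B₀ 1000 := ⟨_, rfl⟩
  have hB : 1000 ≤ B := by rw [hBe]; exact le_max_right _ _
  have hB₀ : B₀ ≤ B := by rw [hBe]; exact le_max_left _ _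
  have hBr : (1000:ℝ) ≤ B := by exact_mod_cast hB
  have hBp : (0:ℝ) < B := by linarith
  obtain ⟨b, hbe⟩ : ∃ b : ℝ, b = min b₀ (h / B) := ⟨_, rfl⟩
  have hbp : 0 < b := by
    rw [hbe]
    exact lt_min hE₀.b_pos (by positivity)
  have hbb : b ≤ b₀ := by rw [hbe]; exact min_le_left _ _
  have hbB : (B:ℝ) * b ≤ h := by
    have : b ≤ h / B := by rw [hbe]; exact min_le_right _ _
    rw [le_div_iff₀ hBp] at this
    linarith
  have hE := hE₀.mono hbp hbb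
  have hF : ∀ p ∈ Bs b, Y.y1 (L p) ≠ 0 ∧ F p = Y.y2 (L p) / Y.y1 (L p) := by
    rintro p ⟨⟨h1, h2⟩, h3⟩
    exact hF₀ p ⟨⟨by linarith, by linarith⟩, ball_subset_ball hbb h3⟩
  obtain ⟨κ, hκ, hκ1, Hz⟩ := exists_zoneS
  obtain ⟨C₁, hC₁, Hz⟩ := Hz b C hbp hE.b_le hE.C_one
  obtain ⟨A, hAe⟩ : ∃ A : ℝ, A = max (|A₀| * h ^ (B - B₀) + 1) (C₁ * B * h ^ B) := ⟨_, rfl⟩
  have hA1 : |A₀| * h ^ (B - B₀) + 1 ≤ A := by rw [hAe]; exact le_max_left _ _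
  have hA2 : C₁ * B * h ^ B ≤ A := by rw [hAe]; exact le_max_right _ _
  have hA : 0 < A := by
    have : 0 ≤ |A₀| * h ^ (B - B₀) := by positivity
    linarith
  have hmaj : MajS Y h b B h A := by
    refine ⟨by omega, hB, hbB, le_rfl, hA, fun l hl => ?_⟩
    have h0 : 0 ≤ h - |l.im| := by linarith
    have h1 : h - |l.im| ≤ h := by linarith [abs_nonneg l.im]
    have e : (h - |l.im|) ^ B = (h - |l.im|) ^ B₀ * (h - |l.im|) ^ (B - B₀) := by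
      rw [← pow_add, Nat.add_sub_cancel' hB₀]
    calc ‖Y.Q l‖ * (h - |l.im|) ^ B
        = (‖Y.Q l‖ * (h - |l.im|) ^ B₀) * (h - |l.im|) ^ (B - B₀) := by rw [e]; ring
      _ ≤ |A₀| * h ^ (B - B₀) := by
          apply mul_le_mul ((hQ l hl).trans (le_abs_self _)) (pow_le_pow_left₀ h0 h1 _)
            (pow_nonneg h0 _) (abs_nonneg _)
      _ ≤ A := by linarith
  obtain ⟨M, hM⟩ := Hz Y h L hE B h A hmaj hA2
  -- the constants
  obtain ⟨C₂, hC₂, hC₂A⟩ : ∃ C₂ : ℝ, 1 ≤ C₂ ∧ A ≤ κ * C₂ ^ B := by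
    refine ⟨max 1 (A / κ), le_max_left _ _, ?_⟩
    have h1 : (1:ℝ) ≤ max 1 (A / κ) := le_max_left _ _
    have h2 : max 1 (A / κ) ≤ max 1 (A / κ) ^ B := le_self_pow₀ h1 (by omega)
    have h3 : A / κ ≤ max 1 (A / κ) ^ B := (le_max_right _ _).trans h2
    rw [div_le_iff₀ hκ] at h3
    linarith
  obtain ⟨δ, hδe⟩ : ∃ δ : ℝ, δ = 2 / B := ⟨_, rfl⟩
  have hδ : 0 < δ := by rw [hδe]; positivity
  have hδ1 : δ ≤ 1 := by
    rw [hδe, div_le_one hBp]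
    linarith
  have hδB : δ * B = 2 := by
    rw [hδe]
    field_simp
  refine ⟨δ, C₂, b, hδ, hδ1, by linarith, hbp, hbb.trans hb₀c, fun ρ hρ => ?_⟩
  have hρc : ρ ∈ ball (0:ℂ) (c / 4) := mem_ball_zero_iff.2 (by linarith)
  have hcle : c ≤ hgt F c (c / 4) (h + 1) ρ := le_hgt hmF (by linarith) hρc
  apply le_of_forall_lt
  intro y hy
  rcases le_or_gt y (b / 2) with h1 | h1
  · linarith
  -- between
  obtain ⟨y', hy1, hy2⟩ := exists_between hy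
  refine hy1.trans_le (le_hgt_of_extM ?_ ?_)
  · have hn := norm_nonneg ρ
    have hpw : 0 ≤ ‖ρ‖ ^ δ := Real.rpow_nonneg hn _
    have h2 : C₂ * ‖ρ‖ ^ δ < h - y' := by linarith
    have h3 : 0 ≤ C₂ * ‖ρ‖ ^ δ := by positivity
    refine extM_of_zone hN hE (hbb.trans hb₀c) hF hB hκ hA hM hρ (by linarith) (by linarith) ?_
    have h4 : (C₂ * ‖ρ‖ ^ δ) ^ B < (h - y') ^ B := pow_lt_pow_left₀ h2 h3 (by omega)
    have h5 : (‖ρ‖ ^ δ) ^ B = ‖ρ‖ ^ 2 := by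
      rw [← Real.rpow_natCast, ← Real.rpow_mul hn, hδB]
      norm_num
    rw [mul_pow, h5] at h4
    calc ‖ρ‖ ^ 2 * A ≤ ‖ρ‖ ^ 2 * (κ * C₂ ^ B) := by gcongr
      _ = κ * (C₂ ^ B * ‖ρ‖ ^ 2) := by ring
      _ < κ * (h - y') ^ B := mul_lt_mul_of_pos_left h4 hκ
  · have : 0 ≤ C₂ * ‖ρ‖ ^ δ := by
      have := Real.rpow_nonneg (norm_nonneg ρ) δ
      positivity
    linarith

end Pool.Agent.MP_ae5b4e_an_NF
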