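import Pool.Agent.Lib.MP_ae5b4e_an_NB5.Co
import Pool.Agent.Lib.MP_ae5b4e_an_NF.Defs

/-!
# MP_ae5b4e_an, project NF: the coefficients of the label (finite height)
-/

noncomputable section

namespace Pool.Agent.MP_ae5b4e_an_NF

open Complex Set Filter Topology Metric
open Pool.Agent.MP_ae5b4e_an_NBT (St)
open Pool.Agent.MP_ae5b4e_an_NB2 (Sys)
open Pool.Agent.MP_ae5b4e_an_NB5 (Bs cf cf_bound four_sum Dc)
open scoped ComplexConjugate

variable {Y : Sys} {T b C : ℝ} {L : ℂ × ℂ → ℂ}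

private theorem mem_real (hb : 0 < b) (s : ℝ) {η : ℂ} (hη : η ∈ ball (0:ℂ) b) :
    ((s:ℂ), η) ∈ Bs b := by
  refine ⟨?_, hη⟩
  change -b < (s:ℂ).im ∧ (s:ℂ).im < b
  rw [ofReal_im]
  exact ⟨by linarith, hb⟩

private theorem g_an (hE : EntS Y T b C L) {η : ℂ} (hη : η ∈ ball (0:ℂ) b) :
    AnalyticOnNhd ℂ (fun t => L (t, η) - t) (St (-b) b) := by
  intro t ht
  have h1 : AnalyticAt ℂ L ((fun t : ℂ => (t, η)) t) := hE.an (t, η) ⟨ht, hη⟩
  have h2 : AnalyticAt ℂ (fun t : ℂ => (t, η)) t := analyticAt_id.prod analyticAt_const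
  have h := AnalyticAt.comp (g := L) (f := fun t : ℂ => (t, η)) (x := t) h1 h2
  exact h.sub analyticAt_id

private theorem g_per (hE : EntS Y T b C L) {η : ℂ} (hη : η ∈ ball (0:ℂ) b) :
    ∀ t ∈ St (-b) b, (fun t => L (t, η) - t) (t + 1) = (fun t => L (t, η) - t) t := by
  intro t ht
  have h1 := hE.per (t, η) ⟨ht, hη⟩
  change L (t + 1, η) - (t + 1) = L (t, η) - t
  change L (t + 1, η) = L (t, η) + 1 at h1
  rw [h1]
  ring

/-- differentiation of a parameter integral (continuous, and analytic in `η`) -/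
theorem Dc_anS (hE : EntS Y T b C L) (m : ℤ) : AnalyticOnNhd ℂ (Dc L m) (ball 0 b) := by
  refine DifferentiableOn.analyticOnNhd ?_ isOpen_ball
  intro ρ hρ
  obtain ⟨ε, hε, hsub⟩ := Metric.nhds_basis_closedBall.mem_iff.1 (isOpen_ball.mem_nhds hρ)
  have hf : AnalyticOnNhd ℂ (fun p : ℂ × ℂ => L p - p.1) (Bs b) :=
    fun p hp => (hE.an p hp).fun_sub analyticAt_fst
  have hfc : ContinuousOn (fun p : ℂ × ℂ => fderiv ℂ (fun p : ℂ × ℂ => L p - p.1) p (0, 1))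
      (Bs b) := fun p hp =>
    ((hf p hp).fderiv.continuousAt.clm_apply continuousAt_const).continuousWithinAt
  have hK : IsCompact ((ofReal '' Icc (0:ℝ) 1) ×ˢ Metric.closedBall ρ ε) :=
    (isCompact_Icc.image continuous_ofReal).prod (isCompact_closedBall ρ ε)
  have hKD : (ofReal '' Icc (0:ℝ) 1) ×ˢ Metric.closedBall ρ ε ⊆ Bs b := by
    rintro ⟨x, y⟩ ⟨⟨s, _, hs⟩, hy⟩
    simp only at hs hy
    rw [← hs]
    exact mem_real hE.b_pos s (hsub hy)
  obtain ⟨C', hC'⟩ := hK.exists_bound_of_continuousOn (hfc.mono hKD)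
  have he : ∀ s : ℝ, ‖exp (-(2 * Real.pi * I * m * s))‖ = 1 := by
    intro s
    have e : -(2 * Real.pi * I * m * s) = ((-(2 * Real.pi * m * s) : ℝ) : ℂ) * I := by
      push_cast
      ring
    rw [e, norm_exp_ofReal_mul_I]
  have hce : Continuous (fun s : ℝ => exp (-(2 * Real.pi * I * m * s))) := by fun_prop
  have hcr : ∀ {η : ℂ}, η ∈ ball (0:ℂ) b → Continuous (fun s : ℝ => ((s:ℂ), η)) := by
    intro η _
    fun_prop
  have hc0 : ∀ {η : ℂ}, η ∈ ball (0:ℂ) b → Continuous (fun s : ℝ => L ((s:ℂ), η) - s) :=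
    fun {η} hη => (hf.continuousOn.comp_continuous (hcr hη) (fun s => mem_real hE.b_pos s hη))
  have hc1 : ∀ {η : ℂ}, η ∈ ball (0:ℂ) b → Continuous (fun s : ℝ =>
      fderiv ℂ (fun p : ℂ × ℂ => L p - p.1) ((s:ℂ), η) (0, 1)) :=
    fun {η} hη => (hfc.comp_continuous (hcr hη) (fun s => mem_real hE.b_pos s hη))
  have h1 := (intervalIntegral.hasDerivAt_integral_of_dominated_loc_of_deriv_le
    (μ := MeasureTheory.volume) (a := 0) (b := 1) (bound := fun _ => C')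
    (F := fun x (s : ℝ) => (L ((s : ℂ), x) - s) * exp (-(2 * Real.pi * I * m * s)))
    (F' := fun x (s : ℝ) => fderiv ℂ (fun p : ℂ × ℂ => L p - p.1) ((s:ℂ), x) (0, 1) *
      exp (-(2 * Real.pi * I * m * s)))
    (x₀ := ρ) (s := Metric.closedBall ρ ε) (Metric.closedBall_mem_nhds ρ hε) ?_
    (((hc0 hρ).mul hce).intervalIntegrable _ _) ?_ ?_ intervalIntegrable_const ?_).2
  · exact h1.differentiableAt.differentiableWithinAt
  · filter_upwards [isOpen_ball.mem_nhds hρ] with x hx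
    exact ((hc0 hx).mul hce).aestronglyMeasurable
  · exact ((hc1 hρ).mul hce).aestronglyMeasurable
  · refine Filter.Eventually.of_forall fun s hs x hx => ?_
    rw [norm_mul, he, mul_one]
    rw [uIoc_of_le zero_le_one] at hs
    exact hC' (s, x) ⟨⟨s, ⟨hs.1.le, hs.2⟩, rfl⟩, hx⟩
  · refine Filter.Eventually.of_forall fun s _ x hx => ?_
    refine HasDerivAt.mul_const ?_ _
    have h2 : HasFDerivAt (fun p : ℂ × ℂ => L p - p.1)
        (fderiv ℂ (fun p : ℂ × ℂ => L p - p.1) ((s:ℂ), x)) ((fun η : ℂ => ((s:ℂ), η)) x) :=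
      (hf _ (mem_real hE.b_pos s (hsub hx))).differentiableAt.hasFDerivAt
    have h3 : HasDerivAt (fun η : ℂ => ((s:ℂ), η)) (0, 1) x :=
      (hasDerivAt_const x (s:ℂ)).prodMk (hasDerivAt_id x)
    exact h2.comp_hasDerivAt x h3

theorem Dc_evenS (hE : EntS Y T b C L) (m : ℤ) {η : ℂ} (hη : η ∈ ball (0:ℂ) b) :
    Dc L m (-η) = Dc L m η := by
  unfold Dc cf
  refine intervalIntegral.integral_congr (fun x _ => ?_)
  have h1 := hE.even ((x:ℂ), η) (mem_real hE.b_pos x hη)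
  change L ((x:ℂ), -η) = L ((x:ℂ), η) at h1
  change (L ((x:ℂ), -η) - x) * _ = (L ((x:ℂ), η) - x) * _
  rw [h1]

/-- `cf_bound` with `y = ± b'`, `b' < b` arbitrary, then `b' → b` -/
theorem Dc_boundS (hE : EntS Y T b C L) (m : ℤ) {η : ℂ} (hη : η ∈ ball (0:ℂ) b) :
    ‖Dc L m η‖ ≤ C * ‖η‖ ^ 2 * Real.exp (-(2 * Real.pi * |(m:ℝ)| * b)) := by
  have hb := hE.b_pos
  have h1 : ∀ b' ∈ Ioo (0:ℝ) b,
      ‖Dc L m η‖ ≤ C * ‖η‖ ^ 2 * Real.exp (-(2 * Real.pi * |(m:ℝ)| * b')) := by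
    intro b' hb'
    have hM : ∀ y : ℝ, -b < y → y < b → ∀ t : ℂ, t.im = y →
        ‖(fun t => L (t, η) - t) t‖ ≤ C * ‖η‖ ^ 2 := by
      intro y hy1 hy2 t ht
      exact hE.bd (t, η) ⟨⟨by rw [ht]; exact hy1, by rw [ht]; exact hy2⟩, hη⟩
    rcases le_total 0 (m:ℝ) with hm | hm
    · have h2 := cf_bound (g_an hE hη) (g_per hE hη) (neg_lt_zero.2 hb) hb
        (y := -b') (by linarith [hb'.2]) (by linarith [hb'.1]) (hM _ (by linarith [hb'.2])
        (by linarith [hb'.1])) m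
      rw [abs_of_nonneg hm]
      have e : 2 * Real.pi * m * -b' = -(2 * Real.pi * (m:ℝ) * b') := by ring
      rw [e] at h2
      exact h2
    · have h2 := cf_bound (g_an hE hη) (g_per hE hη) (neg_lt_zero.2 hb) hb
        (y := b') (by linarith [hb'.1]) hb'.2 (hM _ (by linarith [hb'.1]) hb'.2) m
      rw [abs_of_nonpos hm]
      have e : 2 * Real.pi * m * b' = -(2 * Real.pi * -(m:ℝ) * b') := by ring
      rw [e] at h2
      exact h2
  have h2 : Tendsto (fun b' : ℝ => C * ‖η‖ ^ 2 * Real.exp (-(2 * Real.pi * |(m:ℝ)| * b')))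
      (𝓝[<] b) (𝓝 (C * ‖η‖ ^ 2 * Real.exp (-(2 * Real.pi * |(m:ℝ)| * b)))) := by
    have : Continuous (fun b' : ℝ => C * ‖η‖ ^ 2 *
      Real.exp (-(2 * Real.pi * |(m:ℝ)| * b'))) := by fun_prop
    exact (this.tendsto b).mono_left nhdsWithin_le_nhds
  refine ge_of_tendsto h2 ?_
  filter_upwards [Ioo_mem_nhdsLT hb] with b' hb'
  exact h1 b' hb'

/-- `four_sum` -/
theorem Dc_sumS (hE : EntS Y T b C L) {p : ℂ × ℂ} (hp : p ∈ Bs b) :
    HasSum (fun m : ℤ => Dc L m p.2 * exp (2 * Real.pi * I * m * p.1)) (L p - p.1) :=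
  four_sum hE.b_pos (g_an hE hp.2) (g_per hE hp.2) hp.1

end Pool.Agent.MP_ae5b4e_an_NF
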