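import Pool.Agent.Lib.MP_ae5b4e_an_NF.HgtS
import Pool.Agent.Lib.MP_ae5b4e_an_PB.NV
import Pool.Agent.Lib.MP_ae5b4e_an_N5.Defs

/-!
# MP_ae5b4e_an, project NF: a polynomial bound for the potential and the function `v`
-/

noncomputable section

namespace Pool.Agent.MP_ae5b4e_an_NF

open Complex Set Filter Topology Metric
open Pool.Agent.MP_ae5b4e_an_NBT
open Pool.Agent.MP_ae5b4e_an_NB4H (SysOf)
open Pool.Agent.MP_ae5b4e_an_NB2 (Sys)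
open Pool.Agent.MP_ae5b4e_an_PB (LbD mm vv mm_bound)
open Pool.Agent.MP_ae5b4e_an_N5 (VV)
open scoped ComplexConjugate

variable {k : ℂ → ℂ} {F G L : ℂ × ℂ → ℂ} {c h R : ℝ} {Y : Sys}

/-- **the upper bound for `v`** (the hypothesis `hup` of N5) if the potential has polynomial
growth; `v` and `m` as in `PB.exists_base` -/
theorem v_leS (hN : ConE k F c h G) (hY : SysOf Y G h) {B₀ : ℕ} {A₀ : ℝ}
    (hQ : ∀ l : ℂ, |l.im| < h → ‖Y.Q l‖ * (h - |l.im|) ^ B₀ ≤ A₀) {v : ℂ → ℝ} {m : ℂ → ℂ}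
    {C₃ : ℝ} (hR : 0 < R) (hC₃ : 0 ≤ C₃) (hm : ∀ ρ ∈ ball (0:ℂ) R, ‖m ρ‖ ≤ C₃ * ‖ρ‖ ^ 2)
    (hv : ∀ ρ ∈ ball (0:ℂ) R, v ρ = h - hgt F c (c / 4) (h + 1) ρ - (m ρ).im) :
    ∃ δ C r₁ : ℝ, 0 < δ ∧ δ ≤ 1 ∧ 0 < C ∧ 0 < r₁ ∧
      ∀ r, 0 < r → r < r₁ → VV v r ≤ C * r ^ δ := by
  obtain ⟨δ, C₂, R₁, hδ, hδ1, hC₂, hR₁, hR₁c, H⟩ := hgt_geS hN hY hQ
  refine ⟨δ, C₂ + C₃, min R₁ (min R 1), hδ, hδ1, by positivity,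
    lt_min hR₁ (lt_min hR one_pos), fun r hr hr1 => ?_⟩
  have h1 : r < R₁ := hr1.trans_le (min_le_left _ _)
  have h2 : r < R := hr1.trans_le ((min_le_right _ _).trans (min_le_left _ _))
  have h3 : r < 1 := hr1.trans_le ((min_le_right _ _).trans (min_le_right _ _))
  unfold VV
  refine csSup_le ((nonempty_closedBall.2 hr.le).image _) ?_
  rintro x ⟨ρ, hρ, rfl⟩
  rw [mem_closedBall_zero_iff] at hρ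
  have hn := norm_nonneg ρ
  have hρR : ρ ∈ ball (0:ℂ) R := mem_ball_zero_iff.2 (hρ.trans_lt h2)
  have e1 := H ρ (hρ.trans_lt h1)
  have e2 := hm ρ hρR
  have e3 := (abs_le.1 (Complex.abs_im_le_norm (m ρ))).1
  have e4 : ‖ρ‖ ^ δ ≤ r ^ δ := Real.rpow_le_rpow hn hρ hδ.le
  have e5 : ‖ρ‖ ^ 2 ≤ r ^ δ := by
    calc ‖ρ‖ ^ 2 ≤ r ^ 2 := pow_le_pow_left₀ hn hρ 2
      _ = r ^ (2:ℝ) := (Real.rpow_two r).symm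
      _ ≤ r ^ δ := Real.rpow_le_rpow_of_exponent_ge hr h3.le (by linarith)
  have e6 : C₂ * ‖ρ‖ ^ δ ≤ C₂ * r ^ δ := mul_le_mul_of_nonneg_left e4 hC₂.le
  have e7 : C₃ * ‖ρ‖ ^ 2 ≤ C₃ * r ^ δ := mul_le_mul_of_nonneg_left e5 hC₃
  rw [hv ρ hρR]
  linarith

/-- the same for `vv` -/
theorem vv_leS (hN : ConE k F c h G) (hL : LbD F c h R L) (hY : SysOf Y G h) {B₀ : ℕ} {A₀ : ℝ}
    (hQ : ∀ l : ℂ, |l.im| < h → ‖Y.Q l‖ * (h - |l.im|) ^ B₀ ≤ A₀) :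
    ∃ δ C r₁ : ℝ, 0 < δ ∧ δ ≤ 1 ∧ 0 < C ∧ 0 < r₁ ∧
      ∀ r, 0 < r → r < r₁ → VV (vv F L c h) r ≤ C * r ^ δ := by
  obtain ⟨C₃, R₃, hC₃, hR₃, hR₃R, H₃⟩ := mm_bound hN hL
  exact v_leS (m := mm L) hN hY hQ hR₃ hC₃.le (fun ρ hρ => H₃ ρ (mem_ball_zero_iff.1 hρ))
    fun ρ _ => rfl

end Pool.Agent.MP_ae5b4e_an_NF
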