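import Pool.Agent.Lib.MP_ae5b4e_an_NF.MzS

/-!
# MP_ae5b4e_an, project NF: the label in the zone: the bound (finite height)
-/

noncomputable section

namespace Pool.Agent.MP_ae5b4e_an_NF

open Complex Set Filter Topology Metric
open Pool.Agent.MP_ae5b4e_an_NBT (St)
open Pool.Agent.MP_ae5b4e_an_NB2 (Sys)
open Pool.Agent.MP_ae5b4e_an_NB5 (Bs Zn cf cf_bound cf_shift four_sum Dc zA Hd half_max half_pl
  cpow_re cos_pow Mz)
open scoped ComplexConjugate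

open Pool.Agent.MP_ae5b4e_an_NBT (isOpen_St convex_St)

variable {Y : Sys} {T b C : ℝ} {L : ℂ × ℂ → ℂ}

/-- the terms of the Fourier series -/
private def MzB_f (L : ℂ × ℂ → ℂ) (t η : ℂ) (m : ℤ) : ℂ :=
  Dc L m η * exp (2 * Real.pi * I * m * t)

private theorem MzB_norm (t η : ℂ) (m : ℤ) :
    ‖MzB_f L t η m‖ = ‖Dc L m η‖ * Real.exp (-(2 * Real.pi * m * t.im)) := by
  rw [MzB_f, norm_mul, Complex.norm_exp]
  congr 2
  simp

private theorem MzB_geo {f : ℕ → ℂ} {K ρ : ℝ} (h0 : 0 ≤ ρ) (h1 : ρ < 1)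
    (h : ∀ n, ‖f n‖ ≤ K * ρ ^ n) : Summable f ∧ ‖∑' n, f n‖ ≤ K / (1 - ρ) := by
  have h2 := (hasSum_geometric_of_lt_one h0 h1).mul_left K
  refine ⟨Summable.of_norm_bounded h2.summable h, ?_⟩
  exact tsum_of_norm_bounded h2 h

private theorem MzB_exp {b : ℝ} (hb : 0 < b) :
    0 ≤ Real.exp (-(Real.pi * b)) ∧ Real.exp (-(Real.pi * b)) < 1 := by
  refine ⟨(Real.exp_pos _).le, ?_⟩
  rw [Real.exp_lt_one_iff]
  have := mul_pos Real.pi_pos hb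
  linarith

private theorem MzB_pos (hE : EntS Y T b C L) {t η : ℂ} (hη : ‖η‖ < b) (ht : 0 ≤ t.im) :
    Summable (fun n : ℕ => MzB_f L t η n) ∧
      ‖∑' n : ℕ, MzB_f L t η n‖ ≤ C / (1 - Real.exp (-(Real.pi * b))) * ‖η‖ ^ 2 := by
  obtain ⟨e0, e1⟩ := MzB_exp hE.b_pos
  have hC : 0 < C := lt_of_lt_of_le one_pos hE.C_one
  have h := MzB_geo (f := fun n : ℕ => MzB_f L t η n) (K := C * ‖η‖ ^ 2) e0 e1 (fun n => by
    rw [MzB_norm]
    have h1 := Dc_boundS hE (n : ℤ) (η := η) (by simpa using hη)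
    have h2 : Real.exp (-(2 * Real.pi * ((n : ℤ) : ℝ) * t.im)) ≤ 1 := by
      rw [Real.exp_le_one_iff]
      have : 0 ≤ 2 * Real.pi * ((n : ℤ) : ℝ) * t.im := by
        have := Real.pi_pos
        push_cast
        positivity
      linarith
    have h3 : Real.exp (-(2 * Real.pi * |((n : ℤ) : ℝ)| * b)) ≤
        Real.exp (-(Real.pi * b)) ^ n := by
      rw [← Real.exp_nat_mul, Real.exp_le_exp]
      have h4 : |((n : ℤ) : ℝ)| = n := by
        push_cast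
        exact abs_of_nonneg (Nat.cast_nonneg n)
      rw [h4]
      have : 0 ≤ Real.pi * n * b := by
        have := Real.pi_pos
        have := hE.b_pos
        positivity
      nlinarith
    calc ‖Dc L n η‖ * Real.exp (-(2 * Real.pi * ((n : ℤ) : ℝ) * t.im)) ≤
        (C * ‖η‖ ^ 2 * Real.exp (-(2 * Real.pi * |((n : ℤ) : ℝ)| * b))) * 1 := by gcongr
      _ ≤ C * ‖η‖ ^ 2 * Real.exp (-(Real.pi * b)) ^ n := by
        rw [mul_one]
        gcongr)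
  refine ⟨h.1, h.2.trans (le_of_eq ?_)⟩
  ring

private theorem MzB_neg (hE : EntS Y T b C L) {t η : ℂ} (hη : ‖η‖ < b) (ht : t.im ≤ b / 2) :
    Summable (fun n : ℕ => MzB_f L t η (-((n : ℤ) + 1))) ∧
      ‖∑' n : ℕ, MzB_f L t η (-((n : ℤ) + 1))‖ ≤
        C / (1 - Real.exp (-(Real.pi * b))) * ‖η‖ ^ 2 := by
  obtain ⟨e0, e1⟩ := MzB_exp hE.b_pos
  have hC : 0 < C := lt_of_lt_of_le one_pos hE.C_one
  have h := MzB_geo (f := fun n : ℕ => MzB_f L t η (-((n : ℤ) + 1))) (K := C * ‖η‖ ^ 2) e0 e1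
    (fun n => by
    rw [MzB_norm]
    have h1 := Dc_boundS hE (-((n : ℤ) + 1)) (η := η) (by simpa using hη)
    have h5 : ((-((n : ℤ) + 1) : ℤ) : ℝ) = -((n : ℝ) + 1) := by push_cast; ring
    have h4 : |((-((n : ℤ) + 1) : ℤ) : ℝ)| = (n : ℝ) + 1 := by
      rw [h5, abs_neg]
      exact abs_of_nonneg (by positivity)
    rw [h4] at h1
    have h3 : Real.exp (-(2 * Real.pi * ((n : ℝ) + 1) * b)) *
        Real.exp (-(2 * Real.pi * ((-((n : ℤ) + 1) : ℤ) : ℝ) * t.im)) ≤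
        Real.exp (-(Real.pi * b)) ^ n := by
      rw [← Real.exp_nat_mul, ← Real.exp_add, Real.exp_le_exp, h5]
      have h6 : 2 * Real.pi * ((n : ℝ) + 1) * t.im ≤ 2 * Real.pi * ((n : ℝ) + 1) * (b / 2) := by
        have := Real.pi_pos
        gcongr
      have : 0 ≤ Real.pi * b := by
        have := Real.pi_pos
        have := hE.b_pos
        positivity
      linarith
    calc ‖Dc L (-((n : ℤ) + 1)) η‖ *
          Real.exp (-(2 * Real.pi * ((-((n : ℤ) + 1) : ℤ) : ℝ) * t.im)) ≤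
        (C * ‖η‖ ^ 2 * Real.exp (-(2 * Real.pi * ((n : ℝ) + 1) * b))) *
          Real.exp (-(2 * Real.pi * ((-((n : ℤ) + 1) : ℤ) : ℝ) * t.im)) := by gcongr
      _ = C * ‖η‖ ^ 2 * (Real.exp (-(2 * Real.pi * ((n : ℝ) + 1) * b)) *
          Real.exp (-(2 * Real.pi * ((-((n : ℤ) + 1) : ℤ) : ℝ) * t.im))) := by ring
      _ ≤ C * ‖η‖ ^ 2 * Real.exp (-(Real.pi * b)) ^ n := by gcongr)
  refine ⟨h.1, h.2.trans (le_of_eq ?_)⟩
  ring

private theorem MzB_shift {g : ℂ → ℂ} {U : Set ℂ} (hg : AnalyticOnNhd ℂ g U) {w z : ℂ}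
    (h : z + w ∈ U) : AnalyticAt ℂ (fun z => g (z + w)) z := by
  have h1 : AnalyticAt ℂ (fun z => z + w) z := analyticAt_id.fun_add analyticAt_const
  exact AnalyticAt.fun_comp (g := g) (f := fun z => z + w) (hg _ h) h1

/-- The Fourier series of the extension along the vertical direction. -/
private theorem MzB_ext (hE : EntS Y T b C L) {r y : ℝ} (hr : 0 < r) (hrb : r < b) (hy : b / 2 ≤ y)
    {Λ : ℂ → ℂ} (hΛ : AnalyticOnNhd ℂ Λ (St (-(b / 2)) y))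
    (hL : ∀ t ∈ St (-(b / 2)) y, t.im < b / 2 → Λ t = L (t, r * I)) {t : ℂ}
    (ht : t ∈ St (-(b / 2)) y) : HasSum (MzB_f L t (r * I)) (Λ t - t) := by
  have hb := hE.b_pos
  have hrI : ‖(r : ℂ) * I‖ < b := by
    rw [norm_mul, norm_I, mul_one, norm_real, Real.norm_of_nonneg hr.le]
    exact hrb
  have hrI' : (r : ℂ) * I ∈ ball (0 : ℂ) b := by
    rw [mem_ball_zero_iff]
    exact hrI
  obtain ⟨g, hg⟩ : ∃ g : ℂ → ℂ, g = fun t => Λ t - t := ⟨_, rfl⟩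
  have gan : AnalyticOnNhd ℂ g (St (-(b / 2)) y) := by
    rw [hg]
    exact fun z hz => (hΛ z hz).fun_sub analyticAt_id
  have h0 : (0 : ℂ) ∈ St (-(b / 2)) y := by
    constructor
    · rw [zero_im]; linarith
    · rw [zero_im]; linarith
  have hshift : ∀ z ∈ St (-(b / 2)) y, z + 1 ∈ St (-(b / 2)) y := by
    intro z hz
    refine ⟨?_, ?_⟩
    · rw [add_im, one_im, add_zero]; exact hz.1
    · rw [add_im, one_im, add_zero]; exact hz.2
  have gper : ∀ z ∈ St (-(b / 2)) y, g (z + 1) = g z := by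
    have h1 : AnalyticOnNhd ℂ (fun z => g (z + 1)) (St (-(b / 2)) y) := fun z hz =>
      MzB_shift gan (hshift z hz)
    have h2 := h1.eqOn_of_preconnected_of_eventuallyEq gan
      (convex_St (-(b / 2)) y).isPreconnected h0 ?_
    · exact h2
    · have h3 : ∀ᶠ z in 𝓝 (0 : ℂ), z ∈ St (-(b / 2)) (b / 2) :=
        (isOpen_St (-(b / 2)) (b / 2)).mem_nhds (by
          constructor
          · rw [zero_im]; linarith
          · rw [zero_im]; linarith)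
      filter_upwards [h3] with z hz
      have hz1 : z ∈ St (-(b / 2)) y := ⟨hz.1, hz.2.trans_le hy⟩
      have hz2 := hshift z hz1
      have e1 := hL z hz1 hz.2
      have e2 := hL (z + 1) hz2 (by rw [add_im, one_im, add_zero]; exact hz.2)
      have hzb : (z, (r : ℂ) * I) ∈ Bs b :=
        ⟨⟨by linarith [hz.1], by linarith [hz.2]⟩, hrI'⟩
      have e3 := hE.per _ hzb
      rw [hg]
      simp only
      rw [e1, e2, e3]
      ring
  have hcf : ∀ m : ℤ, Dc L m (r * I) = cf g m := by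
    intro m
    rw [Dc, cf, cf]
    refine intervalIntegral.integral_congr fun x _ => ?_
    have hx : (x : ℂ) ∈ St (-(b / 2)) y := by
      constructor
      · rw [ofReal_im]; linarith
      · rw [ofReal_im]; linarith
    change (L (x, r * I) - x) * _ = g x * _
    rw [hg, ← hL x hx (by rw [ofReal_im]; linarith)]
  obtain ⟨c, hc⟩ : ∃ c : ℝ, c = (y - b / 2) / 2 := ⟨_, rfl⟩
  obtain ⟨a, ha⟩ : ∃ a : ℝ, a = (y + b / 2) / 2 := ⟨_, rfl⟩
  have ha0 : 0 < a := by rw [ha]; linarith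
  have hmem : ∀ z ∈ St (-a) a, z + c * I ∈ St (-(b / 2)) y := by
    intro z hz
    have e : (z + (c : ℂ) * I).im = z.im + c := by simp
    obtain ⟨h1, h2⟩ := hz
    refine ⟨?_, ?_⟩
    · rw [e]; linarith
    · rw [e]; linarith
  have g2an : AnalyticOnNhd ℂ (fun z => g (z + c * I)) (St (-a) a) := fun z hz =>
    MzB_shift gan (hmem z hz)
  have g2per : ∀ z ∈ St (-a) a, (fun z => g (z + c * I)) (z + 1) = (fun z => g (z + c * I)) z := by
    intro z hz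
    simp only
    rw [add_right_comm]
    exact gper _ (hmem z hz)
  have htm : t - c * I ∈ St (-a) a := by
    have e : (t - (c : ℂ) * I).im = t.im - c := by simp
    obtain ⟨h1, h2⟩ := ht
    refine ⟨?_, ?_⟩
    · rw [e]; linarith
    · rw [e]; linarith
  have key := four_sum ha0 g2an g2per htm
  simp only [sub_add_cancel] at key
  have e1 : g t = Λ t - t := by rw [hg]
  rw [e1] at key
  have e2 : MzB_f L t (r * I) = fun m : ℤ => cf (fun z => g (z + c * I)) m *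
      exp (2 * Real.pi * I * m * (t - c * I)) := by
    funext m
    have e3 : cf g m = exp (-(2 * Real.pi * I * m * (c * I))) * cf (fun z => g (z + c * I)) m := by
      rw [cf_shift gan gper (by linarith) (by linarith) (y := c) (by linarith) (by linarith) m, cf,
        ← intervalIntegral.integral_const_mul]
      refine intervalIntegral.integral_congr fun x _ => ?_
      change g (x + c * I) * exp (-(2 * Real.pi * I * m * (x + c * I))) =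
        exp (-(2 * Real.pi * I * m * (c * I))) * (g (x + c * I) * exp (-(2 * Real.pi * I * m * x)))
      have e4 : exp (-(2 * Real.pi * I * m * (x + c * I))) =
          exp (-(2 * Real.pi * I * m * (c * I))) * exp (-(2 * Real.pi * I * m * x)) := by
        rw [← Complex.exp_add]
        congr 1
        ring
      rw [e4]
      ring
    have e5 : exp (2 * Real.pi * I * m * (t - c * I)) =
        exp (-(2 * Real.pi * I * m * (c * I))) * exp (2 * Real.pi * I * m * t) := by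
      rw [← Complex.exp_add]
      congr 1
      ring
    rw [MzB_f, hcf, e3, e5]
    ring
  rw [e2]
  exact key

/-- The negative part on the imaginary axis. -/
private theorem MzB_imag (hE : EntS Y T b C L) {r y K : ℝ} (hr : 0 < r) (hrb : r < b)
    (hy : b / 2 ≤ y) {Λ : ℂ → ℂ} (hΛ : AnalyticOnNhd ℂ Λ (St (-(b / 2)) y))
    (hL : ∀ t ∈ St (-(b / 2)) y, t.im < b / 2 → Λ t = L (t, r * I)) {t : ℂ}
    (ht0 : 0 ≤ t.im) (ht : t.im < y) (hK : ‖Λ t - t‖ ≤ K) :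
    ‖∑' n : ℕ, MzB_f L t (r * I) (-((n : ℤ) + 1))‖ ≤
      K + C / (1 - Real.exp (-(Real.pi * b))) * r ^ 2 := by
  have hb := hE.b_pos
  have hrI : ‖(r : ℂ) * I‖ = r := by
    rw [norm_mul, norm_I, mul_one, norm_real, Real.norm_of_nonneg hr.le]
  have hs := MzB_ext hE hr hrb hy hΛ hL (t := t) ⟨by linarith, ht⟩
  have hp := MzB_pos hE (t := t) (η := r * I) (by rw [hrI]; exact hrb) ht0
  have hn : Summable (fun n : ℕ => MzB_f L t (r * I) (-((n : ℤ) + 1))) :=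
    hs.summable.comp_injective (i := fun n : ℕ => (-((n : ℤ) + 1) : ℤ)) (fun m n h => by
      have h' : (-((m : ℤ) + 1) : ℤ) = -((n : ℤ) + 1) := h
      omega)
  have h1 := tsum_of_nat_of_neg_add_one hp.1 hn
  rw [hs.tsum_eq] at h1
  have h2 : ∑' n : ℕ, MzB_f L t (r * I) (-((n : ℤ) + 1)) =
      (Λ t - t) - ∑' n : ℕ, MzB_f L t (r * I) n := by
    rw [h1]
    ring
  rw [h2]
  refine (norm_sub_le _ _).trans ?_
  have h3 := hp.2
  rw [hrI] at h3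
  exact add_le_add hK h3

private theorem MzB_evenf (hE : EntS Y T b C L) {t η : ℂ} (hη : ‖η‖ < b) (m : ℤ) :
    MzB_f L t (-η) m = MzB_f L t η m := by
  rw [MzB_f, MzB_f, Dc_evenS hE m (by rw [mem_ball_zero_iff]; exact hη)]

/-- the point below the zone -/
private def MzB_T (σ H a : ℝ) (B : ℕ) (x : ℂ) : ℂ := σ + I * (H - a * x ^ ((2:ℂ) / B))

private theorem MzB_T_im (σ H a : ℝ) (B : ℕ) (x : ℂ) :
    (MzB_T σ H a B x).im = H - a * (x ^ ((2:ℂ) / B)).re := by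
  rw [MzB_T]
  simp

private theorem MzB_Td (σ H a : ℝ) (B : ℕ) {x : ℂ} (hx : x ∈ slitPlane) :
    DifferentiableAt ℂ (MzB_T σ H a B) x := by
  have h1 : DifferentiableAt ℂ (fun x : ℂ => x ^ ((2:ℂ) / B)) x :=
    differentiableAt_id.cpow (differentiableAt_const _) hx
  unfold MzB_T
  exact (differentiableAt_const _).add ((differentiableAt_const _).mul
    ((differentiableAt_const _).sub ((differentiableAt_const _).mul h1)))

private theorem MzB_Fd (hE : EntS Y T b C L) (σ H a : ℝ) (B : ℕ) (m : ℤ) {x : ℂ}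
    (hx : x ∈ slitPlane) (hxb : ‖x‖ < b) :
    DifferentiableAt ℂ (fun x => MzB_f L (MzB_T σ H a B x) x m) x := by
  unfold MzB_f
  have h1 : DifferentiableAt ℂ (Dc L m) x :=
    (Dc_anS hE m x (by rw [mem_ball_zero_iff]; exact hxb)).differentiableAt
  exact h1.mul (((differentiableAt_const _).mul (MzB_Td σ H a B hx)).cexp)

private theorem MzB_slit {x : ℂ} (hx : x ≠ 0) (h : 0 ≤ x.re) : x ∈ slitPlane := by
  rw [mem_slitPlane_iff]
  rcases h.lt_or_eq with h1 | h1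
  · exact Or.inl h1
  · right
    intro h2
    apply hx
    apply Complex.ext
    · rw [← h1, zero_re]
    · rw [h2, zero_im]

/-- one term below the zone -/
private theorem MzB_term {B : ℕ} {H a a₂ c M : ℝ} {x T : ℂ} {n : ℕ}
    (h : ‖Dc L (-((n : ℤ) + 1)) x‖ ≤ M * Real.exp (-(2 * Real.pi * ((n : ℝ) + 1) *
      (H - a / c * (x ^ ((2:ℂ) / B)).re))))
    (hT : T.im = H - a₂ * (x ^ ((2:ℂ) / B)).re) :
    ‖MzB_f L T x (-((n : ℤ) + 1))‖ ≤
      M * Real.exp (-(2 * Real.pi * (a₂ - a / c) * (x ^ ((2:ℂ) / B)).re)) ^ (n + 1) := by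
  rw [MzB_norm, ← Real.exp_nat_mul]
  have h5 : ((-((n : ℤ) + 1) : ℤ) : ℝ) = -((n : ℝ) + 1) := by push_cast; ring
  rw [h5, hT]
  refine (mul_le_mul_of_nonneg_right h (Real.exp_pos _).le).trans (le_of_eq ?_)
  rw [mul_assoc, ← Real.exp_add]
  congr 2
  push_cast
  ring

private theorem MzB_sum {f : ℕ → ℂ} {M z : ℝ} (hM : 0 ≤ M) (hz : 0 < z)
    (h : ∀ n, ‖f n‖ ≤ M * Real.exp (-z) ^ (n + 1)) : Summable f ∧ ‖∑' n, f n‖ ≤ M / z := by
  have h1 : Real.exp (-z) < 1 := by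
    rw [Real.exp_lt_one_iff]
    linarith
  have h2 := MzB_geo (f := f) (K := M * Real.exp (-z)) (Real.exp_pos _).le h1 (fun n => by
    refine (h n).trans (le_of_eq ?_)
    rw [pow_succ]
    ring)
  refine ⟨h2.1, h2.2.trans ?_⟩
  rw [div_le_div_iff₀ (by linarith) hz]
  have h3 : z * Real.exp (-z) ≤ 1 - Real.exp (-z) := by
    have h4 := Real.add_one_le_exp z
    have h5 : Real.exp z * Real.exp (-z) = 1 := by
      rw [← Real.exp_add]
      simp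
    have h6 := mul_le_mul_of_nonneg_right h4 (Real.exp_pos (-z)).le
    rw [h5] at h6
    linarith
  calc M * Real.exp (-z) * z = M * (z * Real.exp (-z)) := by ring
    _ ≤ M * (1 - Real.exp (-z)) := by gcongr

private theorem MzB_cos {B : ℕ} (hB : 8 ≤ B) :
    9 / 10 ≤ Real.cos (Real.pi / B) ∧ Real.cos (Real.pi / B) ≤ 1 := by
  refine ⟨?_, Real.cos_le_one _⟩
  have h1 := Real.one_sub_sq_div_two_le_cos (x := Real.pi / B)
  have hB' : (8 : ℝ) ≤ B := by exact_mod_cast hB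
  have h2 : Real.pi / B ≤ 2 / 5 := by
    rw [div_le_iff₀ (by linarith)]
    have := Real.pi_lt_d2
    nlinarith
  have h3 : 0 ≤ Real.pi / B := by
    have := Real.pi_pos
    positivity
  nlinarith

private theorem MzB_pw {B : ℕ} (hB : 8 ≤ B) {s : ℝ} (hs : 0 ≤ s) :
    (s ^ ((2 : ℝ) / B)) ^ B = s ^ 2 := by
  have hB' : (B : ℝ) ≠ 0 := by
    have : B ≠ 0 := by omega
    exact_mod_cast this
  rw [← Real.rpow_natCast, ← Real.rpow_mul hs, div_mul_cancel₀ _ hB']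
  norm_num

private theorem MzB_a {B : ℕ} (hB : 8 ≤ B) {κ A : ℝ} (hκ : 0 < κ) (hA : 0 < A) :
    0 < zA κ A B ∧ zA κ A B ^ B = A / κ := by
  have hB' : (B : ℝ) ≠ 0 := by
    have : B ≠ 0 := by omega
    exact_mod_cast this
  have h0 : 0 < A / κ := div_pos hA hκ
  refine ⟨Real.rpow_pos_of_pos h0 _, ?_⟩
  rw [zA, ← Real.rpow_natCast, ← Real.rpow_mul h0.le, div_mul_cancel₀ _ hB', Real.rpow_one]

/-- consequences of the choice of the constants -/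
private theorem MzB_r {B : ℕ} {H A κ C₁ C' r : ℝ} (hB : 8 ≤ B) (hH : (B : ℝ) * b ≤ H) (hb : 0 < b)
    (hκ : 0 < κ) (hκ1 : κ ≤ 1) (hC1 : C' ≤ C₁ * H) (hb2 : 1 / b ^ 2 ≤ C₁)
    (hA : C₁ * B * H ^ B ≤ A) (hr : 0 < r) (hr0 : r ^ 2 * A ≤ κ * (H - b / 2) ^ B) :
    r < b ∧ C' * r ^ 2 ≤ zA κ A B * r ^ ((2 : ℝ) / B) / B := by
  have hB' : (8 : ℝ) ≤ B := by exact_mod_cast hB
  have hbH : 8 * b ≤ H := le_trans (by gcongr) hH
  have hH0 : 0 < H := by linarith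
  have hC0 : 0 < C₁ := lt_of_lt_of_le (by positivity) hb2
  have hA0 : 0 < A := lt_of_lt_of_le (by positivity) hA
  have hHb : 0 < H - b / 2 := by linarith
  have h1 : (H - b / 2) ^ B ≤ H ^ B := pow_le_pow_left₀ hHb.le (by linarith) B
  have hHB : 0 < H ^ B := by positivity
  have h2 : r ^ 2 * A ≤ H ^ B := by
    refine hr0.trans ?_
    calc κ * (H - b / 2) ^ B ≤ 1 * H ^ B := by gcongr
      _ = H ^ B := one_mul _
  have h3 : r ^ 2 * (C₁ * B) ≤ 1 := by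
    have h4 : r ^ 2 * (C₁ * B * H ^ B) ≤ H ^ B := le_trans (by gcongr) h2
    have h5 : r ^ 2 * (C₁ * B) * H ^ B ≤ 1 * H ^ B := by linarith
    exact le_of_mul_le_mul_right h5 hHB
  constructor
  · by_contra hcon
    push Not at hcon
    have h4 : b ^ 2 ≤ r ^ 2 := pow_le_pow_left₀ hb.le hcon 2
    have h5 : 1 ≤ C₁ * b ^ 2 := by
      rw [div_le_iff₀ (by positivity)] at hb2
      linarith
    have h6 : b ^ 2 * (C₁ * B) ≤ r ^ 2 * (C₁ * B) := by gcongr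
    nlinarith
  · obtain ⟨a0, aB⟩ := MzB_a hB hκ hA0
    set a := zA κ A B with ha
    set v : ℝ := a * r ^ ((2 : ℝ) / B) with hv
    have hv0 : 0 < v := by positivity
    have hvB : κ * v ^ B = r ^ 2 * A := by
      rw [hv, mul_pow, aB, MzB_pw hB hr.le]
      field_simp
    have hvH : v ≤ H := by
      have h4 : v ^ B ≤ H ^ B := by
        refine le_trans ?_ h1
        have : κ * v ^ B ≤ κ * (H - b / 2) ^ B := by rw [hvB]; exact hr0
        exact le_of_mul_le_mul_left this hκ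
      exact (pow_le_pow_iff_left₀ hv0.le (by linarith) (by omega)).1 h4
    obtain ⟨k, rfl⟩ : ∃ k, B = k + 1 := ⟨B - 1, by omega⟩
    have hHk : 0 < H ^ k := by positivity
    have h5 : v ^ (k + 1) ≤ v * H ^ k := by
      rw [pow_succ]
      have h6 : v ^ k ≤ H ^ k := pow_le_pow_left₀ hv0.le hvH k
      calc v ^ k * v ≤ H ^ k * v := by gcongr
        _ = v * H ^ k := by ring
    have h8 : r ^ 2 * (C₁ * ((k + 1 : ℕ) : ℝ) * H ^ (k + 1)) ≤ v * H ^ k := by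
      calc r ^ 2 * (C₁ * ((k + 1 : ℕ) : ℝ) * H ^ (k + 1)) ≤ r ^ 2 * A := by gcongr
        _ = κ * v ^ (k + 1) := hvB.symm
        _ ≤ 1 * (v * H ^ k) := by gcongr
        _ = v * H ^ k := one_mul _
    have h9 : r ^ 2 * (C₁ * ((k + 1 : ℕ) : ℝ) * H) ≤ v := by
      have : r ^ 2 * (C₁ * ((k + 1 : ℕ) : ℝ) * H) * H ^ k ≤ v * H ^ k := by
        rw [pow_succ] at h8
        calc _ = r ^ 2 * (C₁ * ((k + 1 : ℕ) : ℝ) * (H ^ k * H)) := by ring
          _ ≤ _ := h8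
      exact le_of_mul_le_mul_right this hHk
    rw [le_div_iff₀ (by linarith)]
    calc C' * r ^ 2 * ((k + 1 : ℕ) : ℝ) ≤ C₁ * H * r ^ 2 * ((k + 1 : ℕ) : ℝ) := by gcongr
      _ = r ^ 2 * (C₁ * ((k + 1 : ℕ) : ℝ) * H) := by ring
      _ ≤ v := h9

/-- continuity and differentiability of the sum -/
private theorem MzB_cd {F : ℕ → ℂ → ℂ} {B : ℕ} {r₀ M d : ℝ} (hB : 8 ≤ B) (hd : 0 < d)
    (hM : 0 ≤ M) (hrb : r₀ < b)
    (hF : ∀ n x, x ∈ slitPlane → ‖x‖ < b → DifferentiableAt ℂ (F n) x)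
    (hbd : ∀ n, ∀ x ∈ Hd r₀ \ {0}, ‖F n x‖ ≤
      M * Real.exp (-(2 * Real.pi * d * (x ^ ((2:ℂ) / B)).re)) ^ (n + 1)) :
    ContinuousOn (fun x => ∑' n, F n x) (Hd r₀ \ {0}) ∧
      DifferentiableOn ℂ (fun x => ∑' n, F n x) {z | ‖z‖ < r₀ ∧ 0 < z.re} := by
  obtain ⟨c0, c1⟩ := MzB_cos hB
  have key : ∀ ρ : ℝ, 0 < ρ → ∃ u : ℕ → ℝ, Summable u ∧
      ∀ n, ∀ x ∈ Hd r₀ \ {0}, ρ < ‖x‖ → ‖F n x‖ ≤ u n := by
    intro ρ hρ
    have hpos : 0 < 2 * Real.pi * d * (ρ ^ ((2:ℝ) / B) * Real.cos (Real.pi / B)) := by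
      have := Real.pi_pos
      have : 0 < Real.cos (Real.pi / B) := by linarith
      positivity
    refine ⟨fun n => M * Real.exp (-(2 * Real.pi * d *
      (ρ ^ ((2:ℝ) / B) * Real.cos (Real.pi / B)))) ^ (n + 1), ?_, ?_⟩
    · have h1 : Real.exp (-(2 * Real.pi * d *
          (ρ ^ ((2:ℝ) / B) * Real.cos (Real.pi / B)))) < 1 := by
        rw [Real.exp_lt_one_iff]
        linarith
      have h2 := (summable_geometric_of_lt_one (Real.exp_pos _).le h1)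
      refine Summable.mul_left M ?_
      exact (summable_nat_add_iff 1).2 h2
    · intro n x hx hxρ
      refine (hbd n x hx).trans ?_
      obtain ⟨h1, h2, -⟩ := cpow_re hB (z := x) hx.2 hx.1.2
      have h3 : ρ ^ ((2:ℝ) / B) * Real.cos (Real.pi / B) ≤ (x ^ ((2:ℂ) / B)).re := by
        refine le_trans ?_ h2
        have h4 : ρ ^ ((2:ℝ) / B) ≤ ‖x‖ ^ ((2:ℝ) / B) :=
          Real.rpow_le_rpow hρ.le hxρ.le (by positivity)
        have : 0 ≤ Real.cos (Real.pi / B) := by linarith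
        gcongr
      have h5 : 0 < 2 * Real.pi * d := by
        have := Real.pi_pos
        positivity
      have h6 : Real.exp (-(2 * Real.pi * d * (x ^ ((2:ℂ) / B)).re)) ≤
          Real.exp (-(2 * Real.pi * d * (ρ ^ ((2:ℝ) / B) * Real.cos (Real.pi / B)))) := by
        rw [Real.exp_le_exp]
        have := mul_le_mul_of_nonneg_left h3 h5.le
        linarith
      exact mul_le_mul_of_nonneg_left (pow_le_pow_left₀ (Real.exp_pos _).le h6 _) hM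
  constructor
  · intro x₀ hx₀
    have hx0 : 0 < ‖x₀‖ := norm_pos_iff.2 hx₀.2
    obtain ⟨u, hu, hub⟩ := key (‖x₀‖ / 2) (by linarith)
    have hc : ContinuousOn (fun x => ∑' n, F n x) {x | x ∈ Hd r₀ \ {0} ∧ ‖x₀‖ / 2 < ‖x‖} := by
      refine continuousOn_tsum (fun n x hx => ?_) hu (fun n x hx => hub n x hx.1 hx.2)
      exact (hF n x (MzB_slit hx.1.2 hx.1.1.2)
        (hx.1.1.1.trans_lt hrb)).continuousAt.continuousWithinAt
    refine (hc x₀ ⟨hx₀, by linarith⟩).mono_of_mem_nhdsWithin ?_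
    have h1 : ∀ᶠ x in 𝓝 x₀, ‖x₀‖ / 2 < ‖x‖ :=
      continuous_norm.continuousAt.eventually_const_lt (by linarith)
    filter_upwards [self_mem_nhdsWithin, mem_nhdsWithin_of_mem_nhds h1] with x h2 h3
    exact ⟨h2, h3⟩
  · intro x₀ hx₀
    have hx0 : x₀ ≠ 0 := by
      rintro rfl
      exact lt_irrefl _ hx₀.2
    have hx0' : 0 < ‖x₀‖ := norm_pos_iff.2 hx0
    obtain ⟨u, hu, hub⟩ := key (‖x₀‖ / 2) (by linarith)
    have ho : IsOpen {x : ℂ | ‖x‖ < r₀ ∧ 0 < x.re ∧ ‖x₀‖ / 2 < ‖x‖} := by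
      refine (isOpen_lt continuous_norm continuous_const).inter
        ((isOpen_lt continuous_const continuous_re).inter
          (isOpen_lt continuous_const continuous_norm))
    have hd : DifferentiableOn ℂ (fun x => ∑' n, F n x)
        {x : ℂ | ‖x‖ < r₀ ∧ 0 < x.re ∧ ‖x₀‖ / 2 < ‖x‖} := by
      refine differentiableOn_tsum_of_summable_norm hu (fun n x hx => ?_) ho
        (fun n x hx => hub n x ⟨⟨hx.1.le, hx.2.1.le⟩, ?_⟩ hx.2.2)
      · exact (hF n x (Or.inl hx.2.1) (hx.1.trans hrb)).differentiableWithinAt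
      · rintro rfl
        exact lt_irrefl _ hx.2.1
    exact (hd.differentiableAt (ho.mem_nhds ⟨hx₀.1, hx₀.2, by linarith⟩)).differentiableWithinAt

private theorem MzB_arc {B : ℕ} {H A κ a a₂ c r₀ : ℝ} (hB : 8 ≤ B)
    (hc : c = Real.cos (Real.pi / B)) (hκ : 0 < κ) (a0 : 0 < a)
    (aB : a ^ B = A / κ) (h20 : 0 < a₂) (hac : a < a₂ * c) (hHb : 0 < H - b / 2)
    (hr : r₀ ^ 2 * A = κ * (H - b / 2) ^ B) {x : ℂ} (hx : x ∈ Hd r₀ \ {0}) (h : ‖x‖ = r₀) :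
    H - a₂ * (x ^ ((2:ℂ) / B)).re ≤ b / 2 := by
  obtain ⟨-, h2, -⟩ := cpow_re hB (z := x) hx.2 hx.1.2
  rw [← hc] at h2
  have h3 : 0 < ‖x‖ ^ ((2:ℝ) / B) := Real.rpow_pos_of_pos (norm_pos_iff.2 hx.2) _
  have h4 : H - b / 2 ≤ a * ‖x‖ ^ ((2:ℝ) / B) := by
    have h5 : (H - b / 2) ^ B ≤ (a * ‖x‖ ^ ((2:ℝ) / B)) ^ B := by
      rw [mul_pow, MzB_pw hB (norm_nonneg _), aB, h]
      have h6 : A / κ * r₀ ^ 2 = (r₀ ^ 2 * A) / κ := by ring
      rw [h6, hr]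
      exact le_of_eq (by field_simp)
    exact (pow_le_pow_iff_left₀ hHb.le (by positivity) (by omega)).1 h5
  have h7 : a * ‖x‖ ^ ((2:ℝ) / B) ≤ a₂ * (x ^ ((2:ℂ) / B)).re := by
    calc a * ‖x‖ ^ ((2:ℝ) / B) ≤ a₂ * c * ‖x‖ ^ ((2:ℝ) / B) := by gcongr
      _ = a₂ * (‖x‖ ^ ((2:ℝ) / B) * c) := by ring
      _ ≤ a₂ * (x ^ ((2:ℂ) / B)).re := by gcongr
  linarith

private theorem MzB_two {r : ℝ} {x : ℂ} (hr : r = ‖x‖) (hx0 : x.re = 0) :
    x = r * I ∨ x = -(r * I) := by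
  have e4 : ‖x‖ = |x.im| := by
    have e5 : x = x.im * I := by
      apply Complex.ext
      · simp [hx0]
      · simp
    rw [e5, norm_mul, norm_I, mul_one, norm_real, Real.norm_eq_abs]
    simp
  rw [← hr] at e4
  rcases abs_cases x.im with ⟨e6, -⟩ | ⟨e6, -⟩
  · left
    apply Complex.ext
    · simp [hx0]
    · simp [e4, e6]
  · right
    apply Complex.ext
    · simp [hx0]
    · simp [e4, e6]

private theorem MzB_imq (hE : EntS Y T b C L) {B : ℕ} {H A κ a a₂ c r w : ℝ} {x T : ℂ} (hB : 0 < B)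
    (c0 : 0 < c) (c1 : c ≤ 1) (hκ : 0 < κ) (hκ1 : κ ≤ 1) (a0 : 0 < a)
    (aB : a ^ B = A / κ) (h20 : 0 < a₂) (hac : a < a₂ * c) (hA0 : 0 < A)
    (hv : ∀ r y : ℝ, 0 < r → 0 ≤ y → y < H → r ^ 2 * A ≤ κ * (H - y) ^ B →
      ∃ Λ : ℂ → ℂ, AnalyticOnNhd ℂ Λ (St (-(b / 2)) y) ∧
          (∀ t ∈ St (-(b / 2)) y, t.im < b / 2 → Λ t = L (t, r * I)) ∧
          ∀ t ∈ St 0 y, ‖Λ t - t‖ ≤ 300 * (r ^ 2 * A / (H - t.im) ^ B) * ((H - t.im) / B))
    (hr : 0 < r) (hrb : r < b) (hw : 0 < w) (hwB : w ^ B = r ^ 2) (h : b / 2 < H - a₂ * (w * c))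
    (hTi : T.im = H - a₂ * (w * c)) (hx : x = r * I ∨ x = -(r * I)) :
    ‖∑' n : ℕ, MzB_f L T x (-((n : ℤ) + 1))‖ ≤ 300 * (a₂ * w / B) +
      C / (1 - Real.exp (-(Real.pi * b))) * r ^ 2 := by
  have hb := hE.b_pos
  have hB' : (0 : ℝ) < B := by exact_mod_cast hB
  have hawc : a * w < a₂ * (w * c) := by
    calc a * w < a₂ * c * w := by gcongr
      _ = a₂ * (w * c) := by ring
  have hrA : r ^ 2 * A = κ * (H - (H - a * w)) ^ B := by
    rw [sub_sub_cancel, mul_pow, aB, hwB]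
    field_simp
  have hy0 : b / 2 ≤ H - a * w := by linarith
  obtain ⟨Λ, l1, l2, l3⟩ := hv r (H - a * w) hr (by linarith)
    (by have := mul_pos a0 hw; linarith) hrA.le
  have l4 := l3 T ⟨by rw [hTi]; linarith, by rw [hTi]; linarith⟩
  have e1 : 0 < a₂ * (w * c) := by positivity
  have l5 : r ^ 2 * A / (H - T.im) ^ B ≤ 1 := by
    rw [hTi, sub_sub_cancel, div_le_one (by positivity), hrA, sub_sub_cancel]
    calc κ * (a * w) ^ B ≤ 1 * (a₂ * (w * c)) ^ B := by gcongr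
      _ = _ := one_mul _
  have e2 : (H - T.im) / B ≤ a₂ * w / B := by
    rw [hTi, sub_sub_cancel]
    have : w * c ≤ w * 1 := by gcongr
    rw [mul_one] at this
    gcongr
  have e3 : 0 ≤ (H - T.im) / B := by
    rw [hTi, sub_sub_cancel]
    positivity
  have l6 : ‖Λ T - T‖ ≤ 300 * (a₂ * w / B) := by
    refine l4.trans ?_
    calc 300 * (r ^ 2 * A / (H - T.im) ^ B) * ((H - T.im) / B) ≤
          300 * 1 * ((H - T.im) / B) := by gcongr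
      _ ≤ 300 * 1 * (a₂ * w / B) := by gcongr
      _ = 300 * (a₂ * w / B) := by ring
  have l7 := MzB_imag hE hr hrb hy0 l1 l2 (t := T)
    (by rw [hTi]; linarith) (by rw [hTi]; linarith) l6
  rcases hx with e | e
  · rw [e]
    exact l7
  · have e7 : (fun n : ℕ => MzB_f L T x (-((n : ℤ) + 1))) =
        fun n : ℕ => MzB_f L T (r * I) (-((n : ℤ) + 1)) := by
      funext n
      have e8 : ‖(r : ℂ) * I‖ < b := by
        rw [norm_mul, norm_I, mul_one, norm_real, Real.norm_of_nonneg hr.le]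
        exact hrb
      rw [← MzB_evenf hE e8, ← e]
    rw [e7]
    exact l7

/-- the bound on the imaginary axis above the base region -/
private theorem MzB_im2 (hE : EntS Y T b C L) {B : ℕ} {H A κ a a₂ c σ : ℝ} {x : ℂ} (hB : 8 ≤ B)
    (hc : c = Real.cos (Real.pi / B)) (c0 : 0 < c) (c1 : c ≤ 1) (hκ : 0 < κ) (hκ1 : κ ≤ 1)
    (a0 : 0 < a) (aB : a ^ B = A / κ) (h20 : 0 < a₂) (hac : a < a₂ * c) (hA0 : 0 < A)
    (hv : ∀ r y : ℝ, 0 < r → 0 ≤ y → y < H → r ^ 2 * A ≤ κ * (H - y) ^ B →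
      ∃ Λ : ℂ → ℂ, AnalyticOnNhd ℂ Λ (St (-(b / 2)) y) ∧
          (∀ t ∈ St (-(b / 2)) y, t.im < b / 2 → Λ t = L (t, r * I)) ∧
          ∀ t ∈ St 0 y, ‖Λ t - t‖ ≤ 300 * (r ^ 2 * A / (H - t.im) ^ B) * ((H - t.im) / B))
    (hx : x ≠ 0) (hx0 : x.re = 0) (hxb : ‖x‖ < b)
    (h : b / 2 < H - a₂ * (x ^ ((2:ℂ) / B)).re) :
    ‖∑' n : ℕ, MzB_f L (MzB_T σ H a₂ B x) x (-((n : ℤ) + 1))‖ ≤
      300 * (a₂ * ‖x‖ ^ ((2:ℝ) / B) / B) + C / (1 - Real.exp (-(Real.pi * b))) * ‖x‖ ^ 2 := by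
  obtain ⟨-, -, h4⟩ := cpow_re hB (z := x) hx hx0.ge
  have hxn : 0 < ‖x‖ := norm_pos_iff.2 hx
  rw [← hc] at h4
  rw [h4 hx0] at h
  exact MzB_imq hE (w := ‖x‖ ^ ((2:ℝ) / B)) (by omega) c0 c1 hκ hκ1 a0 aB h20 hac hA0 hv
    hxn hxb (Real.rpow_pos_of_pos hxn _) (MzB_pw hB hxn.le) h
    (by rw [MzB_T_im, h4 hx0]) (MzB_two rfl hx0)

/-- the growth at zero -/
private theorem MzB_gr {D x : ℂ} {B : ℕ} {M d c : ℝ} (hB : 8 ≤ B)
    (hc : c = Real.cos (Real.pi / B)) (c0 : 0 < c) (hd : 0 < d) (hM : 0 ≤ M)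
    (hx : x ≠ 0) (hre : 0 ≤ x.re) (hx1 : ‖x‖ ≤ 1)
    (h : ‖D‖ ≤ M / (2 * Real.pi * d * (x ^ ((2:ℂ) / B)).re)) :
    ‖D / x ^ ((2:ℂ) / B)‖ ≤ M / (2 * Real.pi * d * c) / ‖x‖ ^ 2 := by
  obtain ⟨h1, h2, -⟩ := cpow_re hB (z := x) hx hre
  rw [← hc] at h2
  have hB8 : (8 : ℝ) ≤ B := by exact_mod_cast hB
  have hx0 : 0 < ‖x‖ := norm_pos_iff.2 hx
  have hpi := Real.pi_pos
  have h6 : ‖x‖ ≤ ‖x‖ ^ ((2:ℝ) / B) := by
    have h7 := Real.rpow_le_rpow_of_exponent_ge hx0 hx1 (show (2:ℝ) / B ≤ 1 by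
      rw [div_le_one (by linarith)]
      linarith)
    rwa [Real.rpow_one] at h7
  obtain ⟨w, hw⟩ : ∃ w, w = ‖x‖ ^ ((2:ℝ) / B) := ⟨_, rfl⟩
  obtain ⟨q, hq⟩ : ∃ q, q = (x ^ ((2:ℂ) / B)).re := ⟨_, rfl⟩
  have hw0 : 0 < w := by rw [hw]; positivity
  rw [← hw] at h1 h2 h6
  rw [← hq] at h2 h
  have hq0 : 0 < q := lt_of_lt_of_le (mul_pos hw0 c0) h2
  rw [norm_div, h1]
  have h8 : ‖D‖ / w ≤ M / (2 * Real.pi * d * (w * c)) / w := by
    have : M / (2 * Real.pi * d * q) ≤ M / (2 * Real.pi * d * (w * c)) := by gcongr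
    have := h.trans this
    gcongr
  refine h8.trans ?_
  have h9 : M / (2 * Real.pi * d * (w * c)) / w = M / (2 * Real.pi * d * c) / w ^ 2 := by
    field_simp
  rw [h9]
  gcongr

private theorem MzB_bd {D x : ℂ} {B : ℕ} {a₂ K : ℝ} (hB : 8 ≤ B) (hx : x ≠ 0) (hre : 0 ≤ x.re)
    (hK : K ≤ a₂ * ‖x‖ ^ ((2:ℝ) / B) / B) (h : ‖D‖ ≤ 300 * (a₂ * ‖x‖ ^ ((2:ℝ) / B) / B) + K) :
    ‖D / x ^ ((2:ℂ) / B)‖ ≤ 301 * (a₂ / B) := by
  obtain ⟨h1, -, -⟩ := cpow_re hB (z := x) hx hre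
  have h3 : 0 < ‖x‖ ^ ((2:ℝ) / B) := Real.rpow_pos_of_pos (norm_pos_iff.2 hx) _
  rw [norm_div, h1, div_le_iff₀ h3]
  calc ‖D‖ ≤ 300 * (a₂ * ‖x‖ ^ ((2:ℝ) / B) / B) + a₂ * ‖x‖ ^ ((2:ℝ) / B) / B := by linarith
    _ = 301 * (a₂ / B) * ‖x‖ ^ ((2:ℝ) / B) := by ring

/-- Phragmen-Lindelof in the half disc -/
private theorem MzB_core (hE : EntS Y T b C L) {B : ℕ} {H A κ a a₂ c d M r₀ σ : ℝ} (hB : 8 ≤ B)
    (hc : c = Real.cos (Real.pi / B)) (c0 : 0 < c) (c1 : c ≤ 1) (hκ : 0 < κ) (hκ1 : κ ≤ 1)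
    (a0 : 0 < a) (aB : a ^ B = A / κ) (h20 : 0 < a₂) (hac : a < a₂ * c) (hA0 : 0 < A)
    (hd0 : 0 < d) (hM : 0 ≤ M) (hHb : 0 < H - b / 2) (hr₀0 : 0 < r₀) (hrb : r₀ < b)
    (hr : r₀ ^ 2 * A = κ * (H - b / 2) ^ B)
    (hv : ∀ r y : ℝ, 0 < r → 0 ≤ y → y < H → r ^ 2 * A ≤ κ * (H - y) ^ B →
      ∃ Λ : ℂ → ℂ, AnalyticOnNhd ℂ Λ (St (-(b / 2)) y) ∧
          (∀ t ∈ St (-(b / 2)) y, t.im < b / 2 → Λ t = L (t, r * I)) ∧
          ∀ t ∈ St 0 y, ‖Λ t - t‖ ≤ 300 * (r ^ 2 * A / (H - t.im) ^ B) * ((H - t.im) / B))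
    (hstar : ∀ x ∈ Hd r₀ \ {0},
      C / (1 - Real.exp (-(Real.pi * b))) * ‖x‖ ^ 2 ≤ a₂ * ‖x‖ ^ ((2:ℝ) / B) / B)
    (hterm : ∀ n : ℕ, ∀ x ∈ Hd r₀ \ {0}, ‖MzB_f L (MzB_T σ H a₂ B x) x (-((n : ℤ) + 1))‖ ≤
      M * Real.exp (-(2 * Real.pi * d * (x ^ ((2:ℂ) / B)).re)) ^ (n + 1))
    {η : ℂ} (hη : η ∈ Hd r₀ \ {0}) :
    ‖(∑' n : ℕ, MzB_f L (MzB_T σ H a₂ B η) η (-((n : ℤ) + 1))) / η ^ ((2:ℂ) / B)‖ ≤
      301 * (a₂ / B) := by
  have hB8 : (8 : ℝ) ≤ B := by exact_mod_cast hB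
  obtain ⟨hcont, hdiff⟩ := MzB_cd
    (F := fun n x => MzB_f L (MzB_T σ H a₂ B x) x (-((n : ℤ) + 1))) hB hd0 hM hrb
    (fun n x hx hxb => MzB_Fd hE σ H a₂ B _ hx hxb) hterm
  obtain ⟨D, hD⟩ : ∃ D : ℂ → ℂ, D = fun x =>
    ∑' n : ℕ, MzB_f L (MzB_T σ H a₂ B x) x (-((n : ℤ) + 1)) := ⟨_, rfl⟩
  have hDx : ∀ x, D x = ∑' n : ℕ, MzB_f L (MzB_T σ H a₂ B x) x (-((n : ℤ) + 1)) := fun x => by
    rw [hD]
  change ContinuousOn (fun x => ∑' n : ℕ, MzB_f L (MzB_T σ H a₂ B x) x (-((n : ℤ) + 1))) _ at hcont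
  change DifferentiableOn ℂ
    (fun x => ∑' n : ℕ, MzB_f L (MzB_T σ H a₂ B x) x (-((n : ℤ) + 1))) _ at hdiff
  rw [← hD] at hcont hdiff
  rw [← hDx]
  have hxb : ∀ x ∈ Hd r₀ \ {0}, ‖x‖ < b := fun x hx => hx.1.1.trans_lt hrb
  have hlow : ∀ x ∈ Hd r₀ \ {0}, H - a₂ * (x ^ ((2:ℂ) / B)).re ≤ b / 2 →
      ‖D x / x ^ ((2:ℂ) / B)‖ ≤ 301 * (a₂ / B) := by
    intro x hx h
    refine MzB_bd hB hx.2 hx.1.2 (hstar x hx) ?_
    have h1 := (MzB_neg hE (t := MzB_T σ H a₂ B x) (hxb x hx)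
      (by rw [MzB_T_im]; exact h)).2
    have h2 : 0 ≤ 300 * (a₂ * ‖x‖ ^ ((2:ℝ) / B) / B) := by positivity
    rw [hDx]
    exact h1.trans (by linarith)
  have hpne : ∀ x ∈ Hd r₀ \ {0}, x ^ ((2:ℂ) / B) ≠ 0 := by
    intro x hx h
    obtain ⟨h1, -, -⟩ := cpow_re hB (z := x) hx.2 hx.1.2
    rw [h, norm_zero] at h1
    have : 0 < ‖x‖ ^ ((2:ℝ) / B) := Real.rpow_pos_of_pos (norm_pos_iff.2 hx.2) _
    linarith
  have hpd : ∀ x : ℂ, x ∈ slitPlane → DifferentiableAt ℂ (fun x : ℂ => x ^ ((2:ℂ) / B)) x :=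
    fun x hx => differentiableAt_id.cpow (differentiableAt_const _) hx
  refine half_pl (f := fun x => D x / x ^ ((2:ℂ) / B)) (M := 301 * (a₂ / B))
    (K := M / (2 * Real.pi * d * c)) hr₀0 (by positivity)
    (hcont.div (fun x hx => (hpd x (MzB_slit hx.2 hx.1.2)).continuousAt.continuousWithinAt) hpne)
    (hdiff.div (fun x hx => (hpd x (Or.inl hx.2)).differentiableWithinAt)
      (fun x hx => hpne x ⟨⟨hx.1.le, hx.2.le⟩, by
        rintro rfl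
        exact lt_irrefl _ hx.2⟩)) ?_ ?_ ?_ η hη
  · intro x hx
    refine MzB_gr hB hc c0 hd0 hM hx.2 hx.1.2 ((hxb x hx).le.trans hE.b_le) ?_
    obtain ⟨-, h2, -⟩ := cpow_re hB (z := x) hx.2 hx.1.2
    rw [← hc] at h2
    have h3 : 0 < (x ^ ((2:ℂ) / B)).re :=
      lt_of_lt_of_le (mul_pos (Real.rpow_pos_of_pos (norm_pos_iff.2 hx.2) _) c0) h2
    have hpi := Real.pi_pos
    rw [hDx]
    exact (MzB_sum hM (by positivity) (fun n => hterm n x hx)).2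
  · intro x hx h
    exact hlow x hx (MzB_arc hB hc hκ a0 aB h20 hac hHb hr hx h)
  · intro x hx hx0
    rcases le_or_gt (H - a₂ * (x ^ ((2:ℂ) / B)).re) (b / 2) with h | h
    · exact hlow x hx h
    · refine MzB_bd hB hx.2 hx.1.2 (hstar x hx) ?_
      rw [hDx]
      exact MzB_im2 hE hB hc c0 c1 hκ hκ1 a0 aB h20 hac hA0 hv hx.2 hx0 (hxb x hx) h

/-- the negative part in the zone -/
private theorem MzB_main (hE : EntS Y T b C L) {B : ℕ} {H A κ C₁ M : ℝ} (hm : MajS Y T b B H A)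
    (hκ : 0 < κ) (hκ1 : κ ≤ 1) (hC1 : C / (1 - Real.exp (-(Real.pi * b))) ≤ C₁ * H)
    (hb2 : 1 / b ^ 2 ≤ C₁) (hA : C₁ * B * H ^ B ≤ A)
    (hco : ∀ (n : ℕ) (x : ℂ), 0 ≤ x.re → x ≠ 0 → ‖x‖ ^ 2 * A ≤ κ * (H - b / 2) ^ B →
      ‖Dc L (-((n : ℤ) + 1)) x‖ ≤ M * Real.exp (-(2 * Real.pi * ((n : ℝ) + 1) *
        (H - zA κ A B / Real.cos (Real.pi / B) * (x ^ ((2:ℂ) / B)).re))))
    (hM : 0 ≤ M)
    (hv : ∀ r y : ℝ, 0 < r → 0 ≤ y → y < H → r ^ 2 * A ≤ κ * (H - y) ^ B →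
      ∃ Λ : ℂ → ℂ, AnalyticOnNhd ℂ Λ (St (-(b / 2)) y) ∧
          (∀ t ∈ St (-(b / 2)) y, t.im < b / 2 → Λ t = L (t, r * I)) ∧
          ∀ t ∈ St 0 y, ‖Λ t - t‖ ≤ 300 * (r ^ 2 * A / (H - t.im) ^ B) * ((H - t.im) / B))
    {t η : ℂ} (ht0 : 0 < t.im) (htH : t.im < H)
    (hz : ‖η‖ ^ 2 * A < κ / 4 * (H - t.im) ^ B) (hre : 0 ≤ η.re) (hη : η ≠ 0) :
    Summable (fun n : ℕ => MzB_f L t η (-((n : ℤ) + 1))) ∧
    ‖∑' n : ℕ, MzB_f L t η (-((n : ℤ) + 1))‖ ≤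
      301 * (H - t.im) / (B * Real.cos (Real.pi / B)) := by
  have hB := hm.B_ge
  have hH := hm.b_ge
  have hA0 := hm.A_pos
  have hb := hE.b_pos
  have hb1 := hE.b_le
  have hB8 : (8 : ℝ) ≤ B := by exact_mod_cast hB
  have hbH : 8 * b ≤ H := le_trans (by gcongr) hH
  have hH0 : 0 < H := by linarith
  have hHt : 0 < H - t.im := by linarith
  obtain ⟨c9, c1⟩ := MzB_cos hB
  obtain ⟨c, hc⟩ : ∃ c, c = Real.cos (Real.pi / B) := ⟨_, rfl⟩
  have hcB : 1 / 2 ≤ c ^ B := by rw [hc]; exact cos_pow hB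
  obtain ⟨a0, aB⟩ := MzB_a hB hκ hA0
  obtain ⟨a, ha⟩ : ∃ a, a = zA κ A B := ⟨_, rfl⟩
  rw [← hc] at c9 c1 hco ⊢
  rw [← ha] at a0 aB hco
  have c0 : 0 < c := by linarith
  have hηn : 0 < ‖η‖ := norm_pos_iff.2 hη
  -- the parameters
  obtain ⟨q1, q2, -⟩ := cpow_re hB hη hre
  rw [← hc] at q2
  obtain ⟨q, hq⟩ : ∃ q, q = (η ^ ((2:ℂ) / B)).re := ⟨_, rfl⟩
  rw [← hq] at q2
  have hw0 : 0 < ‖η‖ ^ ((2:ℝ) / B) := by positivity
  have hq0 : 0 < q := lt_of_lt_of_le (mul_pos hw0 c0) q2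
  have hqle : q ≤ ‖η‖ ^ ((2:ℝ) / B) := by
    rw [hq, ← q1]
    exact Complex.re_le_norm _
  obtain ⟨a₂, ha₂⟩ : ∃ a₂, a₂ = (H - t.im) / q := ⟨_, rfl⟩
  have ha₂0 : 0 < a₂ := by rw [ha₂]; positivity
  have ha₂q : a₂ * q = H - t.im := by
    rw [ha₂]
    field_simp
  obtain ⟨σ, hσ⟩ : ∃ σ : ℝ, σ = t.re + a₂ * (-(η ^ ((2:ℂ) / B)).im) := ⟨_, rfl⟩
  have hTη : MzB_T σ H a₂ B η = t := by
    apply Complex.ext
    · rw [MzB_T]
      simp [hσ]
    · rw [MzB_T_im, ← hq, ha₂q]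
      ring
  -- `a₂ c > a`
  have hac : a < a₂ * c := by
    have h1 : (H - t.im) ^ B ≤ (a₂ * ‖η‖ ^ ((2:ℝ) / B)) ^ B := by
      refine pow_le_pow_left₀ hHt.le ?_ B
      rw [← ha₂q]
      gcongr
    rw [mul_pow, MzB_pw hB hηn.le] at h1
    have h2 : ‖η‖ ^ 2 * A < κ / 4 * (a₂ ^ B * ‖η‖ ^ 2) := by
      refine hz.trans_le ?_
      gcongr
    have h3 : A < κ / 4 * a₂ ^ B := by
      have h4 : A * ‖η‖ ^ 2 < κ / 4 * a₂ ^ B * ‖η‖ ^ 2 := by linarith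
      exact lt_of_mul_lt_mul_right h4 (by positivity)
    have h5 : a ^ B < (a₂ * c) ^ B := by
      rw [aB, mul_pow, div_lt_iff₀ hκ]
      have h6 : a₂ ^ B * (1 / 2) ≤ a₂ ^ B * c ^ B := by gcongr
      nlinarith
    exact lt_of_pow_lt_pow_left₀ B (by positivity) h5
  have haa₂ : a ≤ a₂ := hac.le.trans (by nlinarith)
  obtain ⟨d, hd⟩ : ∃ d, d = a₂ - a / c := ⟨_, rfl⟩
  have hd0 : 0 < d := by
    rw [hd, sub_pos, div_lt_iff₀ c0]
    exact hac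
  -- the radius
  have hHb : 0 < H - b / 2 := by linarith
  obtain ⟨r₀, hr₀⟩ : ∃ r₀, r₀ = √(κ * (H - b / 2) ^ B / A) := ⟨_, rfl⟩
  have hr₀0 : 0 < r₀ := by rw [hr₀]; positivity
  have hr₀2 : r₀ ^ 2 * A = κ * (H - b / 2) ^ B := by
    rw [hr₀, Real.sq_sqrt (by positivity)]
    field_simp
  have hxr : ∀ x ∈ Hd r₀, ‖x‖ ^ 2 * A ≤ κ * (H - b / 2) ^ B := by
    intro x hx
    rw [← hr₀2]
    have : ‖x‖ ^ 2 ≤ r₀ ^ 2 := pow_le_pow_left₀ (norm_nonneg _) hx.1 2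
    gcongr
  have hstar : ∀ x ∈ Hd r₀ \ {0}, ‖x‖ < b ∧
      C / (1 - Real.exp (-(Real.pi * b))) * ‖x‖ ^ 2 ≤ a₂ * ‖x‖ ^ ((2:ℝ) / B) / B := by
    intro x hx
    obtain ⟨h1, h2⟩ := MzB_r hB hH hb hκ hκ1 hC1 hb2 hA (norm_pos_iff.2 hx.2) (hxr x hx.1)
    refine ⟨h1, h2.trans ?_⟩
    rw [← ha]
    gcongr
  have hrb : r₀ < b :=
    (MzB_r hB hH hb hκ hκ1 hC1 hb2 hA hr₀0 hr₀2.le).1
  have hηmem : η ∈ Hd r₀ \ {0} := by
    refine ⟨⟨?_, hre⟩, hη⟩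
    have h1 : (H - t.im) ^ B ≤ H ^ B := pow_le_pow_left₀ hHt.le (by linarith) B
    have h2 : H ^ B * (1 / 2) ≤ (H - b / 2) ^ B := by
      have h3 := one_add_mul_le_pow (a := -(b / (2 * H))) (by
        have : b / (2 * H) ≤ 1 := by
          rw [div_le_one (by linarith)]
          linarith
        linarith) B
      have h4 : (1 : ℝ) / 2 ≤ 1 + (B : ℝ) * -(b / (2 * H)) := by
        have h5 : (B : ℝ) * (b / (2 * H)) ≤ 1 / 2 := by
          rw [← mul_div_assoc, div_le_iff₀ (by linarith)]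
          nlinarith
        linarith
      have h6 : H - b / 2 = H * (1 + -(b / (2 * H))) := by
        field_simp
        ring
      rw [h6, mul_pow]
      have h7 : 0 < H ^ B := by positivity
      have h8 := h4.trans h3
      gcongr
    have h9 : ‖η‖ ^ 2 * A ≤ r₀ ^ 2 * A := by
      rw [hr₀2]
      calc ‖η‖ ^ 2 * A ≤ κ / 4 * (H - t.im) ^ B := hz.le
        _ ≤ κ / 4 * H ^ B := by gcongr
        _ = κ / 2 * (H ^ B * (1 / 2)) := by ring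
        _ ≤ κ * (H - b / 2) ^ B := by
          have : κ / 2 ≤ κ := by linarith
          gcongr
    have h10 : ‖η‖ ^ 2 ≤ r₀ ^ 2 := le_of_mul_le_mul_right h9 hA0
    exact (pow_le_pow_iff_left₀ (norm_nonneg _) hr₀0.le (by norm_num)).1 h10
  -- the terms
  have hterm : ∀ n : ℕ, ∀ x ∈ Hd r₀ \ {0}, ‖MzB_f L (MzB_T σ H a₂ B x) x (-((n : ℤ) + 1))‖ ≤
      M * Real.exp (-(2 * Real.pi * d * (x ^ ((2:ℂ) / B)).re)) ^ (n + 1) := by
    intro n x hx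
    rw [hd]
    exact MzB_term (hco n x hx.1.2 hx.2 (hxr x hx.1)) (MzB_T_im σ H a₂ B x)
  have hfin := MzB_core hE hB hc c0 c1 hκ hκ1 a0 aB ha₂0 hac hA0 hd0 hM hHb hr₀0 hrb hr₀2 hv
    (fun x hx => (hstar x hx).2) hterm hηmem
  rw [norm_div, q1, div_le_iff₀ hw0] at hfin
  simp only [hTη] at hfin
  have hsum := fun n => hterm n η hηmem
  simp only [hTη, ← hq] at hsum
  refine ⟨(MzB_sum hM (by have := Real.pi_pos; positivity) hsum).1, hfin.trans ?_⟩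
  have hB0 : (0 : ℝ) < B := by linarith
  rw [le_div_iff₀ (mul_pos hB0 c0)]
  have h9 : a₂ * (‖η‖ ^ ((2:ℝ) / B) * c) ≤ H - t.im := by
    rw [← ha₂q]
    exact mul_le_mul_of_nonneg_left q2 ha₂0.le
  calc 301 * (a₂ / B) * ‖η‖ ^ ((2:ℝ) / B) * (B * c) =
      301 * (a₂ * (‖η‖ ^ ((2:ℝ) / B) * c)) := by field_simp
    _ ≤ 301 * (H - t.im) := by linarith

private theorem MzB_zone {B : ℕ} {H A κ t r : ℝ} (hbH : 8 * b ≤ H) (hH : (B : ℝ) * b ≤ H)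
    (hb : 0 < b) (hκ : 0 < κ) (ht0 : 0 < t) (htH : t < H)
    (hz : r ^ 2 * A < κ / 4 * (H - t) ^ B) : r ^ 2 * A ≤ κ * (H - b / 2) ^ B := by
  have hH0 : 0 < H := by linarith
  have hHt : 0 < H - t := by linarith
  have h1 : (H - t) ^ B ≤ H ^ B := pow_le_pow_left₀ hHt.le (by linarith) B
  have h2 : H ^ B * (1 / 2) ≤ (H - b / 2) ^ B := by
    have h3 := one_add_mul_le_pow (a := -(b / (2 * H))) (by
      have : b / (2 * H) ≤ 1 := by
        rw [div_le_one (by linarith)]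
        linarith
      linarith) B
    have h4 : (1 : ℝ) / 2 ≤ 1 + (B : ℝ) * -(b / (2 * H)) := by
      have h5 : (B : ℝ) * (b / (2 * H)) ≤ 1 / 2 := by
        rw [← mul_div_assoc, div_le_iff₀ (by linarith)]
        nlinarith
      linarith
    have h6 : H - b / 2 = H * (1 + -(b / (2 * H))) := by
      field_simp
      ring
    rw [h6, mul_pow]
    have h7 : 0 < H ^ B := by positivity
    have h8 := h4.trans h3
    gcongr
  calc r ^ 2 * A ≤ κ / 4 * (H - t) ^ B := hz.le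
    _ ≤ κ / 4 * H ^ B := by gcongr
    _ = κ / 2 * (H ^ B * (1 / 2)) := by ring
    _ ≤ κ * (H - b / 2) ^ B := by
      have : κ / 2 ≤ κ := by linarith
      gcongr

private theorem MzB_small {B : ℕ} {H A κ C₁ C' h r : ℝ} (hB : 8 ≤ B) (hH0 : 0 < H)
    (hκ : 0 < κ) (hκ1 : κ ≤ 1) (hC0 : 0 < C₁) (hC1 : C' ≤ C₁ * H) (hA : C₁ * B * H ^ B ≤ A)
    (hh : 0 < h) (hhH : h ≤ H) (hz : r ^ 2 * A < κ / 4 * h ^ B) : C' * r ^ 2 ≤ h / B := by
  obtain ⟨k, rfl⟩ : ∃ k, B = k + 1 := ⟨B - 1, by omega⟩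
  have hHk : 0 < H ^ k := by positivity
  have h5 : h ^ (k + 1) ≤ h * H ^ k := by
    rw [pow_succ]
    have h6 : h ^ k ≤ H ^ k := pow_le_pow_left₀ hh.le hhH k
    calc h ^ k * h ≤ H ^ k * h := by gcongr
      _ = h * H ^ k := by ring
  have h8 : r ^ 2 * (C₁ * ((k + 1 : ℕ) : ℝ) * H ^ (k + 1)) ≤ h * H ^ k := by
    calc r ^ 2 * (C₁ * ((k + 1 : ℕ) : ℝ) * H ^ (k + 1)) ≤ r ^ 2 * A := by gcongr
      _ ≤ κ / 4 * h ^ (k + 1) := hz.le
      _ ≤ 1 * (h * H ^ k) := by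
        have : κ / 4 ≤ 1 := by linarith
        gcongr
      _ = h * H ^ k := one_mul _
  have h9 : r ^ 2 * (C₁ * ((k + 1 : ℕ) : ℝ) * H) ≤ h := by
    have : r ^ 2 * (C₁ * ((k + 1 : ℕ) : ℝ) * H) * H ^ k ≤ h * H ^ k := by
      rw [pow_succ] at h8
      calc _ = r ^ 2 * (C₁ * ((k + 1 : ℕ) : ℝ) * (H ^ k * H)) := by ring
        _ ≤ _ := h8
    exact le_of_mul_le_mul_right this hHk
  have hk : (0 : ℝ) < ((k + 1 : ℕ) : ℝ) := by positivity
  rw [le_div_iff₀ hk]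
  calc C' * r ^ 2 * ((k + 1 : ℕ) : ℝ) ≤ C₁ * H * r ^ 2 * ((k + 1 : ℕ) : ℝ) := by gcongr
    _ = r ^ 2 * (C₁ * ((k + 1 : ℕ) : ℝ) * H) := by ring
    _ ≤ h := h9

/-- **The bound in the zone** (text: NB5/MzB.lean). -/
theorem zone_bdS {b C κ : ℝ} (hb : 0 < b) (hb1 : b ≤ 1) (hC : 1 ≤ C) (hκe : κ = 1 / 2400) :
    ∃ C₁ : ℝ, 1 ≤ C₁ ∧ ∀ (Y : Sys) (T : ℝ) (L : ℂ × ℂ → ℂ), EntS Y T b C L →
      ∀ (B : ℕ) (H A : ℝ), MajS Y T b B H A → C₁ * B * H ^ B ≤ A →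
        ∀ p ∈ Zn (κ / 4) B H A, ‖Mz L p - p.1‖ ≤ 400 * (H - p.1.im) / B := by
  obtain ⟨Cv, v3, hvert⟩ := vertS hb hb1 hC
  obtain ⟨Cc, e3, hcoe⟩ := co_estS hb hb1 hC hκe
  rw [← hκe] at hvert
  have hκ : 0 < κ := by rw [hκe]; norm_num
  have hκ1 : κ ≤ 1 := by rw [hκe]; norm_num
  obtain ⟨C', hC'⟩ : ∃ C', C' = C / (1 - Real.exp (-(Real.pi * b))) := ⟨_, rfl⟩
  obtain ⟨C₁, hC₁⟩ : ∃ C₁, C₁ = max (max Cv Cc) (max (C' / b) (1 / b ^ 2)) := ⟨_, rfl⟩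
  have g1 : Cv ≤ C₁ := by rw [hC₁]; exact (le_max_left _ _).trans (le_max_left _ _)
  have g2 : Cc ≤ C₁ := by rw [hC₁]; exact (le_max_right _ _).trans (le_max_left _ _)
  have g3' : C' / b ≤ C₁ := by rw [hC₁]; exact (le_max_left _ _).trans (le_max_right _ _)
  have g4 : 1 / b ^ 2 ≤ C₁ := by rw [hC₁]; exact (le_max_right _ _).trans (le_max_right _ _)
  have hC0 : 0 < C₁ := by linarith
  refine ⟨C₁, v3.trans g1, fun Y T L hE B H A hm hA p hp => ?_⟩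
  have hB := hm.B_ge
  have hH := hm.b_ge
  have hA0 := hm.A_pos
  have hB8 : (8 : ℝ) ≤ B := by exact_mod_cast hB
  have hB0 : (0 : ℝ) < B := by linarith
  have hbH : 8 * b ≤ H := le_trans (by gcongr) hH
  have hH0 : 0 < H := by linarith
  have g3 : C' ≤ C₁ * H := by
    rw [div_le_iff₀ hb] at g3'
    refine g3'.trans ?_
    have : b ≤ H := by linarith
    gcongr
  obtain ⟨c9, c1⟩ := MzB_cos hB
  have hcpos : 0 < Real.cos (Real.pi / B) := by linarith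
  have hAv : Cv * B * H ^ B ≤ A := by
    refine le_trans ?_ hA
    gcongr
  have hAc : Cc * B * H ^ B ≤ A := by
    refine le_trans ?_ hA
    gcongr
  have hHb : 0 < H - b / 2 := by linarith
  obtain ⟨M, hco⟩ := hcoe Y T L hE B H A hm hAc
  have hM : 0 ≤ M := by
    have h1 := hco 1 0 le_rfl (by rw [zero_re]) (by
      rw [norm_zero]
      have : 0 ≤ κ * (H - b / 2) ^ B := by positivity
      simpa using this)
    have h2 := (norm_nonneg _).trans h1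
    exact nonneg_of_mul_nonneg_left h2 (Real.exp_pos _)
  have hco' : ∀ (n : ℕ) (x : ℂ), 0 ≤ x.re → x ≠ 0 → ‖x‖ ^ 2 * A ≤ κ * (H - b / 2) ^ B →
      ‖Dc L (-((n : ℤ) + 1)) x‖ ≤ M * Real.exp (-(2 * Real.pi * ((n : ℝ) + 1) *
        (H - zA κ A B / Real.cos (Real.pi / B) * (x ^ ((2:ℂ) / B)).re))) := by
    intro n x hre hx0 hx
    have h1 := hco (n + 1) x (by omega) hre hx
    have h2 : (-((n + 1 : ℕ) : ℤ)) = -((n : ℤ) + 1) := by push_cast; ring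
    rw [h2] at h1
    push_cast at h1
    exact h1
  have hv' : ∀ r y : ℝ, 0 < r → 0 ≤ y → y < H → r ^ 2 * A ≤ κ * (H - y) ^ B →
      ∃ Λ : ℂ → ℂ, AnalyticOnNhd ℂ Λ (St (-(b / 2)) y) ∧
          (∀ t ∈ St (-(b / 2)) y, t.im < b / 2 → Λ t = L (t, r * I)) ∧
          ∀ t ∈ St 0 y, ‖Λ t - t‖ ≤ 300 * (r ^ 2 * A / (H - t.im) ^ B) * ((H - t.im) / B) := by
    intro r y hr hy hyH h
    exact hvert Y T L hE B H A r y hm hAv hr hy hyH h
  -- the case `0 ≤ Re η`, `η ≠ 0`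
  have key : ∀ t η : ℂ, 0 < t.im → t.im < H → ‖η‖ ^ 2 * A < κ / 4 * (H - t.im) ^ B →
      0 ≤ η.re → η ≠ 0 → ‖Mz L (t, η) - t‖ ≤ 400 * (H - t.im) / B := by
    intro t η ht0 htH hz hre hη
    have hηb : ‖η‖ < b := (MzB_r hB hH hb hκ hκ1 g3 g4 hA (norm_pos_iff.2 hη)
      (MzB_zone hbH hH hb hκ ht0 htH hz)).1
    obtain ⟨n1, n2⟩ := MzB_main hE hm hκ hκ1 (hC' ▸ g3) g4 hA hco' hM hv' ht0 htH hz hre hη
    obtain ⟨p1, p2⟩ := MzB_pos hE (t := t) hηb ht0.le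
    rw [← hC'] at p2
    have h1 : Mz L (t, η) - t = ∑' n : ℕ, MzB_f L t η n +
        ∑' n : ℕ, MzB_f L t η (-((n : ℤ) + 1)) := by
      rw [← tsum_of_nat_of_neg_add_one p1 n1, Mz, add_sub_cancel_left]
      rfl
    have hh : 0 < H - t.im := by linarith
    have h2 := MzB_small hB hH0 hκ hκ1 hC0 g3 hA hh (by linarith) hz
    have h3 : 301 * (H - t.im) / (B * Real.cos (Real.pi / B)) ≤ 399 * (H - t.im) / B := by
      rw [div_le_div_iff₀ (by positivity) hB0]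
      have h4 : 301 * (H - t.im) ≤ 399 * (H - t.im) * Real.cos (Real.pi / B) := by nlinarith
      calc 301 * (H - t.im) * B ≤ 399 * (H - t.im) * Real.cos (Real.pi / B) * B := by gcongr
        _ = 399 * (H - t.im) * (B * Real.cos (Real.pi / B)) := by ring
    rw [h1]
    refine (norm_add_le _ _).trans ?_
    have h5 : 400 * (H - t.im) / B = (H - t.im) / B + 399 * (H - t.im) / B := by ring
    rw [h5]
    exact add_le_add (p2.trans h2) (n2.trans h3)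
  obtain ⟨t, η⟩ := p
  obtain ⟨z1, z2, z3⟩ := hp
  simp only at z1 z2 z3 ⊢
  rcases eq_or_ne η 0 with rfl | hη
  · have h1 : Mz L (t, 0) - t = 0 := by
      have h2 : (fun m : ℤ => Dc L m 0 * exp (2 * Real.pi * I * m * t)) = fun _ => 0 := by
        funext m
        have h3 := Dc_boundS hE m (η := 0) (mem_ball_self hb)
        have h4 : Dc L m 0 = 0 := by
          rw [norm_zero] at h3
          simpa using h3
        rw [h4, zero_mul]
      rw [Mz]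
      simp only
      rw [h2, tsum_zero, add_zero, sub_self]
    rw [h1, norm_zero]
    have : 0 < H - t.im := by linarith
    positivity
  · rcases le_or_gt 0 η.re with hre | hre
    · exact key t η z1 z2 z3 hre hη
    · have h1 := key t (-η) z1 z2 (by rwa [norm_neg]) (by rw [neg_re]; linarith)
        (neg_ne_zero.2 hη)
      have hηb : ‖η‖ < b := (MzB_r hB hH hb hκ hκ1 g3 g4 hA (norm_pos_iff.2 hη)
        (MzB_zone hbH hH hb hκ z1 z2 z3)).1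
      have h2 : Mz L (t, -η) = Mz L (t, η) := by
        rw [Mz, Mz]
        simp only
        congr 2
        funext m
        rw [Dc_evenS hE m (by rw [mem_ball_zero_iff]; exact hηb)]
      rw [← h2]
      exact h1

end Pool.Agent.MP_ae5b4e_an_NF
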