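import Pool.Agent.Lib.MP_ae5b4e_an_NB5.ExtN
import Pool.Agent.Lib.MP_ae5b4e_an_NF.RokS
import Pool.Agent.Lib.MP_ae5b4e_an_NB5.SumE

/-!
# MP_ae5b4e_an, project NF: vertical chains: the label for imaginary parameters (finite height)
-/

noncomputable section

namespace Pool.Agent.MP_ae5b4e_an_NF

open Complex Set Filter Topology Metric
open Pool.Agent.MP_ae5b4e_an_NBT (St)
open Pool.Agent.MP_ae5b4e_an_NB2 (Sys)
open Pool.Agent.MP_ae5b4e_an_NB5 (Bs ROK Pn ext_node sum_one sum_two)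
open scoped ComplexConjugate

/-- the data -/
private structure VD (b C : ℝ) (B : ℕ) (H A r y : ℝ) : Prop where
  hb : 0 < b
  hb1 : b ≤ 1
  hC : 1 ≤ C
  hB : 8 ≤ B
  hBH : (B : ℝ) * b ≤ H
  hA : 0 < A
  h1 : 600 * C / b ^ 2 * B * H ^ B ≤ A
  hr : 0 < r
  hy : 0 ≤ y
  hyH : y < H
  h2 : r ^ 2 * A ≤ 1 / 2400 * (H - y) ^ B

variable {b C : ℝ} {B : ℕ} {H A r y : ℝ}

private theorem VD.bH (h : VD b C B H A r y) : b ≤ H := by
  have h1 : (8 : ℝ) ≤ B := by exact_mod_cast h.hB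
  have h2 := h.hb
  have h3 := h.hBH
  nlinarith

private theorem VD.a (h : VD b C B H A r y) : 64 * (C * r ^ 2) ≤ b ^ 2 ∧ 64 * r ≤ b := by
  obtain ⟨hb, hb1, hC, hB, hBH, hA, h1, hr, hy, hyH, h2⟩ := h
  have hB' : (8 : ℝ) ≤ B := by exact_mod_cast hB
  have hH : 0 < H := lt_of_lt_of_le (by positivity) hBH
  have hHB : 0 < H ^ B := by positivity
  have h3 : (H - y) ^ B ≤ H ^ B := pow_le_pow_left₀ (by linarith) (by linarith) B
  have h4 : r ^ 2 * (600 * C / b ^ 2 * B * H ^ B) ≤ 1 / 2400 * H ^ B :=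
    (mul_le_mul_of_nonneg_left h1 (by positivity)).trans (h2.trans
      (mul_le_mul_of_nonneg_left h3 (by norm_num)))
  have h5 : r ^ 2 * (600 * C / b ^ 2 * B) ≤ 1 / 2400 := by
    have h6 : r ^ 2 * (600 * C / b ^ 2 * B) * H ^ B ≤ 1 / 2400 * H ^ B := by
      calc _ = r ^ 2 * (600 * C / b ^ 2 * B * H ^ B) := by ring
        _ ≤ _ := h4
    exact le_of_mul_le_mul_right h6 hHB
  have h6 : r ^ 2 * (600 * C * B) ≤ 1 / 2400 * b ^ 2 := by
    have h7 := mul_le_mul_of_nonneg_right h5 (by positivity : 0 ≤ b ^ 2)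
    calc r ^ 2 * (600 * C * B) = r ^ 2 * (600 * C / b ^ 2 * B) * b ^ 2 := by
          field_simp
      _ ≤ _ := h7
  have h7 : r ^ 2 * (600 * C * 8) ≤ r ^ 2 * (600 * C * B) := by
    gcongr
  have h8 : 64 * (C * r ^ 2) ≤ b ^ 2 := by nlinarith [sq_nonneg b, sq_nonneg r]
  refine ⟨h8, ?_⟩
  have h9 : (64 * r) ^ 2 ≤ b ^ 2 := by nlinarith [sq_nonneg b, sq_nonneg r]
  exact (sq_le_sq₀ (by positivity) hb.le).1 h9

private theorem VD.b' (h : VD b C B H A r y) : 16 * r ≤ (H - y) / B := by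
  obtain ⟨hb, hb1, hC, hB, hBH, hA, h1, hr, hy, hyH, h2⟩ := h
  have hB' : (8 : ℝ) ≤ B := by exact_mod_cast hB
  have hH : 0 < H := lt_of_lt_of_le (by positivity) hBH
  obtain ⟨B', rfl⟩ : ∃ B', B = B' + 2 := ⟨B - 2, by omega⟩
  have hHB : 0 < H ^ B' := by positivity
  have h3 : (H - y) ^ (B' + 2) ≤ H ^ B' * (H - y) ^ 2 := by
    rw [pow_add]
    exact mul_le_mul_of_nonneg_right (pow_le_pow_left₀ (by linarith) (by linarith) B')
      (by positivity)
  have h4 : r ^ 2 * (600 * C / b ^ 2 * ((B' + 2 : ℕ) : ℝ) * H ^ (B' + 2)) ≤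
      1 / 2400 * (H ^ B' * (H - y) ^ 2) :=
    (mul_le_mul_of_nonneg_left h1 (by positivity)).trans (h2.trans
      (mul_le_mul_of_nonneg_left h3 (by norm_num)))
  have h5 : r ^ 2 * (600 * C / b ^ 2 * ((B' + 2 : ℕ) : ℝ) * H ^ 2) ≤ 1 / 2400 * (H - y) ^ 2 := by
    have h6 : r ^ 2 * (600 * C / b ^ 2 * ((B' + 2 : ℕ) : ℝ) * H ^ 2) * H ^ B' ≤
        1 / 2400 * (H - y) ^ 2 * H ^ B' := by
      calc _ = r ^ 2 * (600 * C / b ^ 2 * ((B' + 2 : ℕ) : ℝ) * H ^ (B' + 2)) := by
            rw [pow_add]; ring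
        _ ≤ _ := h4
        _ = _ := by ring
    exact le_of_mul_le_mul_right h6 hHB
  have hB2 : (((B' + 2 : ℕ) : ℝ)) ^ 2 ≤ H ^ 2 / b ^ 2 := by
    rw [le_div_iff₀ (by positivity), ← mul_pow]
    exact pow_le_pow_left₀ (by positivity) hBH 2
  have h7 : r ^ 2 * (600 * 1 * 8 * (H ^ 2 / b ^ 2)) ≤
      r ^ 2 * (600 * C / b ^ 2 * ((B' + 2 : ℕ) : ℝ) * H ^ 2) := by
    have h8 : 600 * C / b ^ 2 * ((B' + 2 : ℕ) : ℝ) * H ^ 2 =
        600 * C * ((B' + 2 : ℕ) : ℝ) * (H ^ 2 / b ^ 2) := by ring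
    rw [h8]
    gcongr
  have h9 : (16 * r * ((B' + 2 : ℕ) : ℝ)) ^ 2 ≤ (H - y) ^ 2 := by
    have h10 : (16 * r * ((B' + 2 : ℕ) : ℝ)) ^ 2 = 256 * (r ^ 2 * ((B' + 2 : ℕ) : ℝ) ^ 2) := by ring
    have h11 : r ^ 2 * ((B' + 2 : ℕ) : ℝ) ^ 2 ≤ r ^ 2 * (H ^ 2 / b ^ 2) := by gcongr
    have h12 : 0 ≤ r ^ 2 * (H ^ 2 / b ^ 2) := by positivity
    rw [h10]
    nlinarith [sq_nonneg (H - y)]
  rw [le_div_iff₀ (by linarith)]
  exact (sq_le_sq₀ (by positivity) (by linarith)).1 h9

private theorem VD.c' (h : VD b C B H A r y) {y' : ℝ} (hy' : y' ≤ y) :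
    r ^ 2 * A ≤ 1 / 2400 * (H - y') ^ B := by
  refine h.h2.trans (mul_le_mul_of_nonneg_left ?_ (by norm_num))
  exact pow_le_pow_left₀ (by linarith [h.hyH]) (by linarith) B

private theorem VD.d' (h : VD b C B H A r y) {y' : ℝ} (hy0 : 0 ≤ y') (hy' : y' < H) :
    9 * C / b * H ≤ A / (H - y') ^ B * ((H - y') / B) := by
  obtain ⟨hb, hb1, hC, hB, hBH, hA, h1, hr, hy, hyH, h2⟩ := h
  have hB' : (8 : ℝ) ≤ B := by exact_mod_cast hB
  have hH : 0 < H := lt_of_lt_of_le (by positivity) hBH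
  have hd : 0 < H - y' := by linarith
  obtain ⟨B', rfl⟩ : ∃ B', B = B' + 1 := ⟨B - 1, by omega⟩
  have h3 : 9 * C / b ≤ 600 * C / b ^ 2 := by
    rw [div_le_div_iff₀ hb (by positivity)]
    have : 9 * C * b ^ 2 = 9 * C * b * b := by ring
    rw [this]
    refine mul_le_mul_of_nonneg_right ?_ hb.le
    nlinarith
  have h4 : A / (H - y') ^ (B' + 1) * ((H - y') / ((B' + 1 : ℕ) : ℝ)) =
      A / ((H - y') ^ B' * ((B' + 1 : ℕ) : ℝ)) := by
    rw [pow_succ]
    field_simp
  rw [h4, le_div_iff₀ (by positivity)]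
  have h5 : (H - y') ^ B' ≤ H ^ B' := pow_le_pow_left₀ hd.le (by linarith) B'
  calc 9 * C / b * H * ((H - y') ^ B' * ((B' + 1 : ℕ) : ℝ)) ≤
        600 * C / b ^ 2 * H * (H ^ B' * ((B' + 1 : ℕ) : ℝ)) := by gcongr
    _ = 600 * C / b ^ 2 * ((B' + 1 : ℕ) : ℝ) * H ^ (B' + 1) := by rw [pow_succ]; ring
    _ ≤ A := h1

/-- base estimates -/
private theorem Vert_B1 {Y : Sys} {T : ℝ} {L : ℂ × ℂ → ℂ} (hE : EntS Y T b C L) (hr : 0 < r)
    (hrb : 64 * r ≤ b) {t : ℂ} (ht : |t.im| < b) : ‖L (t, r * I) - t‖ ≤ C * r ^ 2 := by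
  have h1 := hE.bd (t, r * I) ⟨⟨by linarith [(abs_lt.1 ht).1], (abs_lt.1 ht).2⟩, by
    rw [mem_ball_zero_iff]
    simp only [norm_mul, Complex.norm_real, Complex.norm_I, mul_one, Real.norm_eq_abs]
    rw [abs_of_pos hr]
    linarith [hE.b_pos]⟩
  simpa [abs_of_pos hr] using h1

private theorem Vert_B2 {Y : Sys} {T : ℝ} {L : ℂ × ℂ → ℂ} (hE : EntS Y T b C L) (hr : 0 < r)
    (hrb : 64 * r ≤ b) {t : ℂ} (ht : |t.im| ≤ 3 * b / 4) (ht' : |t.im - r| ≤ 3 * b / 4) :
    ‖L (t, r * I) - L (t - r * I, r * I) - r * I‖ ≤ 8 * C * r ^ 3 / b := by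
  have hb := hE.b_pos
  have hnw : ‖((r : ℂ) * I)‖ = r := by simp [abs_of_pos hr]
  have hmem : ∀ z : ℂ, |z.im| < b → (z, (r : ℂ) * I) ∈ Bs b := fun z hz =>
    ⟨⟨(abs_lt.1 hz).1, (abs_lt.1 hz).2⟩, by
      rw [mem_ball_zero_iff, hnw]; linarith⟩
  have hd : ∀ z : ℂ, |z.im| < b → DifferentiableAt ℂ (fun z => L (z, r * I) - z) z := by
    intro z hz
    have h1 : AnalyticAt ℂ (fun z : ℂ => L (z, r * I)) z :=
      (hE.an _ (hmem z hz)).comp_of_eq (analyticAt_id.prod analyticAt_const) rfl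
    exact h1.differentiableAt.sub differentiableAt_id
  have hder : ∀ z : ℂ, |z.im| ≤ 3 * b / 4 →
      ‖deriv (fun z => L (z, r * I) - z) z‖ ≤ 8 * C * r ^ 2 / b := by
    intro z hz
    have hin : ∀ z' ∈ closedBall z (b / 8), |z'.im| < b := by
      intro z' hz'
      rw [mem_closedBall, dist_eq_norm] at hz'
      have h1 : |(z' - z).im| ≤ b / 8 := (abs_im_le_norm _).trans hz'
      rw [sub_im] at h1
      rw [abs_le] at h1 hz
      rw [abs_lt]
      constructor <;> linarith [h1.1, h1.2, hz.1, hz.2]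
    have hdc : DiffContOnCl ℂ (fun z => L (z, r * I) - z) (ball z (b / 8)) := by
      refine DifferentiableOn.diffContOnCl fun z' hz' => ?_
      rw [closure_ball _ (by positivity)] at hz'
      exact (hd z' (hin z' hz')).differentiableWithinAt
    have h2 := Complex.norm_deriv_le_of_forall_mem_sphere_norm_le (C := C * r ^ 2)
      (by positivity : 0 < b / 8) hdc (fun z' hz' =>
        Vert_B1 hE hr hrb (hin z' (sphere_subset_closedBall hz')))
    calc _ ≤ C * r ^ 2 / (b / 8) := h2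
      _ = 8 * C * r ^ 2 / b := by field_simp
  have hconv : Convex ℝ {z : ℂ | |z.im| ≤ 3 * b / 4} := by
    have h1 : {z : ℂ | |z.im| ≤ 3 * b / 4} = Complex.imLm ⁻¹' (Set.Icc (-(3 * b / 4)) (3 * b / 4)) := by
      ext z
      simp [abs_le]
    rw [h1]
    exact (convex_Icc _ _).linear_preimage _
  have h3 := hconv.norm_image_sub_le_of_norm_deriv_le (f := fun z => L (z, r * I) - z)
    (C := 8 * C * r ^ 2 / b) (fun z hz => hd z (by
      have hz' : |z.im| ≤ 3 * b / 4 := hz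
      linarith)) (fun z hz => hder z hz) (x := t - r * I) (y := t) (by
      show |(t - r * I).im| ≤ 3 * b / 4
      simpa using ht') ht
  have h4 : L (t, r * I) - L (t - r * I, r * I) - r * I =
      (L (t, r * I) - t) - (L (t - r * I, r * I) - (t - r * I)) := by ring
  rw [h4]
  refine h3.trans (le_of_eq ?_)
  rw [sub_sub_cancel, hnw]
  ring

private theorem Vert_base {Y : Sys} {T : ℝ} {L : ℂ × ℂ → ℂ} (hE : EntS Y T b C L) (h : VD b C B H A r y)
    {s : ℝ} {Λ : ℂ → ℂ}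
    (h1 : ∀ t ∈ St (-(b / 2)) y, t.im / r < s → t.im < b / 2 → Λ t = L (t, r * I))
    {v : ℂ} (hv : v ∈ St (-(b / 2)) y) (hvs : v.im / r < s) (hv0 : 0 ≤ v.im) (hvb : v.im < b / 2) :
    ‖Λ v - v‖ ≤ C * r ^ 2 ∧ ‖Λ v - Λ (v - r * I) - r * I‖ ≤ 8 * C * r ^ 3 / b := by
  have hr := h.hr
  have hb := h.hb
  have hrb := h.a.2
  have him : (v - r * I).im = v.im - r := by simp
  have h2 : Λ v = L (v, r * I) := h1 v hv hvs hvb
  have h3 : Λ (v - r * I) = L (v - r * I, r * I) := by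
    refine h1 _ ⟨?_, ?_⟩ ?_ ?_
    · rw [him]; linarith
    · rw [him]; linarith [hv.2]
    · rw [him]
      refine lt_of_le_of_lt ?_ hvs
      exact div_le_div_of_nonneg_right (by linarith) hr.le
    · rw [him]; linarith
  rw [h3, h2]
  refine ⟨Vert_B1 hE hr hrb (by rw [abs_of_nonneg hv0]; linarith), Vert_B2 hE hr hrb ?_ ?_⟩
  · rw [abs_of_nonneg hv0]; linarith
  · rw [abs_le]; constructor <;> linarith

private theorem Vert_chain {Y : Sys} {T : ℝ} {L : ℂ × ℂ → ℂ} (hE : EntS Y T b C L) (h : VD b C B H A r y)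
    {s : ℝ} {Λ : ℂ → ℂ}
    (h1 : ∀ t ∈ St (-(b / 2)) y, t.im / r < s → t.im < b / 2 → Λ t = L (t, r * I))
    (h2 : ∀ u ∈ St (-(b / 2)) y, b / 4 ≤ u.im → u.im / r < s →
      ‖Λ u - 2 * Λ (u - r * I) + Λ (u - 2 * (r * I))‖ ≤
        96 * r ^ 4 * (A * B / (H - (u - r * I).im) ^ (B + 1)))
    {v : ℂ} (hv : v ∈ St (-(b / 2)) y) (hvs : v.im / r < s) (hv0 : 0 ≤ v.im)
    (hvb : b / 4 ≤ v.im) :
    ‖Λ v - v‖ ≤ 199 * (r ^ 2 * A / (H - v.im) ^ B) * ((H - v.im) / B) ∧
      ‖Λ v - Λ (v - r * I) - r * I‖ ≤ r / 4 := by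
  have hr := h.hr
  have hb := h.hb
  have hrb := h.a.2
  have hA := h.hA
  have hB' : (8 : ℝ) ≤ B := by exact_mod_cast h.hB
  have hBH := h.hBH
  have hyH := h.hyH
  have hC := h.hC
  have hvy : v.im < y := hv.2
  set j : ℕ := ⌊(v.im - b / 4) / r⌋₊ with hj
  have hj1 : (j : ℝ) * r ≤ v.im - b / 4 := by
    have := Nat.floor_le (div_nonneg (by linarith : 0 ≤ v.im - b / 4) hr.le)
    rw [← hj] at this
    rwa [le_div_iff₀ hr] at this
  have hj2 : v.im - b / 4 < (j + 1) * r := by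
    have := Nat.lt_floor_add_one ((v.im - b / 4) / r)
    rw [← hj] at this
    rwa [div_lt_iff₀ hr] at this
  set y0 : ℝ := v.im - j * r with hy0
  let p : ℕ → ℂ := fun i => v + ((i : ℂ) - 1 - j) * (r * I)
  have hpim : ∀ i : ℕ, (p i).im = y0 + (i - 1) * r := by
    intro i
    have : (p i) = v + (((i : ℝ) - 1 - j) * r : ℝ) * I := by
      show v + ((i : ℂ) - 1 - j) * (r * I) = _
      push_cast
      ring
    rw [this]
    simp only [add_im, mul_im, ofReal_re, I_im, mul_one, ofReal_im, I_re, mul_zero, add_zero]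
    rw [hy0]
    ring
  have hp1 : ∀ i, p (i + 1) - r * I = p i := by
    intro i
    show v + (((i + 1 : ℕ) : ℂ) - 1 - j) * (r * I) - r * I = v + ((i : ℂ) - 1 - j) * (r * I)
    push_cast
    ring
  have hp2 : ∀ i, p (i + 2) - 2 * (r * I) = p i := by
    intro i
    show v + (((i + 2 : ℕ) : ℂ) - 1 - j) * (r * I) - 2 * (r * I) = v + ((i : ℂ) - 1 - j) * (r * I)
    push_cast
    ring
  have hpj : p (j + 1) = v := by
    show v + (((j + 1 : ℕ) : ℂ) - 1 - j) * (r * I) = v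
    push_cast
    ring
  have hy0b : b / 4 ≤ y0 := by rw [hy0]; linarith
  have hy0b' : y0 < b / 4 + r := by rw [hy0]; linarith
  have hpmem : ∀ i : ℕ, i ≤ j → p (i + 1) ∈ St (-(b / 2)) y ∧ (p (i + 1)).im / r < s ∧
      b / 4 ≤ (p (i + 1)).im ∧ (p (i + 1)).im ≤ v.im := by
    intro i hi
    have hi' : (i : ℝ) * r ≤ j * r := by
      have : (i : ℝ) ≤ j := by exact_mod_cast hi
      gcongr
    have hi0 : 0 ≤ (i : ℝ) * r := by positivity
    have h3 : (p (i + 1)).im = y0 + i * r := by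
      rw [hpim]
      push_cast
      ring
    have h4 : (p (i + 1)).im ≤ v.im := by rw [h3, hy0]; linarith
    refine ⟨⟨by rw [h3]; linarith, by linarith⟩, ?_, by rw [h3]; linarith, h4⟩
    exact lt_of_le_of_lt (div_le_div_of_nonneg_right h4 hr.le) hvs
  have hlt : ∀ i : ℕ, i ≤ j → y0 + i * r < H := by
    intro i hi
    have h3 := (hpmem i hi).2.2.2
    rw [hpim] at h3
    push_cast at h3
    linarith
  have hbase := Vert_base hE h h1 (hpmem 0 (Nat.zero_le _)).1 (hpmem 0 (Nat.zero_le _)).2.1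
    (by linarith [(hpmem 0 (Nat.zero_le _)).2.2.1]) (by
      rw [hpim]
      push_cast
      linarith)
  rw [hp1] at hbase
  have hE1 : ∀ i : ℕ, i ≤ j → ‖Λ (p (i + 1)) - Λ (p i) - r * I‖ ≤ 8 * C * r ^ 3 / b +
      96 * r ^ 3 * ∑ l ∈ Finset.range i, r * (A * B / (H - (y0 + l * r)) ^ (B + 1)) := by
    intro i
    induction i with
    | zero =>
      intro _
      rw [Finset.sum_range_zero, mul_zero, add_zero]
      exact hbase.2
    | succ i ih =>
      intro hi
      have h3 := ih (by omega)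
      have h4 := h2 (p (i + 1 + 1)) (hpmem (i + 1) hi).1 (hpmem (i + 1) hi).2.2.1
        (hpmem (i + 1) hi).2.1
      rw [hp1, hp2 i, hpim] at h4
      have h5 : Λ (p (i + 1 + 1)) - Λ (p (i + 1)) - r * I = (Λ (p (i + 1)) - Λ (p i) - r * I) +
          (Λ (p (i + 1 + 1)) - 2 * Λ (p (i + 1)) + Λ (p i)) := by ring
      rw [h5, Finset.sum_range_succ]
      refine (norm_add_le _ _).trans ((add_le_add h3 h4).trans (le_of_eq ?_))
      have h6 : y0 + (((i + 1 : ℕ) : ℝ) - 1) * r = y0 + i * r := by push_cast; ring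
      rw [h6]
      ring
  have hE1' : ∀ i : ℕ, i ≤ j → ‖Λ (p (i + 1)) - Λ (p i) - r * I‖ ≤ 8 * C * r ^ 3 / b +
      96 * r ^ 3 * (A / (H - (y0 + i * r)) ^ B) := by
    intro i hi
    refine (hE1 i hi).trans ?_
    have := sum_one (B := B) (n := i) (H := H) (A := A) (r := r) (y := y0) (by
      have := h.hB; omega) hA hr (hlt i hi)
    gcongr
  have hE2 : ∀ i : ℕ, i ≤ j → ‖Λ (p (i + 1)) - p (i + 1)‖ ≤ C * r ^ 2 +
      i * (8 * C * r ^ 3 / b) +
      96 * r ^ 2 * ∑ l ∈ Finset.range (i + 1), r * (A / (H - (y0 + l * r)) ^ B) := by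
    intro i
    induction i with
    | zero =>
      intro hi
      have h3 := hlt 0 hi
      rw [Nat.cast_zero, zero_mul, add_zero] at h3
      have h4 : 0 < H - y0 := by linarith
      have h5 : 0 ≤ 96 * r ^ 2 * ∑ l ∈ Finset.range (0 + 1),
          r * (A / (H - (y0 + l * r)) ^ B) := by
        rw [zero_add, Finset.sum_range_one, Nat.cast_zero, zero_mul, add_zero]
        positivity
      have h6 := hbase.1
      rw [Nat.cast_zero, zero_mul, add_zero]
      linarith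
    | succ i ih =>
      intro hi
      have h3 := ih (by omega)
      have h4 := hE1' (i + 1) hi
      have h5 : Λ (p (i + 1 + 1)) - p (i + 1 + 1) = (Λ (p (i + 1)) - p (i + 1)) +
          (Λ (p (i + 1 + 1)) - Λ (p (i + 1)) - r * I) := by
        rw [← hp1 (i + 1)]
        ring
      rw [h5, Finset.sum_range_succ]
      refine (norm_add_le _ _).trans ((add_le_add h3 h4).trans (le_of_eq ?_))
      push_cast
      ring
  have hvj : y0 + j * r = v.im := by rw [hy0]; ring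
  have hd : 0 < H - v.im := by linarith
  have h3 := hE1' j le_rfl
  have h4 := hE2 j le_rfl
  have h5 := sum_two (B := B) (n := j) (H := H) (A := A) (r := r) (y := y0) (by
      have := h.hB; omega) hA hr (hlt j le_rfl)
  rw [hpj, hvj, ← hp1 j, hpj] at h3
  rw [hpj] at h4
  rw [hvj] at h5
  have hM : r ^ 2 * A ≤ 1 / 2400 * (H - v.im) ^ B := h.c' (by linarith)
  have hM' : r ^ 2 * (A / (H - v.im) ^ B) ≤ 1 / 2400 := by
    rw [← mul_div_assoc, div_le_iff₀ (by positivity)]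
    exact hM
  have hρ : 16 * r ≤ (H - v.im) / B := by
    refine h.b'.trans ?_
    exact div_le_div_of_nonneg_right (by linarith) (by positivity)
  have hMρ := h.d' hv0 (by linarith : v.im < H)
  have h8 : 8 * C * r ^ 3 / b ≤ r / 8 := by
    rw [div_le_iff₀ hb]
    have h9 := h.a.1
    have h10 : b ^ 2 ≤ b := by nlinarith [h.hb1]
    nlinarith
  set Mh : ℝ := A / (H - v.im) ^ B with hMh
  set ρ : ℝ := (H - v.im) / B with hρd
  have hMh0 : 0 < Mh := by positivity
  have hρ0 : 0 < ρ := by positivity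
  constructor
  · have h6 : (j : ℝ) * (8 * C * r ^ 3 / b) ≤ 8 * C / b * H * r ^ 2 := by
      have h7 : (j : ℝ) * r ≤ H := by linarith
      calc (j : ℝ) * (8 * C * r ^ 3 / b) = 8 * C / b * (j * r) * r ^ 2 := by ring
        _ ≤ _ := by gcongr
    have h7 : C * r ^ 2 ≤ C / b * H * r ^ 2 := by
      have h9 : C ≤ C / b * H := by
        rw [div_mul_eq_mul_div, le_div_iff₀ hb]
        have := h.bH
        gcongr
      gcongr
    have h9 : C / b * H * r ^ 2 + 8 * C / b * H * r ^ 2 ≤ Mh * ρ * r ^ 2 := by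
      calc _ = 9 * C / b * H * r ^ 2 := by ring
        _ ≤ _ := by gcongr
    have h10 : 96 * r ^ 2 * ∑ l ∈ Finset.range (j + 1), r * (A / (H - (y0 + l * r)) ^ B) ≤
        96 * r ^ 2 * ((2 * (H - v.im) / B + r) * Mh) := by gcongr
    have h11 : 2 * (H - v.im) / B + r ≤ 33 / 16 * ρ := by
      have : 2 * (H - v.im) / B = 2 * ρ := by rw [hρd]; ring
      rw [this]
      linarith
    have h12 : 96 * r ^ 2 * ((2 * (H - v.im) / B + r) * Mh) ≤ 96 * r ^ 2 * (33 / 16 * ρ * Mh) := by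
      gcongr
    have h13 : 199 * (r ^ 2 * A / (H - v.im) ^ B) * ρ = 199 * r ^ 2 * (Mh * ρ) := by
      rw [hMh]
      ring
    rw [h13]
    linarith
  · have h6 : 96 * r ^ 3 * Mh ≤ r / 8 := by
      calc 96 * r ^ 3 * Mh = 96 * r * (r ^ 2 * Mh) := by ring
        _ ≤ 96 * r * (1 / 2400) := by gcongr
        _ ≤ r / 8 := by linarith
    linarith

private theorem VD.e (h : VD b C B H A r y) : 8 * C * r ^ 3 / b ≤ r / 8 := by
  have hb := h.hb
  have hr := h.hr
  rw [div_le_iff₀ hb]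
  have h9 := h.a.1
  have h10 : b ^ 2 ≤ b := by nlinarith [h.hb1]
  nlinarith

private theorem VD.f (h : VD b C B H A r y) {y' : ℝ} (hy0 : 0 ≤ y') (hy' : y' < H) :
    C * r ^ 2 ≤ 199 * (r ^ 2 * A / (H - y') ^ B) * ((H - y') / B) := by
  have hb := h.hb
  have hC := h.hC
  have hMρ := h.d' hy0 hy'
  have hB' : (8 : ℝ) ≤ B := by exact_mod_cast h.hB
  have hBH := h.hBH
  have hA := h.hA
  have hd : 0 < H - y' := by linarith
  have h9 : C ≤ 9 * C / b * H := by
    rw [div_mul_eq_mul_div, le_div_iff₀ hb]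
    have := h.bH
    nlinarith
  have h10 : C * r ^ 2 ≤ A / (H - y') ^ B * ((H - y') / B) * r ^ 2 := by
    have := h9.trans hMρ
    gcongr
  have h11 : 0 ≤ A / (H - y') ^ B * ((H - y') / B) * r ^ 2 := by positivity
  calc C * r ^ 2 ≤ A / (H - y') ^ B * ((H - y') / B) * r ^ 2 := h10
    _ ≤ 199 * (A / (H - y') ^ B * ((H - y') / B) * r ^ 2) := by linarith
    _ = _ := by ring

private theorem VD.g (h : VD b C B H A r y) {y' : ℝ} (hy' : y' ≤ y) :
    96 * r ^ 4 * (A * B / (H - y') ^ (B + 1)) ≤ r / 4 := by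
  have hr := h.hr
  have hd : 0 < H - y' := by linarith [h.hyH]
  have hB' : (8 : ℝ) ≤ B := by exact_mod_cast h.hB
  have hA := h.hA
  have hM' : r ^ 2 * (A / (H - y') ^ B) ≤ 1 / 2400 := by
    rw [← mul_div_assoc, div_le_iff₀ (by positivity)]
    exact h.c' hy'
  have hρ : r * (B / (H - y')) ≤ 1 / 16 := by
    have h3 : 16 * r ≤ (H - y') / B :=
      h.b'.trans (div_le_div_of_nonneg_right (by linarith) (by positivity))
    rw [le_div_iff₀ (by positivity)] at h3
    rw [← mul_div_assoc, div_le_iff₀ hd]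
    linarith
  calc 96 * r ^ 4 * (A * B / (H - y') ^ (B + 1)) =
        96 * r * ((r ^ 2 * (A / (H - y') ^ B)) * (r * (B / (H - y')))) := by
        rw [pow_succ]
        field_simp
        ring
    _ ≤ 96 * r * ((1 / 2400) * (1 / 16)) := by gcongr
    _ ≤ r / 4 := by linarith

/-- **Vertical climbing.** The label for `η = i r` extends to the strip `-b/2 < Im t < y` as long as
`r² A ≤ κ (H - y) ^ B`.

Proof. `κ`, `C₁` are chosen at the end (`κ` small, `C₁` large, depending on `b`, `C` only). Write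
`M̂ (y) = A / (H - y) ^ B`, `ϱ (y) = (H - y) / B`, `w = i r`.

Consequences of `r² A ≤ κ (H - y) ^ B` and `C₁ B H ^ B ≤ A`, `B ≤ H`: `r² ≤ κ ϱ (y)² / (C₁ B)` (so
`16 r ≤ ϱ` and `r ≤ b / 64`), `r² M̂ (y) ≤ κ`, `M̂ (y') ϱ (y') ≥ C₁ H` for `0 ≤ y' ≤ y`.

Base: for `|Im t| < 3b/4` one has `‖L (t, w) - t‖ ≤ C r²` and, by Cauchy's estimate for
`L (·, w) - id`, `‖L (t, w) - L (t - w, w) - w‖ ≤ 8 C r³ / b`.

Induction (`ext_node` with `Ω = univ`, `D = {-b/2 < Im < y}`, `φ u = Im u / r`, `s₁ = b / (4 r)`,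
radius `r / 4`): let `Λ` be analytic on `{-b/2 < Im < s r}` (`s r ≤ y`), equal to `L (·, w)` for
`|Im| < b/2`, with `Pn = 0` and `‖Λ u - 2 Λ (u - w) + Λ (u - 2 w)‖ ≤ 96 r⁴ A B / (H - Im (u - w)) ^
(B + 1)` for `b/4 ≤ Im u < s r` (true at the beginning, `s r = b / 2`: node relation `Ent.node`, the
second difference of `L` is at most `2 * 8 C r³ / b ≤ r / 4`, uniqueness in `ROK`, `rok_zone`).
Along the chain `u_j = u_0 + j w`, `u_0` in the base region (`b/4 ≤ Im u_0 < b/4 + r`), the steps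
`σ_j = Λ (u_{j+1}) - Λ (u_j)` satisfy `‖σ_0 - w‖ ≤ 8 C r³ / b`, `‖σ_{j+1} - σ_j‖ ≤ 96 r⁴ A B /
(H - Im u_{j+1}) ^ (B + 1)`, so by `sum_one` `‖σ_j - w‖ ≤ 8 C r³ / b + 96 r³ M̂ (Im u_{j+1})`, which is
at most `r / 4`; by `sum_two` and the number of steps `≤ H / r`,
`‖Λ (u_j) - u_j‖ ≤ C r² + 8 C r² H / b + 96 r² (2 ϱ + r) M̂ (Im u_j) ≤ K r² M̂ ϱ` with
`K = 300` (the first two terms are `≤ r² M̂ ϱ` because `M̂ ϱ ≥ C₁ H`), and this is `≤ K κ ϱ ≤ ϱ / 8`. So
`rok_zone` applies at `(Λ (u - w), Λ (u - 2 w))` with `y := Im (u - w)` for `b/4 ≤ Im u < (s + 1) r`,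
`Im u < y`, and `ext_node` gives the extension. After finitely many steps the height `y` is
reached. -/
theorem vertS {b C : ℝ} (hb : 0 < b) (hb1 : b ≤ 1) (hC : 1 ≤ C) :
    ∃ C₁ : ℝ, 1 ≤ C₁ ∧ ∀ (Y : Sys) (T : ℝ) (L : ℂ × ℂ → ℂ), EntS Y T b C L →
      ∀ (B : ℕ) (H A r y : ℝ), MajS Y T b B H A → C₁ * B * H ^ B ≤ A → 0 < r → 0 ≤ y → y < H →
        r ^ 2 * A ≤ 1 / 2400 * (H - y) ^ B →
        ∃ Λ : ℂ → ℂ, AnalyticOnNhd ℂ Λ (St (-(b / 2)) y) ∧
          (∀ t ∈ St (-(b / 2)) y, t.im < b / 2 → Λ t = L (t, r * I)) ∧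
          ∀ t ∈ St 0 y, ‖Λ t - t‖ ≤ 300 * (r ^ 2 * A / (H - t.im) ^ B) * ((H - t.im) / B) := by
  refine ⟨600 * C / b ^ 2, ?_, ?_⟩
  · rw [le_div_iff₀ (by positivity)]
    nlinarith
  intro Y T L hE B H A r y hMaj h1 hr hy hyH h2
  have hD : VD b C B H A r y := ⟨hb, hb1, hC, hMaj.B_ge, hMaj.b_ge, hMaj.A_pos, h1, hr, hy, hyH, h2⟩
  have hrb : 64 * r ≤ b := hD.a.2
  have hB' : (8 : ℝ) ≤ B := by exact_mod_cast hD.hB
  have hA := hD.hA
  have hwim : ∀ u : ℂ, (u - r * I).im = u.im - r := fun u => by simp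
  have hwim2 : ∀ u : ℂ, (u - 2 * (r * I)).im = u.im - 2 * r := fun u => by simp
  have hww : ∀ u : ℂ, u - 2 * (r * I) = u - r * I - r * I := fun u => by ring
  have hs1 : ∀ u : ℂ, b / (4 * r) ≤ u.im / r ↔ b / 4 ≤ u.im := by
    intro u
    rw [← div_div, div_le_div_iff_of_pos_right hr]
  have hs0 : ∀ u : ℂ, u.im / r < b / (2 * r) ↔ u.im < b / 2 := by
    intro u
    rw [← div_div, div_lt_div_iff_of_pos_right hr]
  have hφw : ∀ u : ℂ, (u + r * I).im / r = u.im / r + 1 := by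
    intro u
    have : (u + r * I).im = u.im + r := by simp
    rw [this, add_div, div_self hr.ne']
  have hφw' : ∀ u : ℂ, (u - r * I).im / r = u.im / r - 1 := by
    intro u
    rw [hwim, sub_div, div_self hr.ne']
  have hφw2 : ∀ u : ℂ, (u - 2 * (r * I)).im / r = u.im / r - 2 := by
    intro u
    rw [hwim2, sub_div, mul_div_assoc, div_self hr.ne', mul_one]
  have hDopen : IsOpen (St (-(b / 2)) y) :=
    Pool.Agent.MP_ae5b4e_an_NBT.isOpen_St _ _
  have hcont : Continuous (fun u : ℂ => u.im / r) := Complex.continuous_im.div_const r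
  have hback : ∀ u ∈ St (-(b / 2)) y, b / (4 * r) ≤ u.im / r →
      u - r * I ∈ St (-(b / 2)) y ∧ u - 2 * (r * I) ∈ St (-(b / 2)) y := by
    intro u hu hu1
    have h3 := (hs1 u).1 hu1
    refine ⟨⟨?_, ?_⟩, ⟨?_, ?_⟩⟩
    · rw [hwim]; linarith
    · rw [hwim]; linarith [hu.2]
    · rw [hwim2]; linarith
    · rw [hwim2]; linarith [hu.2]
  have hmem : ∀ z : ℂ, |z.im| < b → (z, (r : ℂ) * I) ∈ Bs b := fun z hz =>
    ⟨⟨(abs_lt.1 hz).1, (abs_lt.1 hz).2⟩, by
      rw [mem_ball_zero_iff]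
      simp only [norm_mul, Complex.norm_real, Complex.norm_I, mul_one, Real.norm_eq_abs]
      rw [abs_of_pos hr]
      linarith⟩
  -- the induction
  have key : ∀ n : ℕ, ∃ Λ : ℂ → ℂ,
      AnalyticOnNhd ℂ Λ (St (-(b / 2)) y ∩ {u | u.im / r < b / (2 * r) + n}) ∧
      (∀ t ∈ St (-(b / 2)) y, t.im / r < b / (2 * r) + n → t.im < b / 2 → Λ t = L (t, r * I)) ∧
      (∀ u ∈ St (-(b / 2)) y, b / (4 * r) ≤ u.im / r → u.im / r < b / (2 * r) + n →
        Pn Y (Λ (u - r * I)) (Λ (u - 2 * (r * I))) (Λ u - Λ (u - r * I)) = 0 ∧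
        ‖Λ u - 2 * Λ (u - r * I) + Λ (u - 2 * (r * I))‖ ≤ r / 4) ∧
      (∀ v ∈ St (-(b / 2)) y, v.im / r < b / (2 * r) + n → 0 ≤ v.im →
        ‖Λ v - v‖ ≤ 199 * (r ^ 2 * A / (H - v.im) ^ B) * ((H - v.im) / B) ∧
        ‖Λ v - Λ (v - r * I) - r * I‖ ≤ r / 4) := by
    intro n
    induction n with
    | zero =>
      refine ⟨fun t => L (t, r * I), ?_, fun t _ _ _ => rfl, ?_, ?_⟩
      · rintro t ⟨ht, ht2⟩
        have ht3 : t.im < b / 2 := by
          have : t.im / r < b / (2 * r) := by simpa using ht2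
          exact (hs0 t).1 this
        have ht4 : |t.im| < b := by
          rw [abs_lt]
          constructor <;> linarith [ht.1]
        exact (hE.an _ (hmem t ht4)).comp_of_eq (analyticAt_id.prod analyticAt_const) rfl
      · intro u hu hu1 hu2
        rw [Nat.cast_zero, add_zero, hs0] at hu2
        rw [hs1] at hu1
        constructor
        · have h3 := hE.node (u - r * I) (r * I)
            (hmem _ (by rw [hwim, abs_lt]; constructor <;> linarith))
            (by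
              rw [sub_add_cancel]
              exact hmem _ (by rw [abs_lt]; constructor <;> linarith))
            (by
              rw [← hww]
              exact hmem _ (by rw [hwim2, abs_lt]; constructor <;> linarith))
          rw [sub_add_cancel, ← hww] at h3
          unfold Pn
          rw [add_sub_cancel]
          exact h3
        · have h3 := Vert_B2 hE hr hrb (t := u) (by rw [abs_le]; constructor <;> linarith)
            (by rw [abs_le]; constructor <;> linarith)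
          have h4 := Vert_B2 hE hr hrb (t := u - r * I)
            (by rw [hwim, abs_le]; constructor <;> linarith)
            (by rw [hwim, abs_le]; constructor <;> linarith)
          rw [← hww] at h4
          have h5 : L (u, r * I) - 2 * L (u - r * I, r * I) + L (u - 2 * (r * I), r * I) =
              (L (u, r * I) - L (u - r * I, r * I) - r * I) -
              (L (u - r * I, r * I) - L (u - 2 * (r * I), r * I) - r * I) := by ring
          rw [h5]
          refine (norm_sub_le _ _).trans ?_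
          have := hD.e
          linarith
      · intro v hv hv2 hv0
        have hv3 : v.im < b / 2 := by
          rw [Nat.cast_zero, add_zero, hs0] at hv2
          exact hv2
        obtain ⟨h3, h4⟩ := Vert_base hE hD (s := b / (2 * r) + (0 : ℕ))
          (Λ := fun t => L (t, r * I)) (fun t _ _ _ => rfl) hv hv2 hv0 hv3
        refine ⟨h3.trans (hD.f hv0 (by linarith [hv.2])), h4.trans ?_⟩
        have := hD.e
        linarith
    | succ n ih =>
      obtain ⟨Λ, hΛ, hi, hiii, hiv⟩ := ih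
      -- the zone
      have hz : ∀ u ∈ St (-(b / 2)) y, b / (4 * r) ≤ u.im / r →
          u.im / r < b / (2 * r) + n + 1 →
          ROK Y (St (-T) T) (Λ (u - r * I)) (Λ (u - 2 * (r * I))) (r / 4) ∧
          ‖Pn Y (Λ (u - r * I)) (Λ (u - 2 * (r * I)))
            (Λ (u - r * I) - Λ (u - 2 * (r * I)))‖ ≤
              48 * r ^ 4 * (A * B / (H - (u - r * I).im) ^ (B + 1)) := by
        intro u hu hu1 hu2
        have hvD := (hback u hu hu1).1
        have h3 := (hs1 u).1 hu1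
        have hv0 : 0 ≤ (u - r * I).im := by rw [hwim]; linarith
        have hvy : (u - r * I).im < y := hvD.2
        obtain ⟨h4, h5⟩ := hiv (u - r * I) hvD (by rw [hφw']; linarith) hv0
        have hρ : 16 * r ≤ (H - (u - r * I).im) / B :=
          hD.b'.trans (div_le_div_of_nonneg_right (by linarith) (by positivity))
        have hd : 0 < H - (u - r * I).im := by linarith
        have hcc := hD.c' hvy.le
        refine rok_zoneS hMaj hE.on hr hv0 (by linarith) hρ ?_ ?_ ?_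
        · have h6 : |(Λ (u - r * I)).im| ≤ (u - r * I).im + ‖Λ (u - r * I) - (u - r * I)‖ := by
            have h7 := abs_im_le_norm (Λ (u - r * I) - (u - r * I))
            rw [sub_im] at h7
            have h8 := abs_sub_abs_le_abs_sub (Λ (u - r * I)).im (u - r * I).im
            rw [abs_of_nonneg hv0] at h8
            linarith
          have hM' : r ^ 2 * A / (H - (u - r * I).im) ^ B ≤ 1 / 2400 := by
            rw [div_le_iff₀ (by positivity)]
            exact hcc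
          have h9 : 199 * (r ^ 2 * A / (H - (u - r * I).im) ^ B) * ((H - (u - r * I).im) / B) ≤
              199 * (1 / 2400) * ((H - (u - r * I).im) / B) := by gcongr
          have h10 : (H - (u - r * I).im) / (8 * B) = (1 / 8) * ((H - (u - r * I).im) / B) := by
            rw [mul_comm, ← div_div]
            ring
          have h11 : 0 < (H - (u - r * I).im) / B := by positivity
          rw [h10]
          linarith
        · have h6 : 0 < (H - (u - r * I).im) ^ B := by positivity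
          linarith
        · have h6 : Λ (u - r * I) - Λ (u - 2 * (r * I)) =
              (Λ (u - r * I) - Λ (u - r * I - r * I) - r * I) + r * I := by
            rw [hww]
            ring
          rw [h6]
          refine (norm_add_le _ _).trans ?_
          have h7 : ‖((r : ℂ) * I)‖ = r := by simp [abs_of_pos hr]
          rw [h7]
          linarith
      obtain ⟨Λ', h3, h4, h5⟩ := ext_node (Pool.Agent.MP_ae5b4e_an_NBT.isOpen_St _ _) hE.on hDopen (φ := fun u : ℂ => u.im / r)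
        hcont (w := r * I) hφw (s₁ := b / (4 * r)) (s := b / (2 * r) + n) (r := r / 4) (by
          have h6 : b / (4 * r) < b / (2 * r) := by
            apply div_lt_div_of_pos_left hb (by positivity)
            linarith
          have : (0 : ℝ) ≤ n := by positivity
          linarith) hback (Λ := Λ) hΛ (fun u hu hu1 hu2 => (hz u hu hu1 hu2).1) hiii
      have hcast : b / (2 * r) + ((n + 1 : ℕ) : ℝ) = b / (2 * r) + n + 1 := by push_cast; ring
      rw [hcast]
      have hi' : ∀ t ∈ St (-(b / 2)) y, t.im / r < b / (2 * r) + n + 1 → t.im < b / 2 →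
          Λ' t = L (t, r * I) := by
        intro t ht _ ht3
        have h6 : t.im / r < b / (2 * r) + n := by
          have h7 := (hs0 t).2 ht3
          have : (0 : ℝ) ≤ n := by positivity
          linarith
        rw [h4 t ht h6]
        exact hi t ht h6 ht3
      have hii' : ∀ u ∈ St (-(b / 2)) y, b / 4 ≤ u.im → u.im / r < b / (2 * r) + n + 1 →
          ‖Λ' u - 2 * Λ' (u - r * I) + Λ' (u - 2 * (r * I))‖ ≤
            96 * r ^ 4 * (A * B / (H - (u - r * I).im) ^ (B + 1)) := by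
        intro u hu hu1 hu2
        have hu1' := (hs1 u).2 hu1
        obtain ⟨hb1', hb2'⟩ := hback u hu hu1'
        have h6 := (h5 u hu hu1' hu2).2
        have h7 : Λ' (u - r * I) = Λ (u - r * I) := h4 _ hb1' (by rw [hφw']; linarith)
        have h8 : Λ' (u - 2 * (r * I)) = Λ (u - 2 * (r * I)) := h4 _ hb2' (by
          rw [hφw2]; linarith)
        rw [h7, h8] at h6
        rw [h7, h8]
        have h9 := (hz u hu hu1' hu2).2
        calc _ ≤ _ := h6
          _ ≤ 2 * (48 * r ^ 4 * (A * B / (H - (u - r * I).im) ^ (B + 1))) := by gcongr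
          _ = _ := by ring
      refine ⟨Λ', h3, hi', ?_, ?_⟩
      · intro u hu hu1 hu2
        refine ⟨(h5 u hu hu1 hu2).1, (hii' u hu ((hs1 u).1 hu1) hu2).trans (hD.g ?_)⟩
        exact ((hback u hu hu1).1.2).le
      · intro v hv hv2 hv0
        rcases le_or_gt (b / 4) v.im with hvb | hvb
        · exact Vert_chain hE hD hi' hii' hv hv2 hv0 hvb
        · obtain ⟨h6, h7⟩ := Vert_base hE hD hi' hv hv2 hv0 (by linarith)
          refine ⟨h6.trans (hD.f hv0 (by linarith [hv.2])), h7.trans ?_⟩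
          have := hD.e
          linarith
  obtain ⟨Λ, h3, h4, -, h6⟩ := key ⌈y / r⌉₊
  have hall : ∀ t ∈ St (-(b / 2)) y, t.im / r < b / (2 * r) + (⌈y / r⌉₊ : ℕ) := by
    intro t ht
    have h7 : t.im / r < y / r := div_lt_div_of_pos_right ht.2 hr
    have h8 := Nat.le_ceil (y / r)
    have h9 : 0 < b / (2 * r) := by positivity
    linarith
  refine ⟨Λ, fun t ht => h3 t ⟨ht, hall t ht⟩, fun t ht ht2 => h4 t ht (hall t ht) ht2, ?_⟩
  intro t ht
  have ht' : t ∈ St (-(b / 2)) y := ⟨by linarith [ht.1], ht.2⟩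
  have hd : 0 < H - t.im := by linarith [ht.2]
  refine ((h6 t ht' (hall t ht') ht.1.le).1).trans ?_
  gcongr
  norm_num

end Pool.Agent.MP_ae5b4e_an_NF
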