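import Pool.Agent.Lib.MP_ae5b4e_an_NF.Defs

/-!
# MP_ae5b4e_an, project NF (NB_5 for a strip of finite height): the maximum point
-/

noncomputable section

namespace Pool.Agent.MP_ae5b4e_an_NF

open Complex Set Filter Topology Metric
open Pool.Agent.MP_ae5b4e_an_NBT (St isOpen_St)
open Pool.Agent.MP_ae5b4e_an_NB2 (Sys)
open scoped ComplexConjugate

/-- the potential is analytic -/
theorem qS_diff {Y : Sys} {S : Set ℂ} (hS : IsOpen S) (hY : Y.On S) : DifferentiableOn ℂ Y.Q S := by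
  have a1 := Sys.an_y1' hY hS
  have a2 := Sys.an_y2' hY hS
  have h1 : ∀ w ∈ S, Y.Q w = -deriv Y.y1' w * Y.y2' w + deriv Y.y2' w * Y.y1' w := by
    intro w hw
    rw [(hY.d1' w hw).deriv, (hY.d2' w hw).deriv]
    have := hY.wr w hw
    linear_combination (-Y.Q w) * this
  have h2 : DifferentiableOn ℂ (fun w => -deriv Y.y1' w * Y.y2' w + deriv Y.y2' w * Y.y1' w) S := by
    intro w hw
    exact (((a1 w hw).deriv.neg.mul (a2 w hw)).add
      ((a2 w hw).deriv.mul (a1 w hw))).differentiableAt.differentiableWithinAt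
  exact h2.congr h1

/-- integer periods on a strip -/
theorem qS_int {Q : ℂ → ℂ} {a b : ℝ} (hper : ∀ z ∈ St a b, Q (z + 1) = Q z) (n : ℤ) {z : ℂ}
    (hz : z ∈ St a b) : Q (z + n) = Q z := by
  have hm : ∀ (m : ℤ), z + m ∈ St a b := by
    intro m
    have h1 : (z + (m : ℂ)).im = z.im := by simp
    exact ⟨by rw [h1]; exact hz.1, by rw [h1]; exact hz.2⟩
  induction n using Int.induction_on with
  | zero => simp
  | succ n ih =>
    have h1 := hper _ (hm n)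
    rw [← ih, ← h1]
    congr 1
    push_cast
    ring
  | pred n ih =>
    have h1 := hper _ (hm (-n - 1))
    rw [← ih, ← h1]
    congr 1
    push_cast
    ring

/-- A bound for the potential on a closed substrip. -/
theorem qS_bd {Q : ℂ → ℂ} {h : ℝ} (hd : ContinuousOn Q (St (-h) h))
    (hper : ∀ z ∈ St (-h) h, Q (z + 1) = Q z) {y : ℝ} (hy : y < h) :
    ∃ M : ℝ, 0 ≤ M ∧ ∀ w : ℂ, |w.im| ≤ y → ‖Q w‖ ≤ M := by
  have hK : IsCompact (Icc (0:ℝ) 1 ×ℂ Icc (-y) y) := isCompact_Icc.reProdIm isCompact_Icc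
  have hsub : Icc (0:ℝ) 1 ×ℂ Icc (-y) y ⊆ St (-h) h := by
    intro w hw
    rw [mem_reProdIm] at hw
    exact ⟨by linarith [hw.2.1], by linarith [hw.2.2]⟩
  obtain ⟨M, hM⟩ := hK.exists_bound_of_continuousOn (hd.mono hsub)
  refine ⟨max M 0, le_max_right _ _, fun w hw => ?_⟩
  have hw' := abs_le.1 hw
  have hwS : w ∈ St (-h) h := ⟨by linarith [hw'.1], by linarith [hw'.2]⟩
  rw [← qS_int hper (-⌊w.re⌋) hwS]
  refine (hM _ ?_).trans (le_max_left _ _)
  rw [mem_reProdIm]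
  have h2 := Int.floor_le w.re
  have h3 := Int.lt_floor_add_one w.re
  simp only [add_re, add_im, intCast_re, intCast_im, add_zero, mem_Icc]
  push_cast
  exact ⟨⟨by linarith, by linarith⟩, hw'⟩

/-- **The maximum point.** If `‖Q‖ (h - |Im|) ^ B` is not bounded on the strip, there are `H < h` and a
maximum point of `‖Q‖ (H - |Im|) ^ B` in the upper half of the strip of height `H`, with a large maximum. -/
theorem exists_topS {Q : ℂ → ℂ} {h : ℝ} (hh : 0 < h) (hd : ContinuousOn Q (St (-h) h))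
    (hper : ∀ z ∈ St (-h) h, Q (z + 1) = Q z) (hre : ∀ z ∈ St (-h) h, Q (conj z) = conj (Q z))
    {B : ℕ} (hB : 1 ≤ B) (hun : ∀ A : ℝ, ∃ z : ℂ, |z.im| < h ∧ A < ‖Q z‖ * (h - |z.im|) ^ B)
    (A₀ : ℝ) :
    ∃ (H A : ℝ) (l : ℂ), h / 2 ≤ H ∧ H < h ∧ 0 < A ∧ H / 2 < l.im ∧ l.im < H ∧
      ‖Q l‖ * (H - l.im) ^ B = A ∧
      (∀ l' : ℂ, |l'.im| < H → ‖Q l'‖ * (H - |l'.im|) ^ B ≤ A) ∧ A₀ ≤ A := by
  obtain ⟨K, hK0, hK⟩ := qS_bd hd hper (y := h / 2) (by linarith)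
  obtain ⟨z, hz, hzA⟩ := hun (max A₀ (K * h ^ B))
  obtain ⟨H, hH1, hH2, hH3, hH4⟩ : ∃ H : ℝ, h / 2 ≤ H ∧ |z.im| < H ∧ H < h ∧
      max A₀ (K * h ^ B) < ‖Q z‖ * (H - |z.im|) ^ B := by
    have h1 : ContinuousAt (fun H : ℝ => ‖Q z‖ * (H - |z.im|) ^ B) h := by fun_prop
    have h2 : ∀ᶠ H in 𝓝 h, max A₀ (K * h ^ B) < ‖Q z‖ * (H - |z.im|) ^ B :=
      h1.eventually_const_lt hzA
    have h3 : ∀ᶠ H in 𝓝 h, h / 2 < H := eventually_gt_nhds (by linarith)
    have h4 : ∀ᶠ H in 𝓝 h, |z.im| < H := eventually_gt_nhds hz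
    obtain ⟨H, h5, h6⟩ := (((h2.and (h3.and h4)).filter_mono nhdsWithin_le_nhds).and
      (self_mem_nhdsWithin : Iio h ∈ 𝓝[<] h)).exists
    exact ⟨H, h5.2.1.le, h5.2.2, h6, h5.1⟩
  have hH0 : 0 < H := by linarith
  have hcp : IsCompact (Icc (0:ℝ) 1 ×ℂ Icc (-H) H) := isCompact_Icc.reProdIm isCompact_Icc
  have hsub : Icc (0:ℝ) 1 ×ℂ Icc (-H) H ⊆ St (-h) h := by
    intro w hw
    rw [mem_reProdIm] at hw
    exact ⟨by linarith [hw.2.1], by linarith [hw.2.2]⟩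
  have hcont : ContinuousOn (fun l : ℂ => ‖Q l‖ * (H - |l.im|) ^ B) (Icc (0:ℝ) 1 ×ℂ Icc (-H) H) := by
    refine ((hd.mono hsub).norm).mul ?_
    fun_prop
  have hne : (Icc (0:ℝ) 1 ×ℂ Icc (-H) H).Nonempty := by
    refine ⟨0, ?_⟩
    rw [mem_reProdIm]
    simp only [zero_re, zero_im, mem_Icc]
    refine ⟨⟨le_rfl, zero_le_one⟩, ?_, ?_⟩ <;> linarith
  obtain ⟨l, hlK, hmax⟩ := hcp.exists_isMaxOn hne hcont
  have hmS : ∀ w : ℂ, |w.im| ≤ H → w ∈ St (-h) h := by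
    intro w hw
    have := abs_le.1 hw
    exact ⟨by linarith [this.1], by linarith [this.2]⟩
  have hall : ∀ w : ℂ, |w.im| ≤ H → ‖Q w‖ * (H - |w.im|) ^ B ≤ ‖Q l‖ * (H - |l.im|) ^ B := by
    intro w hw
    have h1 : w + ((-⌊w.re⌋ : ℤ) : ℂ) ∈ Icc (0:ℝ) 1 ×ℂ Icc (-H) H := by
      rw [mem_reProdIm]
      simp only [add_re, add_im, intCast_re, intCast_im, add_zero, mem_Icc]
      have h2 := Int.floor_le w.re
      have h3 := Int.lt_floor_add_one w.re
      push_cast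
      exact ⟨⟨by linarith, by linarith⟩, abs_le.1 hw⟩
    have h4 := hmax h1
    simp only [mem_ofPred_eq] at h4
    rw [qS_int hper _ (hmS w hw)] at h4
    simpa only [add_im, intCast_im, add_zero] using h4
  rw [mem_reProdIm] at hlK
  have hlim : |l.im| ≤ H := abs_le.2 hlK.2
  set A := ‖Q l‖ * (H - |l.im|) ^ B with hA
  have hzl : max A₀ (K * h ^ B) < A := hH4.trans_le (hall z hH2.le)
  have hA0 : A₀ < A := (le_max_left _ _).trans_lt hzl
  have hAK : K * h ^ B < A := (le_max_right _ _).trans_lt hzl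
  have hApos : 0 < A := lt_of_le_of_lt (by positivity) hAK
  have hhalf : H / 2 < |l.im| := by
    by_contra hcon
    push Not at hcon
    have h1 := hK l (by linarith)
    have h2 : (H - |l.im|) ^ B ≤ h ^ B :=
      pow_le_pow_left₀ (by linarith) (by linarith [abs_nonneg l.im]) B
    have h3 : A ≤ K * h ^ B := by
      rw [hA]
      exact mul_le_mul h1 h2 (pow_nonneg (by linarith) _) hK0
    linarith
  have hlt : |l.im| < H := by
    refine lt_of_le_of_ne hlim fun he => ?_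
    rw [he, sub_self, zero_pow (by omega), mul_zero] at hA
    linarith
  have hbd : ∀ l' : ℂ, |l'.im| < H → ‖Q l'‖ * (H - |l'.im|) ^ B ≤ A := fun l' hl' =>
    hall l' hl'.le
  by_cases hs : 0 ≤ l.im
  · rw [abs_of_nonneg hs] at hhalf hlt
    exact ⟨H, A, l, hH1, hH3, hApos, hhalf, hlt, by rw [hA, abs_of_nonneg hs], hbd, hA0.le⟩
  · have hs' : l.im < 0 := not_le.1 hs
    have hlS := hmS l hlim
    rw [abs_of_neg hs'] at hhalf hlt
    refine ⟨H, A, conj l, hH1, hH3, hApos, by rwa [conj_im], by rwa [conj_im], ?_, hbd, hA0.le⟩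
    rw [hA, hre l hlS, Complex.norm_conj, conj_im, abs_of_neg hs']

end Pool.Agent.MP_ae5b4e_an_NF
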