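import Pool.Agent.Lib.MP_ae5b4e_an_NF.WinBS

/-!
# MP_ae5b4e_an, project NF: the potential near the maximum point is an exponential function
-/

noncomputable section

namespace Pool.Agent.MP_ae5b4e_an_NF

open Complex Set Filter Topology Metric
open Pool.Agent.MP_ae5b4e_an_NBT (St isOpen_St)
open Pool.Agent.MP_ae5b4e_an_NB2 (Sys)
open scoped ComplexConjugate

/-- `(1 - x) exp (x + x²) ≥ 1` for `|x| ≤ 1/3` -/
private theorem WinC_one_le {x : ℝ} (hx : |x| ≤ 1 / 3) :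
    1 ≤ (1 - x) * Real.exp (x + x ^ 2) := by
  obtain ⟨h1, h2⟩ := abs_le.1 hx
  rcases le_total 0 x with h0 | h0
  · have h3 : 0 ≤ x + x ^ 2 := by positivity
    have h4 := Real.quadratic_le_exp_of_nonneg h3
    have h5 : (1 - x) * (1 + (x + x ^ 2) + (x + x ^ 2) ^ 2 / 2) ≤
        (1 - x) * Real.exp (x + x ^ 2) := mul_le_mul_of_nonneg_left h4 (by linarith)
    refine le_trans ?_ h5
    have h6 : (1 - x) * (1 + (x + x ^ 2) + (x + x ^ 2) ^ 2 / 2) =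
        1 + x ^ 2 * (1 - x - x ^ 2 - x ^ 3) / 2 := by ring
    have h8 : x ^ 2 ≤ 1 / 9 := by nlinarith
    have h9 : x ^ 3 ≤ 1 / 27 := by
      have : x ^ 3 = x * x ^ 2 := by ring
      rw [this]
      nlinarith [sq_nonneg x]
    have h7 : 0 ≤ x ^ 2 * (1 - x - x ^ 2 - x ^ 3) := by
      apply mul_nonneg (sq_nonneg x)
      linarith
    rw [h6]
    linarith
  · have h4 := Real.add_one_le_exp (x + x ^ 2)
    have h5 : (1 - x) * (x + x ^ 2 + 1) ≤ (1 - x) * Real.exp (x + x ^ 2) :=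
      mul_le_mul_of_nonneg_left h4 (by linarith)
    refine le_trans ?_ h5
    have h6 : (1 - x) * (x + x ^ 2 + 1) = 1 - x ^ 3 := by ring
    have h7 : x ^ 3 ≤ 0 := by
      have : x ^ 3 = x * x ^ 2 := by ring
      rw [this]
      exact mul_nonpos_of_nonpos_of_nonneg h0 (sq_nonneg x)
    rw [h6]
    linarith

/-- `(1 - y / B) ^ (-B) exp (- y) ≤ exp (y² / B)` for `|y| ≤ B / 3` -/
private theorem WinC_pow {B : ℕ} (hB : 0 < B) {y : ℝ} (hy : 3 * |y| ≤ B) :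
    Real.exp (-y) ≤ Real.exp (y ^ 2 / B) * (1 - y / B) ^ B := by
  have hB' : (0 : ℝ) < B := by exact_mod_cast hB
  have h1 : |y / B| ≤ 1 / 3 := by
    rw [abs_div, abs_of_pos hB', div_le_div_iff₀ hB' (by norm_num)]
    linarith
  have h2 := WinC_one_le h1
  have h3 := one_le_pow₀ h2 (n := B)
  rw [mul_pow, ← Real.exp_nat_mul] at h3
  have h4 : (B : ℝ) * (y / B + (y / B) ^ 2) = y + y ^ 2 / B := by
    field_simp
  rw [h4, Real.exp_add] at h3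
  have h5 : Real.exp (-y) * 1 ≤
      Real.exp (-y) * ((1 - y / B) ^ B * (Real.exp y * Real.exp (y ^ 2 / B))) :=
    mul_le_mul_of_nonneg_left h3 (Real.exp_pos _).le
  have h6 : Real.exp (-y) * Real.exp y = 1 := by
    rw [← Real.exp_add, neg_add_cancel, Real.exp_zero]
  calc Real.exp (-y) = Real.exp (-y) * 1 := (mul_one _).symm
    _ ≤ _ := h5
    _ = (Real.exp (-y) * Real.exp y) * (Real.exp (y ^ 2 / B) * (1 - y / B) ^ B) := by ring
    _ = _ := by rw [h6, one_mul]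

/-- Let `D = H - Im l`, `N = B / D`, `k' = 2 (k + 4)`, `μ = exp (k'² / B)`, and
`Φ z = (D ^ B / A) Q (l + z / N) exp (I z)`. For `‖z‖ < k'` (`B` large compared with `k'²`) the point
`l + z / N` has `0 < Im < H` (`‖z‖ / N ≤ k' H / (2 B)`... note `D ≤ H / 2`) and depth
`D (1 - Im z / B)`, so `‖Φ z‖ ≤ (1 - Im z / B) ^ (-B) exp (- Im z) ≤ μ` (`- log (1 - x) ≤ x + x²` for
`|x| ≤ 1/2`). `‖Φ 0‖ = 1`. `Complex.borelCaratheodory_zero` for `Φ z / Φ 0 - 1` (real part at most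
`μ - 1`) on `ball 0 k'`: `‖Φ z - Φ 0‖ ≤ 2 (μ - 1) ‖z‖ / (k' - ‖z‖) ≤ 2 (μ - 1)` for `‖z‖ ≤ k + 4`.
Write `Φ 0 = exp (I θ₀)`, `θ₀ ∈ (-π, π]`. Then `(D ^ B / A) Q (l + θ₀ / N + z / N) =
Φ (z + θ₀) exp (- I (z + θ₀))`, which differs from `exp (- I z) = Φ 0 exp (- I (z + θ₀))` by at most
`exp k * 2 (μ - 1) ≤ δ` for `‖z‖ ≤ k` (`B` large). -/
theorem approxS {k δ : ℝ} (hk : 1 ≤ k) (hδ : 0 < δ) :
    ∃ B₀ : ℕ, ∀ B : ℕ, B₀ ≤ B → ∀ (Q : ℂ → ℂ) (H A : ℝ) (l : ℂ), DifferentiableOn ℂ Q (St (-H) H) →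
      (∀ l' : ℂ, |l'.im| < H → ‖Q l'‖ * (H - |l'.im|) ^ B ≤ A) → 0 < A → H / 2 < l.im → l.im < H →
      ‖Q l‖ * (H - l.im) ^ B = A →
      ∃ θ₀ : ℝ, ∀ z : ℂ, ‖z‖ ≤ k →
        ‖(((H - l.im) ^ B / A : ℝ) : ℂ) * Q (l + θ₀ / ((B / (H - l.im) : ℝ) : ℂ) +
          z / ((B / (H - l.im) : ℝ) : ℂ)) - exp (-(I * z))‖ ≤ δ := by
  obtain ⟨B₁, hB₁⟩ := exists_nat_ge (6 * (k + 4) + (2 * (k + 4)) ^ 2 +
    4 * (2 * (k + 4)) ^ 2 * Real.exp k / δ)
  refine ⟨B₁, ?_⟩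
  intro B hBB Q H A l hQ hQA hA hl1 hl2 hmax
  have hk4 : 0 < k + 4 := by linarith
  have hBB' : (B₁ : ℝ) ≤ B := by exact_mod_cast hBB
  have hE : 0 < Real.exp k := Real.exp_pos k
  have hq : 0 ≤ 4 * (2 * (k + 4)) ^ 2 * Real.exp k / δ := by positivity
  have hBk : 6 * (k + 4) ≤ B := by nlinarith [sq_nonneg (2 * (k + 4))]
  have hBq : (2 * (k + 4)) ^ 2 ≤ B := by nlinarith [sq_nonneg (2 * (k + 4))]
  have hBd : 4 * (2 * (k + 4)) ^ 2 * Real.exp k / δ ≤ B := by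
    nlinarith [sq_nonneg (2 * (k + 4))]
  have hB0 : (0 : ℝ) < B := by linarith
  have hBn : 0 < B := by exact_mod_cast hB0
  obtain ⟨D, hD⟩ : ∃ D : ℝ, D = H - l.im := ⟨_, rfl⟩
  rw [← hD] at hmax ⊢
  have hD0 : 0 < D := by linarith
  have hD2 : D < l.im := by linarith
  obtain ⟨N, hN⟩ : ∃ N : ℝ, N = (B : ℝ) / D := ⟨_, rfl⟩
  rw [← hN]
  have hN0 : 0 < N := by
    rw [hN]
    positivity
  have hNC : (N : ℂ) ≠ 0 := by exact_mod_cast hN0.ne'
  -- the function `Φ`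
  obtain ⟨Φ, hΦ⟩ : ∃ Φ : ℂ → ℂ, Φ = fun z => ((D ^ B / A : ℝ) : ℂ) * Q (l + z / (N : ℂ)) *
    exp (I * z) := ⟨_, rfl⟩
  have hpt : ∀ z : ℂ, ‖z‖ < 2 * (k + 4) → (l + z / (N : ℂ)).im = l.im + z.im * D / B ∧
      -(D / 3) ≤ z.im * D / B ∧ z.im * D / B ≤ D / 3 := by
    intro z hz
    have hy : |z.im| < 2 * (k + 4) := lt_of_le_of_lt (abs_im_le_norm z) hz
    have him : (l + z / (N : ℂ)).im = l.im + z.im * D / B := by
      rw [add_im, div_ofReal_im, hN]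
      congr 1
      field_simp
    obtain ⟨hy1, hy2⟩ := abs_le.1 (show |z.im| ≤ (B : ℝ) / 3 by linarith)
    refine ⟨him, ?_, ?_⟩
    · rw [le_div_iff₀ hB0]
      nlinarith
    · rw [div_le_iff₀ hB0]
      nlinarith
  have hΦd : DifferentiableOn ℂ Φ (ball 0 (2 * (k + 4))) := by
    rw [hΦ]
    intro z hz
    obtain ⟨h1, h2, h3⟩ := hpt z (mem_ball_zero_iff.1 hz)
    have h4 : l + z / (N : ℂ) ∈ St (-H) H := by
      refine ⟨?_, ?_⟩
      · rw [h1]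
        linarith
      · rw [h1]
        linarith
    have h5 : DifferentiableAt ℂ Q (l + z / (N : ℂ)) :=
      hQ.differentiableAt ((isOpen_St (-H) H).mem_nhds h4)
    have h6 : DifferentiableAt ℂ (fun z : ℂ => l + z / (N : ℂ)) z := by fun_prop
    have h7 : DifferentiableAt ℂ (fun z : ℂ => Q (l + z / (N : ℂ))) z :=
      DifferentiableAt.comp (g := Q) z h5 h6
    exact ((h7.const_mul _).mul (by fun_prop : DifferentiableAt ℂ (fun z : ℂ => exp (I * z)) z)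
      ).differentiableWithinAt
  obtain ⟨μ, hμ⟩ : ∃ μ : ℝ, μ = Real.exp ((2 * (k + 4)) ^ 2 / B) := ⟨_, rfl⟩
  have hμ1 : 1 < μ := by
    rw [hμ, Real.one_lt_exp_iff]
    positivity
  have hc0 : (0 : ℝ) < D ^ B / A := by positivity
  have hΦb : ∀ z : ℂ, ‖z‖ < 2 * (k + 4) → ‖Φ z‖ ≤ μ := by
    intro z hz
    have hy : |z.im| < 2 * (k + 4) := lt_of_le_of_lt (abs_im_le_norm z) hz
    have hy3 : 3 * |z.im| ≤ B := by linarith
    have him : (l + z / (N : ℂ)).im = l.im + z.im * D / B := by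
      rw [add_im, div_ofReal_im, hN]
      congr 1
      field_simp
    obtain ⟨hy1, hy2⟩ := abs_le.1 (show |z.im| ≤ (B : ℝ) / 3 by linarith)
    have h1 : -(D / 3) ≤ z.im * D / B := by
      rw [le_div_iff₀ hB0]
      nlinarith
    have h2 : z.im * D / B ≤ D / 3 := by
      rw [div_le_iff₀ hB0]
      nlinarith
    have habs : |(l + z / (N : ℂ)).im| = l.im + z.im * D / B := by
      rw [him, abs_of_pos]
      linarith
    have h3 : |(l + z / (N : ℂ)).im| < H := by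
      rw [habs]
      linarith
    have h4 := hQA _ h3
    have h5 : H - |(l + z / (N : ℂ)).im| = D * (1 - z.im / B) := by
      rw [habs, hD]
      ring
    rw [h5, mul_pow] at h4
    have h6 := WinC_pow hBn hy3
    have h7 : ‖Φ z‖ = D ^ B / A * ‖Q (l + z / (N : ℂ))‖ * Real.exp (-z.im) := by
      rw [hΦ]
      show ‖((D ^ B / A : ℝ) : ℂ) * Q (l + z / (N : ℂ)) * exp (I * z)‖ = _
      rw [norm_mul, norm_mul, norm_real, Real.norm_of_nonneg hc0.le, norm_exp]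
      congr 2
      simp
    have h8 : 0 < 1 - z.im / B := by
      have : z.im / B ≤ 1 / 3 := by
        rw [div_le_iff₀ hB0]
        linarith
      linarith
    have h9 : 0 < (1 - z.im / B) ^ B := pow_pos h8 B
    have h10 : D ^ B / A * ‖Q (l + z / (N : ℂ))‖ * (1 - z.im / B) ^ B ≤ 1 := by
      have : D ^ B / A * ‖Q (l + z / (N : ℂ))‖ * (1 - z.im / B) ^ B =
          (‖Q (l + z / (N : ℂ))‖ * (D ^ B * (1 - z.im / B) ^ B)) / A := by ring
      rw [this, div_le_one hA]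
      exact h4
    have h11 : Real.exp (z.im ^ 2 / B) ≤ μ := by
      rw [hμ, Real.exp_le_exp]
      apply div_le_div_of_nonneg_right _ hB0.le
      rw [← sq_abs]
      exact pow_le_pow_left₀ (abs_nonneg _) hy.le 2
    rw [h7]
    have h12 : 0 ≤ D ^ B / A * ‖Q (l + z / (N : ℂ))‖ := mul_nonneg hc0.le (norm_nonneg _)
    calc D ^ B / A * ‖Q (l + z / (N : ℂ))‖ * Real.exp (-z.im)
        ≤ D ^ B / A * ‖Q (l + z / (N : ℂ))‖ *
          (Real.exp (z.im ^ 2 / B) * (1 - z.im / B) ^ B) := mul_le_mul_of_nonneg_left h6 h12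
      _ = Real.exp (z.im ^ 2 / B) *
          (D ^ B / A * ‖Q (l + z / (N : ℂ))‖ * (1 - z.im / B) ^ B) := by ring
      _ ≤ Real.exp (z.im ^ 2 / B) * 1 := mul_le_mul_of_nonneg_left h10 (Real.exp_pos _).le
      _ = Real.exp (z.im ^ 2 / B) := mul_one _
      _ ≤ μ := h11
  have hΦ0 : ‖Φ 0‖ = 1 := by
    rw [hΦ]
    show ‖((D ^ B / A : ℝ) : ℂ) * Q (l + 0 / (N : ℂ)) * exp (I * 0)‖ = 1
    rw [zero_div, add_zero, mul_zero, exp_zero, mul_one, norm_mul, norm_real,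
      Real.norm_of_nonneg hc0.le, ← hmax]
    have h1 : ‖Q l‖ * D ^ B ≠ 0 := by
      rw [hmax]
      exact hA.ne'
    rw [div_mul_eq_mul_div, mul_comm (D ^ B), div_self h1]
  have hΦ00 : Φ 0 ≠ 0 := by
    intro h0
    rw [h0, norm_zero] at hΦ0
    exact zero_ne_one hΦ0
  -- Borel-Caratheodory
  have hBC : ∀ z : ℂ, ‖z‖ ≤ k + 4 → ‖Φ z - Φ 0‖ ≤ 2 * (μ - 1) := by
    intro z hz
    have h1 := borelCaratheodory_zero (f := fun w => Φ w / Φ 0 - 1) (M := μ - 1)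
      (R := 2 * (k + 4)) (z := z) (by linarith)
      ((hΦd.div_const _).sub_const 1) ?_ (by linarith) ?_ ?_
    · have h2 : ‖Φ z / Φ 0 - 1‖ = ‖Φ z - Φ 0‖ := by
        have h3 : Φ z / Φ 0 - 1 = (Φ z - Φ 0) / Φ 0 := by
          rw [sub_div, div_self hΦ00]
        rw [h3, norm_div, hΦ0, div_one]
      rw [h2] at h1
      refine h1.trans ?_
      rw [div_le_iff₀ (by linarith)]
      apply mul_le_mul_of_nonneg_left _ (by linarith)
      linarith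
    · intro w hw
      rw [mem_ball_zero_iff] at hw
      have h2 : ‖Φ w / Φ 0‖ ≤ μ := by
        rw [norm_div, hΦ0, div_one]
        exact hΦb w hw
      have h3 : (Φ w / Φ 0).re ≤ μ := (re_le_norm _).trans h2
      show (Φ w / Φ 0 - 1).re ≤ μ - 1
      rw [sub_re, one_re]
      linarith
    · rw [mem_ball_zero_iff]
      linarith
    · show Φ 0 / Φ 0 - 1 = 0
      rw [div_self hΦ00, sub_self]
  have hμd : 2 * (μ - 1) * Real.exp k ≤ δ := by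
    have h1 : (2 * (k + 4)) ^ 2 / (B : ℝ) ≤ 1 := by
      rw [div_le_one hB0]
      exact hBq
    have h2 : 0 ≤ (2 * (k + 4)) ^ 2 / (B : ℝ) := by positivity
    have h3 := Real.abs_exp_sub_one_le (x := (2 * (k + 4)) ^ 2 / (B : ℝ))
      (by rwa [abs_of_nonneg h2])
    rw [← hμ, abs_of_nonneg h2, abs_of_pos (by linarith)] at h3
    have h4 : 4 * ((2 * (k + 4)) ^ 2 / (B : ℝ)) * Real.exp k ≤ δ := by
      have h5 : 4 * ((2 * (k + 4)) ^ 2 / (B : ℝ)) * Real.exp k =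
          4 * (2 * (k + 4)) ^ 2 * Real.exp k / B := by ring
      rw [h5, div_le_iff₀ hB0]
      rw [div_le_iff₀ hδ] at hBd
      linarith
    refine le_trans ?_ h4
    have h5 : 2 * (μ - 1) ≤ 4 * ((2 * (k + 4)) ^ 2 / (B : ℝ)) := by linarith
    exact mul_le_mul_of_nonneg_right h5 hE.le
  refine ⟨arg (Φ 0), ?_⟩
  intro z hz
  have hθ : exp (I * (arg (Φ 0) : ℂ)) = Φ 0 := by
    have h1 := norm_mul_exp_arg_mul_I (Φ 0)
    rw [hΦ0, ofReal_one, one_mul, mul_comm] at h1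
    exact h1
  have hθn : ‖z + (arg (Φ 0) : ℂ)‖ ≤ k + 4 := by
    refine (norm_add_le _ _).trans ?_
    have h1 : ‖(arg (Φ 0) : ℂ)‖ ≤ 4 := by
      rw [norm_real, Real.norm_eq_abs]
      exact (abs_arg_le_pi _).trans Real.pi_le_four
    linarith
  have h1 := hBC _ hθn
  have h2 : ((D ^ B / A : ℝ) : ℂ) * Q (l + (arg (Φ 0) : ℂ) / (N : ℂ) + z / (N : ℂ)) =
      Φ (z + (arg (Φ 0) : ℂ)) * exp (-(I * (z + (arg (Φ 0) : ℂ)))) := by
    have h3 : Φ (z + (arg (Φ 0) : ℂ)) = ((D ^ B / A : ℝ) : ℂ) *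
        Q (l + (z + (arg (Φ 0) : ℂ)) / (N : ℂ)) * exp (I * (z + (arg (Φ 0) : ℂ))) := by
      rw [hΦ]
    rw [h3, mul_assoc, ← exp_add, add_neg_cancel, exp_zero, mul_one]
    congr 2
    ring
  have h3 : exp (-(I * z)) = Φ 0 * exp (-(I * (z + (arg (Φ 0) : ℂ)))) := by
    nth_rewrite 1 [← hθ]
    rw [← exp_add]
    congr 1
    ring
  rw [h2, h3, ← sub_mul, norm_mul]
  have h4 : ‖exp (-(I * (z + (arg (Φ 0) : ℂ))))‖ ≤ Real.exp k := by
    rw [norm_exp, Real.exp_le_exp]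
    have h5 : (-(I * (z + (arg (Φ 0) : ℂ)))).re = z.im := by simp
    rw [h5]
    exact (im_le_norm z).trans hz
  calc ‖Φ (z + (arg (Φ 0) : ℂ)) - Φ 0‖ * ‖exp (-(I * (z + (arg (Φ 0) : ℂ))))‖
      ≤ 2 * (μ - 1) * Real.exp k := mul_le_mul h1 h4 (norm_nonneg _) (by linarith)
    _ ≤ δ := hμd

end Pool.Agent.MP_ae5b4e_an_NF
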